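import Pool.Agent.Gap.Basic

set_option autoImplicit false

open Set TopologicalSpace

namespace Pool.Agent.Gap

section

variable {Y K : Type} [MetricSpace Y]

theorem floor_fits {x : ℝ} (hx : 0 ≤ x) (t : ℕ) (a b : K) :
    (Cell.e ⌊x * 2 ^ t⌋₊ a b).Fits t x := by
  have h : 0 ≤ x * 2 ^ t := by positivity
  exact ⟨Nat.floor_le h, (Nat.lt_floor_add_one _).le⟩

theorem ceil_fits {x : ℝ} (hx : 0 ≤ x) (t : ℕ) (a b : K) :
    (Cell.e (⌈x * 2 ^ t⌉₊ - 1) a b).Fits t x := by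
  have h : 0 ≤ x * 2 ^ t := by positivity
  have h1 := Nat.ceil_lt_add_one h
  have h2 := Nat.le_ceil (x * 2 ^ t)
  rcases Nat.eq_zero_or_pos ⌈x * 2 ^ t⌉₊ with h0 | h0
  · rw [h0] at h2 ⊢
    refine ⟨by simpa using h, ?_⟩
    push_cast at h2 ⊢
    simp only [zero_add]
    linarith
  · have e : ((⌈x * 2 ^ t⌉₊ - 1 : ℕ) : ℝ) = (⌈x * 2 ^ t⌉₊ : ℝ) - 1 := by
      rw [Nat.cast_sub h0]; simp
    refine ⟨?_, ?_⟩ <;> rw [e] <;> linarith

/-- The hub point over the vertex `k0 / 2 ^ t0`: at the levels `t < t0` it lies in the edge given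
by the labels `L`, at the levels `t ≥ t0` it is the vertex with the label `ξ (t - t0)`. -/
noncomputable def hub (code : K → K → Code Y) (L : ℕ → ℕ → K) (t0 k0 : ℕ) (ξ : ℕ → K) (y : Y) :
    Pt Y K code where
  y := y
  x := (k0 : ℝ) / 2 ^ t0
  cell t := if t < t0 then
      .e ⌊(k0 : ℝ) / 2 ^ t0 * 2 ^ t⌋₊ (L t ⌊(k0 : ℝ) / 2 ^ t0 * 2 ^ t⌋₊)
        (L t (⌊(k0 : ℝ) / 2 ^ t0 * 2 ^ t⌋₊ + 1))
    else .v (2 ^ (t - t0) * k0) (ξ (t - t0))
  fits t := by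
    split_ifs with h
    · exact floor_fits (by positivity) t _ _
    · show (k0 : ℝ) / 2 ^ t0 * 2 ^ t = ((2 ^ (t - t0) * k0 : ℕ) : ℝ)
      push_cast
      rw [pow_sub₀ _ (by norm_num) (not_lt.1 h)]
      field_simp

/-- The point over `lam` all of whose cells are the edges to the right of `lam`. -/
noncomputable def Qr (code : K → K → Code Y) (L : ℕ → ℕ → K) (lam : unitInterval) (y : Y) :
    Pt Y K code where
  y := y
  x := lam
  cell t := .e ⌊(lam : ℝ) * 2 ^ t⌋₊ (L t ⌊(lam : ℝ) * 2 ^ t⌋₊) (L t (⌊(lam : ℝ) * 2 ^ t⌋₊ + 1))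
  fits t := floor_fits lam.2.1 t _ _

/-- The point over `lam` all of whose cells are the edges to the left of `lam`
(the same as `Qr` if `lam = 0`). -/
noncomputable def Ql (code : K → K → Code Y) (L : ℕ → ℕ → K) (lam : unitInterval) (y : Y) :
    Pt Y K code where
  y := y
  x := lam
  cell t := .e (⌈(lam : ℝ) * 2 ^ t⌉₊ - 1) (L t (⌈(lam : ℝ) * 2 ^ t⌉₊ - 1))
    (L t (⌈(lam : ℝ) * 2 ^ t⌉₊ - 1 + 1))
  fits t := ceil_fits lam.2.1 t _ _

end

end Pool.Agent.Gap
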