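import Pool.Agent.Gap.Defs

set_option autoImplicit false

open Set Cardinal

namespace Pool.Agent.Gap

namespace LabBase

/-- A choice of distinct representatives by transfinite recursion. -/
theorem exists_choice {W T : Type} [LinearOrder W] [WellFoundedLT W] (B : W → Set T)
    (h : ∀ w, ∀ f : Iio w → T, ∃ x ∈ B w, x ∉ range f) :
    ∃ F : W → T, (∀ w, F w ∈ B w) ∧ Function.Injective F := by
  classical
  let F : W → T := (wellFounded_lt (α := W)).fix
    (fun w ih => Classical.choose (h w (fun v => ih v.1 v.2)))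
  have hF : ∀ w, F w = Classical.choose (h w (fun v => F v.1)) := fun w =>
    WellFounded.fix_eq _ _ w
  have hF1 : ∀ w, F w ∈ B w := fun w => by
    rw [hF]; exact (Classical.choose_spec (h w (fun v => F v.1))).1
  have hF2 : ∀ v w, v < w → F w ≠ F v := fun v w hvw e => by
    have h1 := (Classical.choose_spec (h w (fun v => F v.1))).2
    rw [← hF w] at h1
    exact h1 ⟨⟨v, hvw⟩, e.symm⟩
  refine ⟨F, hF1, fun v w e => ?_⟩
  rcases lt_trichotomy v w with h1 | h1 | h1
  · exact absurd e.symm (hF2 v w h1)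
  · exact h1
  · exact absurd e (hF2 w v h1)

/-- Sets with at most `#Λ` elements. -/
def Sm (Λ T : Type) (A : Set T) : Prop := #A ≤ #Λ

variable {Λ T : Type}

theorem Sm.mono {A B : Set T} (h : A ⊆ B) (hB : Sm Λ T B) : Sm Λ T A :=
  (mk_le_mk_of_subset h).trans hB

theorem Sm.empty : Sm Λ T ∅ := by
  unfold Sm; rw [mk_eq_zero]; exact zero_le

theorem Sm.iUnion [Infinite Λ] {Θ : Type} (hΘ : #Θ ≤ #Λ) (A : Θ → Set T)
    (h : ∀ θ, Sm Λ T (A θ)) : Sm Λ T (⋃ θ, A θ) := by
  unfold Sm
  refine (mk_iUnion_le A).trans ?_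
  have h1 : ⨆ i, #(A i) ≤ #Λ := ciSup_le' h
  calc #Θ * ⨆ i, #(A i) ≤ #Λ * #Λ := mul_le_mul' hΘ h1
    _ = #Λ := mul_eq_self (aleph0_le_mk Λ)

theorem Sm.nonempty_of_not {A : Set T} (h : ¬ Sm Λ T A) : A.Nonempty := by
  by_contra h1
  rw [not_nonempty_iff_eq_empty] at h1
  rw [h1] at h
  exact h Sm.empty

theorem not_sm_univ : ¬ Sm Λ (Set Λ) univ := by
  unfold Sm
  rw [mk_univ, mk_set]
  exact not_le.2 (cantor _)

/-- The disjoint refinement, in functional form. -/
theorem exists_fun [Infinite Λ] {C : Type} (A : Λ → Set T) (s : Λ → C)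
    (hA : ∀ i, ¬ Sm Λ T (A i)) : ∃ β : T → C, ∀ i, ¬ Sm Λ T {α | α ∈ A i ∧ β α = s i} := by
  classical
  let W : Type := (Order.succ #Λ).ord.ToType
  have hW : #W = Order.succ #Λ := mk_ord_toType _
  have hal : ℵ₀ ≤ Order.succ #Λ := (aleph0_le_mk Λ).trans (Order.le_succ _)
  have hWL : #(W × Λ) = #W := by
    rw [mk_prod, lift_id, lift_id, hW]
    exact mul_eq_left hal (Order.le_succ _) (mk_ne_zero Λ)
  obtain ⟨e⟩ := Cardinal.eq.1 hWL
  obtain ⟨F, hF1, hF2⟩ := exists_choice (fun w : W => A (e.symm w).2) (by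
    intro w f
    by_contra hcon
    push Not at hcon
    refine hA (e.symm w).2 ?_
    have h1 : A (e.symm w).2 ⊆ range f := hcon
    have h2 : #(Iio w) < Order.succ #Λ := by
      have := mk_Iio_lt w (by simp [W])
      rwa [hW] at this
    exact (mk_le_mk_of_subset h1).trans (mk_range_le.trans (Order.lt_succ_iff.1 h2)))
  have hne : Nonempty C := ⟨s (Classical.arbitrary Λ)⟩
  refine ⟨fun α => if h : ∃ w, F w = α then s (e.symm (Classical.choose h)).2
    else Classical.arbitrary C, fun i hi => ?_⟩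
  have h3 : #W ≤ #{α | α ∈ A i ∧ (if h : ∃ w, F w = α then s (e.symm (Classical.choose h)).2
    else Classical.arbitrary C) = s i} := by
    refine mk_le_of_injective (f := fun w => ⟨F (e (w, i)), ?_, ?_⟩) ?_
    · have := hF1 (e (w, i))
      simpa using this
    · have hex : ∃ w', F w' = F (e (w, i)) := ⟨_, rfl⟩
      rw [dif_pos hex]
      have h4 : Classical.choose hex = e (w, i) := hF2 (Classical.choose_spec hex)
      rw [h4, Equiv.symm_apply_apply]
    · intro w w' hww
      have h5 : F (e (w, i)) = F (e (w', i)) := congrArg Subtype.val hww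
      have h6 := e.injective (hF2 h5)
      exact (Prod.mk.inj h6).1
  have h7 : Order.succ #Λ ≤ #Λ := by
    rw [← hW]; exact h3.trans hi
  exact not_lt.2 h7 (Order.lt_succ _)

end LabBase

open LabBase

/-- Existence of labels with codes. -/
theorem exists_lab (Θ C : Type) [Nonempty C] : Nonempty (Lab Θ C) := by
  classical
  let Λ : Type := Θ ⊕ ℕ
  have hinf : Infinite Λ := inferInstanceAs (Infinite (Θ ⊕ ℕ))
  have hΘ : #Θ ≤ #Λ := mk_le_of_injective (f := (Sum.inl : Θ → Θ ⊕ ℕ)) Sum.inl_injective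
  have hprod : #(Θ × Λ) ≤ #Λ := by
    rw [mk_prod, lift_id, lift_id]
    calc #Θ * #Λ ≤ #Λ * #Λ := mul_le_mul' hΘ le_rfl
      _ = #Λ := mul_eq_self (aleph0_le_mk Λ)
  let T : Type := Set Λ
  let Bad : Set T → C → Set (T → C) := fun A s => {β | Sm Λ T {α | α ∈ A ∧ β α = s}}
  let SmR : Set (T → C) → Prop := fun S => ∃ (A : Λ → Set T) (s : Λ → C),
    (∀ i, ¬ Sm Λ T (A i)) ∧ S ⊆ ⋃ i, Bad (A i) (s i)
  have SmR_empty : SmR ∅ := ⟨fun _ => univ, fun _ => Classical.arbitrary C,
    fun _ => not_sm_univ, empty_subset _⟩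
  have SmR_univ : ¬ SmR univ := by
    rintro ⟨A, s, hA, hs⟩
    obtain ⟨β, hβ⟩ := exists_fun A s hA
    have h1 := hs (mem_univ β)
    rw [mem_iUnion] at h1
    obtain ⟨i, hi⟩ := h1
    exact hβ i hi
  have SmR_iUnion : ∀ A : Θ → Set (T → C), (∀ θ, SmR (A θ)) → SmR (⋃ θ, A θ) := by
    intro S hS
    choose A s hA hs using hS
    by_cases hem : IsEmpty Θ
    · have : ⋃ θ, S θ = ∅ := iUnion_of_empty S
      rw [this]; exact SmR_empty
    · rw [not_isEmpty_iff] at hem
      obtain ⟨emb⟩ := Cardinal.le_def _ _ |>.1 hprod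
      have hsurj : Function.Surjective (Function.invFun emb) :=
        Function.invFun_surjective emb.injective
      refine ⟨fun i => A (Function.invFun emb i).1 (Function.invFun emb i).2,
        fun i => s (Function.invFun emb i).1 (Function.invFun emb i).2,
        fun i => hA _ _, ?_⟩
      intro β hβ
      rw [mem_iUnion] at hβ
      obtain ⟨θ, hθ⟩ := hβ
      have h1 := hs θ hθ
      rw [mem_iUnion] at h1
      obtain ⟨j, hj⟩ := h1
      obtain ⟨i, hi⟩ := hsurj (θ, j)
      rw [mem_iUnion]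
      refine ⟨i, ?_⟩
      simp only [hi]
      exact hj
  -- two conditions at once
  have two : ∀ (S : Set (T → C)), ¬ SmR S → ∀ (A₁ A₂ : Set T) (s₁ s₂ : C),
      ¬ Sm Λ T A₁ → ¬ Sm Λ T A₂ → ∃ β ∈ S, ¬ Sm Λ T {α | α ∈ A₁ ∧ β α = s₁} ∧
        ¬ Sm Λ T {α | α ∈ A₂ ∧ β α = s₂} := by
    intro S hS A₁ A₂ s₁ s₂ h₁ h₂
    by_contra hcon
    push Not at hcon
    refine hS ⟨fun i => if i = Sum.inr 0 then A₁ else A₂, fun i => if i = Sum.inr 0 then s₁ else s₂,
      fun i => ?_, fun β hβ => ?_⟩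
    · by_cases h : i = Sum.inr 0
      · simp only [if_pos h]; exact h₁
      · simp only [if_neg h]; exact h₂
    · rw [mem_iUnion]
      by_cases h : Sm Λ T {α | α ∈ A₁ ∧ β α = s₁}
      · refine ⟨Sum.inr 0, ?_⟩
        simp only [if_true]
        exact h
      · refine ⟨Sum.inr 1, ?_⟩
        have hne : (Sum.inr 1 : Θ ⊕ ℕ) ≠ Sum.inr 0 := by simp
        simp only [if_neg hne]
        exact hcon β hβ h
  let code : T ⊕ (T → C) → T ⊕ (T → C) → C := fun p q =>
    match p, q with
    | Sum.inl α, Sum.inr β => β α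
    | Sum.inr β, Sum.inl α => β α
    | _, _ => Classical.arbitrary C
  let small : Bool → Set (T ⊕ (T → C)) → Prop := fun b S =>
    if b then SmR (Sum.inr ⁻¹' S) else Sm Λ T (Sum.inl ⁻¹' S)
  refine ⟨⟨T ⊕ (T → C), code, small, ?_, ?_, ?_, ?_, ?_⟩⟩
  · rintro (_ | _)
    · simp only [small, preimage_empty, Bool.false_eq_true, if_false]; exact Sm.empty
    · simp only [small, preimage_empty, if_true]; exact SmR_empty
  · rintro (_ | _) A B hAB
    · simp only [small, Bool.false_eq_true, if_false]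
      exact Sm.mono (preimage_mono hAB)
    · simp only [small, if_true]
      rintro ⟨D, s, h1, h2⟩
      exact ⟨D, s, h1, (preimage_mono hAB).trans h2⟩
  · rintro (_ | _) A hA
    · simp only [small, Bool.false_eq_true, if_false, preimage_iUnion] at hA ⊢
      exact Sm.iUnion hΘ _ hA
    · simp only [small, if_true, preimage_iUnion] at hA ⊢
      exact SmR_iUnion _ hA
  · rintro (_ | _)
    · simp only [small, preimage_univ, Bool.false_eq_true, if_false]; exact not_sm_univ
    · simp only [small, preimage_univ, if_true]; exact SmR_univ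
  · intro A s hA
    have hL : ∀ j, ¬ Sm Λ T (Sum.inl ⁻¹' (A (2 * j))) := by
      intro j
      have h1 := hA (2 * j)
      have h2 : Nat.bodd (2 * j) = false := by simp [Nat.bodd_mul]
      simpa only [small, h2, Bool.false_eq_true, if_false] using h1
    have hR : ∀ j, ¬ SmR (Sum.inr ⁻¹' (A (2 * j + 1))) := by
      intro j
      have h1 := hA (2 * j + 1)
      have h2 : Nat.bodd (2 * j + 1) = true := by simp [Nat.bodd_mul]
      simpa only [small, h2, if_true] using h1
    have step : ∀ (j : ℕ) (D : {D : Set T // ¬ Sm Λ T D}), ∃ β : T → C,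
        Sum.inr β ∈ A (2 * j + 1) ∧ ¬ Sm Λ T {α | α ∈ D.1 ∧ β α = s (2 * j)} ∧
          ¬ Sm Λ T {α | α ∈ Sum.inl ⁻¹' (A (2 * (j + 1))) ∧ β α = s (2 * j + 1)} := by
      intro j D
      obtain ⟨β, h1, h2, h3⟩ := two _ (hR j) D.1 (Sum.inl ⁻¹' (A (2 * (j + 1)))) (s (2 * j))
        (s (2 * j + 1)) D.2 (hL (j + 1))
      exact ⟨β, h1, h2, h3⟩
    choose β hβ1 hβ2 hβ3 using step
    let D : ℕ → {D : Set T // ¬ Sm Λ T D} := fun j => Nat.rec ⟨_, hL 0⟩
      (fun j D => ⟨_, hβ3 j D⟩) j
    have hD0 : (D 0).1 = Sum.inl ⁻¹' (A (2 * 0)) := rfl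
    have hDs : ∀ j, (D (j + 1)).1 =
      {α | α ∈ Sum.inl ⁻¹' (A (2 * (j + 1))) ∧ β j (D j) α = s (2 * j + 1)} := fun j => rfl
    have hDA : ∀ j, (D j).1 ⊆ Sum.inl ⁻¹' (A (2 * j)) := by
      intro j
      rcases j with _ | j
      · exact hD0.le
      · rw [hDs]; exact fun α h => h.1
    have hα : ∀ j, ∃ α, α ∈ (D j).1 ∧ β j (D j) α = s (2 * j) := fun j =>
      Sm.nonempty_of_not (hβ2 j (D j))
    choose α hα1 hα2 using hα
    refine ⟨fun k => if k % 2 = 0 then Sum.inl (α (k / 2)) else Sum.inr (β (k / 2) (D (k / 2))),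
      fun k => ?_, fun k => ?_⟩
    · rcases Nat.even_or_odd' k with ⟨j, rfl | rfl⟩
      · have h1 : 2 * j % 2 = 0 := by omega
        have h2 : 2 * j / 2 = j := by omega
        simp only [h1, h2, if_true]
        exact hDA j (hα1 j)
      · have h1 : ¬ (2 * j + 1) % 2 = 0 := by omega
        have h2 : (2 * j + 1) / 2 = j := by omega
        simp only [h1, h2, if_false]
        exact hβ1 j (D j)
    · rcases Nat.even_or_odd' k with ⟨j, rfl | rfl⟩
      · have h1 : 2 * j % 2 = 0 := by omega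
        have h2 : 2 * j / 2 = j := by omega
        have h3 : ¬ (2 * j + 1) % 2 = 0 := by omega
        have h4 : (2 * j + 1) / 2 = j := by omega
        simp only [h1, h2, h3, h4, if_true, if_false, code]
        exact hα2 j
      · have h1 : ¬ (2 * j + 1) % 2 = 0 := by omega
        have h2 : (2 * j + 1) / 2 = j := by omega
        have h3 : (2 * j + 1 + 1) % 2 = 0 := by omega
        have h4 : (2 * j + 1 + 1) / 2 = j + 1 := by omega
        simp only [h1, h2, h3, h4, if_true, if_false, code]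
        have h5 := hα1 (j + 1)
        rw [hDs] at h5
        exact h5.2

end Pool.Agent.Gap
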