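import Pool.Agent.Gap.IndBasic

set_option autoImplicit false

open Set TopologicalSpace Topology

namespace Pool.Agent.Gap

theorem SZ.of_isClosedEmbedding {X X' : Type} [TopologicalSpace X] [TopologicalSpace X']
    {f : X → X'} (hf : IsClosedEmbedding f) (h : SZ X') : SZ X := by
  intro A B hA hB hd
  obtain ⟨C, hC, h1, h2⟩ := h (f '' A) (f '' B) (hf.isClosedMap A hA) (hf.isClosedMap B hB)
    ((disjoint_image_iff hf.injective).2 hd)
  refine ⟨f ⁻¹' C, hC.preimage hf.continuous, fun a ha => h1 ⟨a, ha, rfl⟩, ?_⟩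
  exact Set.disjoint_left.2 fun x hx hx' => Set.disjoint_left.1 h2 hx ⟨x, hx', rfl⟩

/-- The trace of a set on a closed subspace is closed embedded in the set. -/
theorem IndUpper_trace {X : Type} [TopologicalSpace X] {F : Set X} (hF : IsClosed F) (S : Set X) :
    ∃ g : (Subtype.val ⁻¹' S : Set F) → S, IsClosedEmbedding g := by
  have hcont : Continuous (fun x : (Subtype.val ⁻¹' S : Set F) => (⟨x.1.1, x.2⟩ : S)) :=
    (continuous_subtype_val.comp continuous_subtype_val).subtype_mk _
  have hemb0 : IsEmbedding ((Subtype.val : F → X) ∘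
      (Subtype.val : (Subtype.val ⁻¹' S : Set F) → F)) :=
    IsEmbedding.subtypeVal.comp IsEmbedding.subtypeVal
  have hemb : IsEmbedding (Subtype.val ∘
      (fun x : (Subtype.val ⁻¹' S : Set F) => (⟨x.1.1, x.2⟩ : S))) := hemb0
  refine ⟨_, IsEmbedding.of_comp hcont continuous_subtype_val hemb, ?_⟩
  have : range (fun x : (Subtype.val ⁻¹' S : Set F) => (⟨x.1.1, x.2⟩ : S)) =
      Subtype.val ⁻¹' F := by
    ext y
    constructor
    · rintro ⟨x, rfl⟩
      exact x.1.2
    · intro hy
      exact ⟨⟨⟨y.1, hy⟩, y.2⟩, rfl⟩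
  rw [this]
  exact hF.preimage continuous_subtype_val

/-- An open set between `A` and `V` whose frontier misses a given strongly zero-dimensional set. -/
theorem IndUpper_step {X : Type} [MetricSpace X] {S : Set X} (hS : SZ S) {A V : Set X}
    (hA : IsClosed A) (hV : IsOpen V) (hAV : A ⊆ V) :
    ∃ U : Set X, IsOpen U ∧ A ⊆ U ∧ U ⊆ V ∧ Disjoint (frontier U) S := by
  obtain ⟨U1, hU1, hAU1, hU1V⟩ := normal_exists_closure_subset hA hV hAV
  obtain ⟨W, hW, hUW, hWV⟩ := normal_exists_closure_subset isClosed_closure hV hU1V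
  obtain ⟨C, hC, hC1, hC2⟩ := hS (Subtype.val ⁻¹' closure U1) (Subtype.val ⁻¹' Wᶜ)
    (isClosed_closure.preimage continuous_subtype_val)
    (hW.isClosed_compl.preimage continuous_subtype_val)
    (Set.disjoint_left.2 fun x hx hx' => hx' (hUW hx))
  have hCW : Subtype.val '' C ⊆ W := by
    rintro _ ⟨x, hx, rfl⟩
    by_contra hxW
    exact Set.disjoint_left.1 hC2 hx hxW
  have hDU : Disjoint (Subtype.val '' Cᶜ) U1 := by
    rw [Set.disjoint_left]
    rintro _ ⟨x, hx, rfl⟩ hxU
    exact hx (hC1 (subset_closure hxU))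
  have hclC : ∀ x : S, (x : X) ∈ closure (Subtype.val '' C) → x ∈ C := fun x hx => by
    have := closure_subtype.2 hx
    rwa [hC.isClosed.closure_eq] at this
  have hclD : ∀ x : S, (x : X) ∈ closure (Subtype.val '' Cᶜ) → x ∉ C := fun x hx => by
    have := closure_subtype.2 hx
    rwa [hC.isOpen.isClosed_compl.closure_eq] at this
  have h1 : Disjoint (closure (A ∪ Subtype.val '' C)) (Vᶜ ∪ Subtype.val '' Cᶜ) := by
    rw [closure_union, hA.closure_eq, Set.disjoint_left]
    rintro x (hx | hx) (hy | hy)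
    · exact hy (hAV hx)
    · obtain ⟨y, hy, rfl⟩ := hy
      exact hy (hC1 (subset_closure (hAU1 hx)))
    · exact hy (hWV (closure_mono hCW hx))
    · obtain ⟨y, hy, rfl⟩ := hy
      exact hy (hclC y hx)
  have h2 : Disjoint (A ∪ Subtype.val '' C) (closure (Vᶜ ∪ Subtype.val '' Cᶜ)) := by
    rw [closure_union, hV.isClosed_compl.closure_eq, Set.disjoint_left]
    rintro x (hx | hx) (hy | hy)
    · exact hy (hAV hx)
    · exact Set.disjoint_left.1 (hDU.closure_left hU1) hy (hAU1 hx)
    · exact hy (hWV (subset_closure (hCW hx)))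
    · obtain ⟨y, hx, rfl⟩ := hx
      exact hclD y hy hx
  obtain ⟨U, V1, hU, hV1, hAU, hBV, hUV⟩ := separatedNhds_iff_disjoint.2 (completely_normal h1 h2)
  refine ⟨U, hU, subset_union_left.trans hAU, ?_, ?_⟩
  · intro x hx
    by_contra hxV
    exact Set.disjoint_left.1 hUV hx (hBV (Or.inl hxV))
  · rw [Set.disjoint_left]
    intro x hx hxS
    by_cases hxC : (⟨x, hxS⟩ : S) ∈ C
    · have h3 : x ∈ U := hAU (Or.inr ⟨_, hxC, rfl⟩)
      rw [frontier, hU.interior_eq] at hx
      exact hx.2 h3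
    · have h3 : x ∈ V1 := hBV (Or.inr ⟨_, hxC, rfl⟩)
      exact Set.disjoint_left.1 (hUV.closure_left hV1) (frontier_subset_closure hx) h3

theorem IndLT_of_cover {X : Type} [MetricSpace X] (n : ℕ) (S : Fin n → Set X)
    (hS : ∀ j, SZ (S j)) (hc : ⋃ j, S j = univ) : IndLT n X := by
  induction n generalizing X with
  | zero =>
    refine (⟨fun x => ?_⟩ : IsEmpty X)
    have hx : x ∈ ⋃ j, S j := by rw [hc]; trivial
    obtain ⟨j, _⟩ := mem_iUnion.1 hx
    exact j.elim0
  | succ n ih =>
    intro A V hA hV hAV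
    obtain ⟨U, hU, h1, h2, h3⟩ := IndUpper_step (hS 0) hA hV hAV
    refine ⟨U, hU, h1, h2, ih (fun j => Subtype.val ⁻¹' S j.succ) (fun j => ?_) ?_⟩
    · obtain ⟨g, hg⟩ := IndUpper_trace (isClosed_frontier (s := U)) (S j.succ)
      exact (hS j.succ).of_isClosedEmbedding hg
    · refine eq_univ_of_forall fun x => ?_
      have hx : (x : X) ∈ ⋃ j, S j := by rw [hc]; trivial
      obtain ⟨j, hj⟩ := mem_iUnion.1 hx
      revert hj
      refine Fin.cases (fun hj => ?_) (fun i hj => ?_) j
      · exact (Set.disjoint_left.1 h3 x.2 hj).elim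
      · exact mem_iUnion.2 ⟨i, hj⟩

theorem exists_exact {X : Type} [MetricSpace X] (m n : ℕ) (hm : IndLT m X) (hn : ¬ IndLT n X) :
    ∃ F : Set X, IsClosed F ∧ IndLT (n + 1) F ∧ ¬ IndLT n F := by
  induction m generalizing X with
  | zero => exact (hn (IndLT.mono (Nat.zero_le n) hm)).elim
  | succ m ih =>
    by_cases h : IndLT (n + 1) X
    · refine ⟨univ, isClosed_univ,
        h.of_isClosedEmbedding isClosed_univ.isClosedEmbedding_subtypeVal, fun h' => hn ?_⟩
      exact h'.of_isClosedEmbedding (Homeomorph.Set.univ X).symm.isClosedEmbedding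
    · have h' : ∃ A V : Set X, IsClosed A ∧ IsOpen V ∧ A ⊆ V ∧
          ∀ U : Set X, IsOpen U → A ⊆ U → U ⊆ V → ¬ IndLT n (frontier U) := by
        by_contra hcon
        push Not at hcon
        exact h fun A V hA hV hAV => hcon A V hA hV hAV
      obtain ⟨A, V, hA, hV, hAV, hno⟩ := h'
      obtain ⟨U, hU, h1, h2, h3⟩ := hm A V hA hV hAV
      obtain ⟨F, hF, h4, h5⟩ := ih h3 (hno U hU h1 h2)
      let e := (IsEmbedding.subtypeVal (p := (· ∈ frontier U))).homeomorphImage F
      refine ⟨Subtype.val '' F,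
        isClosed_frontier.isClosedEmbedding_subtypeVal.isClosedMap F hF,
        h4.of_isClosedEmbedding e.symm.isClosedEmbedding, fun h6 => h5 ?_⟩
      exact h6.of_isClosedEmbedding e.isClosedEmbedding

end Pool.Agent.Gap
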