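import Pool.Agent.Gap.Defs

set_option autoImplicit false

open Set TopologicalSpace Topology

namespace Pool.Agent.Gap

/-- Arbitrarily small partitions into open sets. -/
def PZ (X : Type) [MetricSpace X] : Prop :=
  ∀ ε > 0, ∃ (T : Type) (f : X → T), (∀ t, IsOpen (f ⁻¹' {t})) ∧
    ∀ x x', f x = f x' → dist x x' ≤ ε

theorem PZ.sz {X : Type} [MetricSpace X] (h : PZ X) : SZ X := by
  classical
  intro A B hA hB hAB
  choose T f hf1 hf2 using fun n : ℕ => h (1 / ((n : ℝ) + 1)) (by positivity)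
  let D : ℕ → X → Set X := fun n x => {x' | ∀ i ≤ n, f i x' = f i x}
  have hDopen : ∀ n x, IsOpen (D n x) := by
    intro n x
    have : D n x = ⋂ i ∈ Set.Iic n, f i ⁻¹' {f i x} := by
      ext x'; simp [D]
    rw [this]
    exact (Set.finite_Iic n).isOpen_biInter fun i _ => hf1 i _
  have hDself : ∀ n x, x ∈ D n x := fun n x i _ => rfl
  have hDeq : ∀ n x x', x' ∈ D n x → ∀ k ≤ n, D k x' = D k x := by
    intro n x x' hx' k hk
    ext z
    constructor
    · intro hz i hi
      exact (hz i hi).trans (hx' i (hi.trans hk))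
    · intro hz i hi
      exact (hz i hi).trans (hx' i (hi.trans hk)).symm
  have hgood : ∀ x, ∃ n, ¬ ((D n x ∩ A).Nonempty ∧ (D n x ∩ B).Nonempty) := by
    intro x
    have key : ∀ (E : Set X), IsClosed E → x ∉ E → ∃ n, ¬ (D n x ∩ E).Nonempty := by
      intro E hE hx
      have h1 : Eᶜ ∈ 𝓝 x := hE.isOpen_compl.mem_nhds hx
      obtain ⟨δ, hδ, h2⟩ := Metric.mem_nhds_iff.1 h1
      obtain ⟨n, hn⟩ := exists_nat_one_div_lt hδ
      refine ⟨n, ?_⟩
      rintro ⟨z, hz1, hz2⟩
      have h3 : dist z x ≤ 1 / ((n : ℝ) + 1) := hf2 n z x (hz1 n le_rfl)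
      exact h2 (Metric.mem_ball.2 (lt_of_le_of_lt h3 hn)) hz2
    by_cases hx : x ∈ A
    · have hxB : x ∉ B := fun hb => (Set.disjoint_left.1 hAB) hx hb
      obtain ⟨n, hn⟩ := key B hB hxB
      exact ⟨n, fun h => hn h.2⟩
    · obtain ⟨n, hn⟩ := key A hA hx
      exact ⟨n, fun h => hn h.1⟩
  let N : X → ℕ := fun x => Nat.find (hgood x)
  have hN : ∀ x, ¬ ((D (N x) x ∩ A).Nonempty ∧ (D (N x) x ∩ B).Nonempty) := fun x =>
    Nat.find_spec (hgood x)
  have hNmin : ∀ x m, m < N x → ((D m x ∩ A).Nonempty ∧ (D m x ∩ B).Nonempty) := fun x m hm => by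
    have := Nat.find_min (hgood x) hm
    rwa [not_not] at this
  have hNeq : ∀ x x', x' ∈ D (N x) x → N x' = N x := by
    intro x x' hx'
    have hE := hDeq _ _ _ hx'
    refine le_antisymm ?_ ?_
    · by_contra hlt
      push Not at hlt
      have h1 := hNmin x' (N x) hlt
      rw [hE _ le_rfl] at h1
      exact hN x h1
    · by_contra hlt
      push Not at hlt
      have h1 := hNmin x (N x') hlt
      rw [← hE _ hlt.le] at h1
      exact hN x' h1
  let C : Set X := {x | (D (N x) x ∩ A).Nonempty}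
  have hC : ∀ x x', x' ∈ D (N x) x → (x' ∈ C ↔ x ∈ C) := by
    intro x x' hx'
    show (D (N x') x' ∩ A).Nonempty ↔ (D (N x) x ∩ A).Nonempty
    rw [hNeq x x' hx', hDeq _ _ _ hx' _ le_rfl]
  refine ⟨C, ⟨?_, ?_⟩, ?_, ?_⟩
  · rw [← isOpen_compl_iff, isOpen_iff_forall_mem_open]
    intro x hx
    exact ⟨D (N x) x, fun x' hx' h' => hx ((hC x x' hx').1 h'), hDopen _ _, hDself _ _⟩
  · rw [isOpen_iff_forall_mem_open]
    intro x hx
    exact ⟨D (N x) x, fun x' hx' => (hC x x' hx').2 hx, hDopen _ _, hDself _ _⟩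
  · intro x hx
    exact ⟨x, hDself _ _, hx⟩
  · rw [Set.disjoint_left]
    intro x hx hxB
    exact hN x ⟨hx, ⟨x, hDself _ _, hxB⟩⟩

theorem SZ.pz {X : Type} [MetricSpace X] (h : SZ X) : PZ X := by
  classical
  intro ε hε
  obtain ⟨v, hvo, hvc, hvf, hvu⟩ := precise_refinement (fun x : X => Metric.ball x (ε / 2))
    (fun x => Metric.isOpen_ball) (by
      rw [iUnion_eq_univ_iff]
      exact fun x => ⟨x, Metric.mem_ball_self (by linarith)⟩)
  obtain ⟨w, hwc, hwcl, hwv⟩ := exists_iUnion_eq_closed_subset hvo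
    (fun x => hvf.point_finite x) hvc
  have hC : ∀ i, ∃ C : Set X, IsClopen C ∧ w i ⊆ C ∧ C ⊆ v i := by
    intro i
    obtain ⟨C, hC1, hC2, hC3⟩ := h (w i) (v i)ᶜ (hwcl i) (hvo i).isClosed_compl
      (Set.disjoint_left.2 fun x hx hx' => hx' (hwv i hx))
    refine ⟨C, hC1, hC2, fun x hx => ?_⟩
    by_contra hx'
    exact Set.disjoint_left.1 hC3 hx hx'
  choose C hC1 hC2 hC3 using hC
  have hCf : LocallyFinite C := hvf.subset hC3
  obtain ⟨ord, hwf⟩ := exists_wellFoundedLT X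
  have hex : ∀ z : X, {i | z ∈ C i}.Nonempty := by
    intro z
    have : z ∈ ⋃ i, w i := by rw [hwc]; exact mem_univ z
    rw [mem_iUnion] at this
    obtain ⟨i, hi⟩ := this
    exact ⟨i, hC2 i hi⟩
  let f : X → X := fun z => hwf.wf.min {i | z ∈ C i} (hex z)
  have hf1 : ∀ z, z ∈ C (f z) := fun z => hwf.wf.min_mem {i | z ∈ C i} (hex z)
  have hf2 : ∀ z i, z ∈ C i → f z ≤ i := fun z i hi => by
    by_contra hlt
    exact hwf.wf.not_lt_min {i | z ∈ C i} hi (not_le.1 hlt)
  refine ⟨X, f, fun t => ?_, fun x x' hx => ?_⟩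
  · have heq : f ⁻¹' {t} = C t ∩ (⋃ j : {j : X // j < t}, C j.1)ᶜ := by
      ext z
      simp only [mem_preimage, mem_singleton_iff, mem_inter_iff, mem_compl_iff, mem_iUnion,
        not_exists]
      constructor
      · intro hz
        refine ⟨hz ▸ hf1 z, fun j hj => ?_⟩
        have := hf2 z _ hj
        rw [hz] at this
        exact absurd j.2 (not_lt.2 this)
      · rintro ⟨h1, h2⟩
        refine le_antisymm (hf2 z t h1) ?_
        by_contra hlt
        exact h2 ⟨f z, not_le.1 hlt⟩ (hf1 z)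
    rw [heq]
    refine (hC1 t).isOpen.inter ?_
    rw [isOpen_compl_iff]
    exact (hCf.comp_injective Subtype.val_injective).isClosed_iUnion fun j => (hC1 j.1).isClosed
  · have h1 := Metric.mem_ball.1 (hvu _ (hC3 _ (hf1 x)))
    have h2 := Metric.mem_ball.1 (hvu _ (hC3 _ (hf1 x')))
    rw [← hx] at h2
    have := dist_triangle_right x x' (f x)
    linarith

theorem SZ.of_countable_closed {X : Type} [MetricSpace X] (S : ℕ → Set X)
    (hS : ∀ n, IsClosed (S n)) (h : ∀ n, SZ (S n)) (hc : ⋃ n, S n = univ) : SZ X := by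
  classical
  intro A B hA hB hAB
  let P : Type := {p : Set X × Set X // IsClosed p.1 ∧ IsClosed p.2 ∧ Disjoint p.1 p.2}
  have step : ∀ (n : ℕ) (p : P), ∃ q : P, p.1.1 ⊆ interior q.1.1 ∧ p.1.2 ⊆ interior q.1.2 ∧
      S n ⊆ interior q.1.1 ∪ interior q.1.2 := by
    rintro n ⟨⟨U, V⟩, hU, hV, hUV⟩
    simp only at hU hV hUV
    obtain ⟨C, hC1, hC2, hC3⟩ := h n (Subtype.val ⁻¹' U) (Subtype.val ⁻¹' V)
      (hU.preimage continuous_subtype_val) (hV.preimage continuous_subtype_val)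
      (hUV.preimage _)
    have hemb : IsClosedEmbedding (Subtype.val : S n → X) := (hS n).isClosedEmbedding_subtypeVal
    have c1 : IsClosed (U ∪ Subtype.val '' C) := hU.union (hemb.isClosedMap _ hC1.isClosed)
    have c2 : IsClosed (V ∪ Subtype.val '' Cᶜ) :=
      hV.union (hemb.isClosedMap _ hC1.isOpen.isClosed_compl)
    have hdis : Disjoint (U ∪ Subtype.val '' C) (V ∪ Subtype.val '' Cᶜ) := by
      rw [Set.disjoint_left]
      rintro x (hx | ⟨c, hc, rfl⟩) (hx' | ⟨c', hc', hcc⟩)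
      · exact Set.disjoint_left.1 hUV hx hx'
      · subst hcc
        exact hc' (hC2 hx)
      · exact Set.disjoint_left.1 hC3 hc hx'
      · have := Subtype.val_injective hcc
        subst this
        exact hc' hc
    obtain ⟨O1, O2, ho1, ho2, hs1, hs2, ho12⟩ := normal_separation c1 c2 hdis
    obtain ⟨u1, hu1, hsu1, hcu1⟩ := normal_exists_closure_subset c1 ho1 hs1
    obtain ⟨u2, hu2, hsu2, hcu2⟩ := normal_exists_closure_subset c2 ho2 hs2
    have i1 : U ∪ Subtype.val '' C ⊆ interior (closure u1) :=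
      hsu1.trans (interior_maximal subset_closure hu1)
    have i2 : V ∪ Subtype.val '' Cᶜ ⊆ interior (closure u2) :=
      hsu2.trans (interior_maximal subset_closure hu2)
    refine ⟨⟨(closure u1, closure u2), isClosed_closure, isClosed_closure,
      ho12.mono hcu1 hcu2⟩, ?_, ?_, ?_⟩
    · exact subset_union_left.trans i1
    · exact subset_union_left.trans i2
    · intro x hx
      by_cases hxC : (⟨x, hx⟩ : S n) ∈ C
      · exact Or.inl (i1 (Or.inr ⟨_, hxC, rfl⟩))
      · exact Or.inr (i2 (Or.inr ⟨_, hxC, rfl⟩))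
  choose nxt hn1 hn2 hn3 using step
  let Q : ℕ → P := fun n => Nat.rec ⟨(A, B), hA, hB, hAB⟩ (fun n p => nxt n p) n
  have hQ : ∀ n, Q (n + 1) = nxt n (Q n) := fun n => rfl
  have m1 : ∀ n, (Q n).1.1 ⊆ interior (Q (n + 1)).1.1 := fun n => by rw [hQ]; exact hn1 _ _
  have m2 : ∀ n, (Q n).1.2 ⊆ interior (Q (n + 1)).1.2 := fun n => by rw [hQ]; exact hn2 _ _
  have m3 : ∀ n, S n ⊆ interior (Q (n + 1)).1.1 ∪ interior (Q (n + 1)).1.2 := fun n => by
    rw [hQ]; exact hn3 _ _
  have mono1 : Monotone fun n => (Q n).1.1 :=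
    monotone_nat_of_le_succ fun n => (m1 n).trans interior_subset
  have mono2 : Monotone fun n => (Q n).1.2 :=
    monotone_nat_of_le_succ fun n => (m2 n).trans interior_subset
  have hdis : Disjoint (⋃ n, (Q n).1.1) (⋃ n, (Q n).1.2) := by
    rw [Set.disjoint_left]
    intro x hx hx'
    rw [mem_iUnion] at hx hx'
    obtain ⟨i, hi⟩ := hx
    obtain ⟨j, hj⟩ := hx'
    exact Set.disjoint_left.1 (Q (max i j)).2.2.2 (mono1 (le_max_left i j) hi)
      (mono2 (le_max_right i j) hj)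
  have open1 : IsOpen (⋃ n, (Q n).1.1) := by
    have : ⋃ n, (Q n).1.1 = ⋃ n, interior (Q (n + 1)).1.1 := by
      refine subset_antisymm (iUnion_mono fun n => m1 n) ?_
      exact iUnion_subset fun n => interior_subset.trans (subset_iUnion (fun n => (Q n).1.1) (n + 1))
    rw [this]
    exact isOpen_iUnion fun n => isOpen_interior
  have open2 : IsOpen (⋃ n, (Q n).1.2) := by
    have : ⋃ n, (Q n).1.2 = ⋃ n, interior (Q (n + 1)).1.2 := by
      refine subset_antisymm (iUnion_mono fun n => m2 n) ?_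
      exact iUnion_subset fun n => interior_subset.trans (subset_iUnion (fun n => (Q n).1.2) (n + 1))
    rw [this]
    exact isOpen_iUnion fun n => isOpen_interior
  have hcov : (⋃ n, (Q n).1.1) ∪ (⋃ n, (Q n).1.2) = univ := by
    rw [eq_univ_iff_forall]
    intro x
    have hx : x ∈ ⋃ n, S n := by rw [hc]; exact mem_univ x
    rw [mem_iUnion] at hx
    obtain ⟨n, hn⟩ := hx
    rcases m3 n hn with h1 | h1
    · exact Or.inl (mem_iUnion.2 ⟨n + 1, interior_subset h1⟩)
    · exact Or.inr (mem_iUnion.2 ⟨n + 1, interior_subset h1⟩)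
  have hcompl : (⋃ n, (Q n).1.1)ᶜ = ⋃ n, (Q n).1.2 := by
    ext x
    constructor
    · intro hx
      have : x ∈ (⋃ n, (Q n).1.1) ∪ (⋃ n, (Q n).1.2) := by rw [hcov]; exact mem_univ x
      exact this.resolve_left hx
    · intro hx hx'
      exact Set.disjoint_left.1 hdis hx' hx
  refine ⟨⋃ n, (Q n).1.1, ⟨?_, open1⟩, ?_, ?_⟩
  · rw [← isOpen_compl_iff, hcompl]; exact open2
  · exact subset_iUnion (fun n => (Q n).1.1) 0
  · exact hdis.mono_right (subset_iUnion (fun n => (Q n).1.2) 0)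

end Pool.Agent.Gap
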