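import Pool.Agent.Gap.Basic
import Pool.Agent.Gap.ZeroDim

set_option autoImplicit false

open Set TopologicalSpace Topology

namespace Pool.Agent.Gap

variable {Y K : Type} [MetricSpace Y] (code : K → K → Code Y)

open Classical in
/-- The class of a cell: short edge ends over `x0` are replaced by the vertex. -/
noncomputable def UpperB_cls (x0 η : ℝ) (t : ℕ) (y : Y) : Cell K → Cell K
  | .v k a => .v k a
  | .e k a b =>
      if x0 * 2 ^ t = k ∧ (code a b).1.1 y < 2 * η then .v k a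
      else if x0 * 2 ^ t = k + 1 ∧ (code a b).2.1 y < 2 * η then .v (k + 1) b
      else .e k a b

/-- If the class is a vertex, the weights are close to those of the vertex. -/
theorem UpperB_wt_of_v {x0 η : ℝ} (hη : 0 < η) {t : ℕ} {y : Y} {p : Pt Y K code} {k : ℕ} {a : K}
    (hx : p.x = x0) (hy : dist p.y y ≤ η)
    (hc : UpperB_cls code x0 η t y (p.cell t) = .v k a) (k' : ℕ) (a' : K) :
    (k' = k ∧ a' = a → 1 - 3 * η ≤ p.wt t k' a') ∧
      (¬ (k' = k ∧ a' = a) → p.wt t k' a' ≤ 3 * η) := by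
  rcases hp : p.cell t with ⟨l, c⟩ | ⟨l, c, d⟩
  · rw [hp] at hc
    simp only [UpperB_cls, Cell.v.injEq] at hc
    obtain ⟨rfl, rfl⟩ := hc
    constructor
    · rintro ⟨rfl, rfl⟩
      rw [Pt.wt_of_v hp]; linarith
    · intro hne
      rw [Pt.wt_of_v_ne hp hne]; linarith
  · rw [hp] at hc
    simp only [UpperB_cls] at hc
    split_ifs at hc with h1 h2
    · simp only [Cell.v.injEq] at hc
      obtain ⟨rfl, rfl⟩ := hc
      obtain ⟨h3, h4⟩ := h1
      have hu : p.x * 2 ^ t - l = 0 := by rw [hx, h3]; ring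
      have hl := (code c d).1.lip p.y y
      constructor
      · rintro ⟨rfl, rfl⟩
        rw [Pt.wt_of_e_left hp, hu, sval_zero]
        linarith
      · intro hne
        by_cases h5 : k' = l + 1 ∧ a' = d
        · obtain ⟨rfl, rfl⟩ := h5
          rw [Pt.wt_of_e_right hp, hu, sval_zero]
          linarith
        · rw [Pt.wt_of_e_ne hp hne h5]; linarith
    · simp only [Cell.v.injEq] at hc
      obtain ⟨rfl, rfl⟩ := hc
      obtain ⟨h3, h4⟩ := h2
      have hu : p.x * 2 ^ t - l = 1 := by rw [hx, h3]; ring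
      have hl := (code c d).2.lip p.y y
      constructor
      · rintro ⟨rfl, rfl⟩
        rw [Pt.wt_of_e_right hp, hu, sval_one]
        linarith
      · intro hne
        by_cases h5 : k' = l ∧ a' = c
        · obtain ⟨rfl, rfl⟩ := h5
          rw [Pt.wt_of_e_left hp, hu, sval_one]
          linarith
        · rw [Pt.wt_of_e_ne hp h5 hne]; linarith

/-- If the class is an edge, the cell is this edge. -/
theorem UpperB_cell_of_e {x0 η : ℝ} {t : ℕ} {y : Y} {c : Cell K} {k : ℕ} {a b : K}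
    (hc : UpperB_cls code x0 η t y c = .e k a b) : c = .e k a b := by
  rcases c with ⟨l, c⟩ | ⟨l, c, d⟩
  · simp [UpperB_cls] at hc
  · simp only [UpperB_cls] at hc
    split_ifs at hc with h1 h2
    exact hc

/-- The classes are locally constant near a vertex. -/
theorem UpperB_cls_of_near {x0 η : ℝ} {t : ℕ} {y : Y} {p : Pt Y K code} {k : ℕ}
    {a : K} (hη1 : η < 1) (hx : p.x = x0) (hk : x0 * 2 ^ t = k) (hy : dist y p.y ≤ η)
    (hw : 1 - η < p.wt t k a) :
    UpperB_cls code x0 η t y (p.cell t) = .v k a := by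
  rcases hp : p.cell t with ⟨l, c⟩ | ⟨l, c, d⟩
  · by_cases h : k = l ∧ a = c
    · obtain ⟨rfl, rfl⟩ := h
      rfl
    · rw [Pt.wt_of_v_ne hp h] at hw
      linarith
  · by_cases h1 : k = l ∧ a = c
    · obtain ⟨rfl, rfl⟩ := h1
      have hu : p.x * 2 ^ t - k = 0 := by rw [hx, hk]; ring
      rw [Pt.wt_of_e_left hp, hu, sval_zero] at hw
      have hl := (code a d).1.lip y p.y
      have : x0 * 2 ^ t = k ∧ (code a d).1.1 y < 2 * η := ⟨hk, by linarith⟩
      simp only [UpperB_cls, this, and_self, if_true]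
    · by_cases h2 : k = l + 1 ∧ a = d
      · obtain ⟨rfl, rfl⟩ := h2
        have hu : p.x * 2 ^ t - l = 1 := by rw [hx, hk]; push_cast; ring
        rw [Pt.wt_of_e_right hp, hu, sval_one] at hw
        have hl := (code c a).2.lip y p.y
        have h3 : x0 * 2 ^ t = l + 1 ∧ (code c a).2.1 y < 2 * η :=
          ⟨by rw [hk]; push_cast; ring, by linarith⟩
        have h4 : ¬ (x0 * 2 ^ t = l ∧ (code c a).1.1 y < 2 * η) := by
          rintro ⟨h5, -⟩
          have := h3.1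
          linarith
        simp only [UpperB_cls]
        rw [if_neg h4, if_pos h3]
      · rw [Pt.wt_of_e_ne hp h1 h2] at hw
        linarith

/-- A class which is a vertex lies over `x0`. -/
theorem UpperB_pos_of_v {x0 η : ℝ} {t : ℕ} {y : Y} {p : Pt Y K code} {k : ℕ} {a : K}
    (hx : p.x = x0) (hc : UpperB_cls code x0 η t y (p.cell t) = .v k a) : x0 * 2 ^ t = k := by
  rcases hp : p.cell t with ⟨l, c⟩ | ⟨l, c, d⟩
  · rw [hp] at hc
    simp only [UpperB_cls, Cell.v.injEq] at hc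
    obtain ⟨rfl, rfl⟩ := hc
    rw [← hx]
    exact Pt.fits_v hp
  · rw [hp] at hc
    simp only [UpperB_cls] at hc
    split_ifs at hc with h1 h2
    · simp only [Cell.v.injEq] at hc
      rw [← hc.1]
      exact h1.1
    · simp only [Cell.v.injEq] at hc
      rw [← hc.1, h2.1]
      push_cast
      ring

/-- Weights of two points with the same class at a level are close. -/
theorem UpperB_wt_sub {x0 η : ℝ} (hη : 0 < η) {t : ℕ} {y : Y} {p q : Pt Y K code}
    (hp : p.x = x0) (hq : q.x = x0) (hpy : dist p.y y ≤ η) (hqy : dist q.y y ≤ η)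
    (hpq : dist p.y q.y ≤ η)
    (hc : UpperB_cls code x0 η t y (p.cell t) = UpperB_cls code x0 η t y (q.cell t))
    (k : ℕ) (a : K) : (1 / 2 : ℝ) ^ t * |p.wt t k a - q.wt t k a| ≤ 3 * η := by
  have h2 : (0 : ℝ) < (1 / 2 : ℝ) ^ t := by positivity
  have h3 : ((1 / 2 : ℝ) ^ t) ≤ 1 := pow_le_one₀ (by norm_num) (by norm_num)
  rcases h : UpperB_cls code x0 η t y (p.cell t) with ⟨l, c⟩ | ⟨l, c, d⟩
  · have h' : UpperB_cls code x0 η t y (q.cell t) = .v l c := hc ▸ h
    have e1 := UpperB_wt_of_v code hη hp hpy h k a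
    have e2 := UpperB_wt_of_v code hη hq hqy h' k a
    have key : |p.wt t k a - q.wt t k a| ≤ 3 * η := by
      have p0 := p.wt_nonneg t k a
      have p1 := p.wt_le_one t k a
      have q0 := q.wt_nonneg t k a
      have q1 := q.wt_le_one t k a
      rw [abs_le]
      by_cases hka : k = l ∧ a = c
      · have e3 := e1.1 hka
        have e4 := e2.1 hka
        constructor <;> linarith
      · have e3 := e1.2 hka
        have e4 := e2.2 hka
        constructor <;> linarith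
    calc (1 / 2 : ℝ) ^ t * |p.wt t k a - q.wt t k a| ≤ 1 * |p.wt t k a - q.wt t k a| :=
          mul_le_mul_of_nonneg_right h3 (abs_nonneg _)
      _ ≤ 3 * η := by rw [one_mul]; exact key
  · have h' : UpperB_cls code x0 η t y (q.cell t) = .e l c d := hc ▸ h
    have e1 := UpperB_cell_of_e code h
    have e2 := UpperB_cell_of_e code h'
    have := Pt.wt_sub_le_of_cell (e1.trans e2.symm) k a
    rw [hp, hq, sub_self, abs_zero, add_zero] at this
    linarith

theorem pz_fixed (S : Set Y) (hS : PZ S) (x0 : ℝ) :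
    PZ {p : Pt Y K code | p.y ∈ S ∧ p.x = x0} := by
  intro ε hε
  set η : ℝ := min (ε / 4) (1 / 2) with hηdef
  have hη : 0 < η := by positivity
  have hη1 : η < 1 := (min_le_right _ _).trans_lt (by norm_num)
  have hηε : 4 * η ≤ ε := by
    have := min_le_left (ε / 4) (1 / 2 : ℝ)
    linarith
  obtain ⟨N, hN⟩ := exists_pow_lt_of_lt_one hε (by norm_num : (1 / 2 : ℝ) < 1)
  obtain ⟨T, f, hf, hd⟩ := hS η hη
  let base : range f → S := rangeSplitting f
  have hbase : ∀ s : S, f (base ⟨f s, s, rfl⟩) = f s := fun s => apply_rangeSplitting f _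
  let F : {p : Pt Y K code | p.y ∈ S ∧ p.x = x0} → range f × (Fin N → Cell K) := fun p =>
    (⟨f ⟨p.1.y, p.2.1⟩, _, rfl⟩, fun t => UpperB_cls code x0 η t
      (base ⟨f ⟨p.1.y, p.2.1⟩, _, rfl⟩ : S) (p.1.cell t))
  have hF : IsLocallyConstant F := by
    rw [IsLocallyConstant.iff_eventually_eq]
    intro p
    have h1 : ∀ᶠ q : {p : Pt Y K code | p.y ∈ S ∧ p.x = x0} in 𝓝 p,
        f ⟨q.1.y, q.2.1⟩ = f ⟨p.1.y, p.2.1⟩ := by
      have : IsOpen ((fun q : {p : Pt Y K code | p.y ∈ S ∧ p.x = x0} =>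
          (⟨q.1.y, q.2.1⟩ : S)) ⁻¹' (f ⁻¹' {f ⟨p.1.y, p.2.1⟩})) :=
        (hf _).preimage ((Pt.continuous_y.comp continuous_subtype_val).subtype_mk _)
      exact this.mem_nhds rfl
    have h2 : ∀ t : Fin N, ∀ᶠ q : {p : Pt Y K code | p.y ∈ S ∧ p.x = x0} in 𝓝 p,
        f ⟨q.1.y, q.2.1⟩ = f ⟨p.1.y, p.2.1⟩ →
        UpperB_cls code x0 η t (base ⟨f ⟨p.1.y, p.2.1⟩, _, rfl⟩ : S) (q.1.cell t) =
        UpperB_cls code x0 η t (base ⟨f ⟨p.1.y, p.2.1⟩, _, rfl⟩ : S) (p.1.cell t) := by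
      intro t
      rcases h : p.1.cell t with ⟨k, a⟩ | ⟨k, a, b⟩
      · have h3 : ∀ᶠ q : {p : Pt Y K code | p.y ∈ S ∧ p.x = x0} in 𝓝 p,
            1 - η < q.1.wt t k a := by
          have h4 : Continuous (fun q : {p : Pt Y K code | p.y ∈ S ∧ p.x = x0} => q.1.wt t k a) :=
            (Pt.continuous_wt _ k a).comp continuous_subtype_val
          refine (h4.tendsto p).eventually_const_lt ?_
          rw [Pt.wt_of_v h]
          linarith
        filter_upwards [h3] with q hq hfq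
        refine UpperB_cls_of_near code hη1 q.2.2 ?_ ?_ hq
        · rw [← p.2.2]
          exact Pt.fits_v h
        · refine hd (base _) ⟨q.1.y, q.2.1⟩ ?_
          rw [hbase, hfq]
      · have h3 : ∀ᶠ q : {p : Pt Y K code | p.y ∈ S ∧ p.x = x0} in 𝓝 p,
            0 < q.1.wt t k a := by
          have h4 : Continuous (fun q : {p : Pt Y K code | p.y ∈ S ∧ p.x = x0} => q.1.wt t k a) :=
            (Pt.continuous_wt _ k a).comp continuous_subtype_val
          exact (h4.tendsto p).eventually_const_lt (Pt.cell_eq_e_iff.1 h).1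
        have h3' : ∀ᶠ q : {p : Pt Y K code | p.y ∈ S ∧ p.x = x0} in 𝓝 p,
            0 < q.1.wt t (k + 1) b := by
          have h4 : Continuous (fun q : {p : Pt Y K code | p.y ∈ S ∧ p.x = x0} =>
              q.1.wt t (k + 1) b) := (Pt.continuous_wt _ (k + 1) b).comp continuous_subtype_val
          exact (h4.tendsto p).eventually_const_lt (Pt.cell_eq_e_iff.1 h).2
        filter_upwards [h3, h3'] with q hq hq' _
        rw [Pt.cell_eq_e_iff.2 ⟨hq, hq'⟩]
    filter_upwards [h1, Filter.eventually_all.2 h2] with q hq1 hq2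
    have e1 : (⟨f ⟨q.1.y, q.2.1⟩, _, rfl⟩ : range f) = ⟨f ⟨p.1.y, p.2.1⟩, _, rfl⟩ :=
      Subtype.ext hq1
    show ((⟨f ⟨q.1.y, q.2.1⟩, _, rfl⟩, fun t => UpperB_cls code x0 η t
      (base ⟨f ⟨q.1.y, q.2.1⟩, _, rfl⟩ : S) (q.1.cell t)) : range f × (Fin N → Cell K)) = _
    rw [e1]
    exact Prod.ext rfl (funext fun t => hq2 t hq1)
  refine ⟨range f × (Fin N → Cell K), F, fun s => hF {s}, ?_⟩
  intro p q hpq
  have e1 : (⟨f ⟨p.1.y, p.2.1⟩, _, rfl⟩ : range f) = ⟨f ⟨q.1.y, q.2.1⟩, _, rfl⟩ :=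
    congrArg Prod.fst hpq
  have e2 : f ⟨p.1.y, p.2.1⟩ = f ⟨q.1.y, q.2.1⟩ := congrArg Subtype.val e1
  have e3 : ∀ t : Fin N, UpperB_cls code x0 η t (base ⟨f ⟨p.1.y, p.2.1⟩, _, rfl⟩ : S)
      (p.1.cell t) = UpperB_cls code x0 η t (base ⟨f ⟨q.1.y, q.2.1⟩, _, rfl⟩ : S)
      (q.1.cell t) := fun t => congrFun (congrArg Prod.snd hpq) t
  rw [e1] at e3
  have hb : f (base ⟨f ⟨q.1.y, q.2.1⟩, _, rfl⟩) = f ⟨q.1.y, q.2.1⟩ := hbase _
  have hpq' : dist p.1.y q.1.y ≤ η := hd ⟨p.1.y, p.2.1⟩ ⟨q.1.y, q.2.1⟩ e2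
  have hpy : dist p.1.y (base ⟨f ⟨q.1.y, q.2.1⟩, _, rfl⟩ : S) ≤ η :=
    hd ⟨p.1.y, p.2.1⟩ _ (e2.trans hb.symm)
  have hqy : dist q.1.y (base ⟨f ⟨q.1.y, q.2.1⟩, _, rfl⟩ : S) ≤ η :=
    hd ⟨q.1.y, q.2.1⟩ _ hb.symm
  show dist p.1 q.1 ≤ ε
  rw [Pt.dist_le_iff hε.le]
  refine ⟨by linarith, ?_, ?_⟩
  · rw [p.2.2, q.2.2, sub_self, abs_zero]
    exact hε.le
  · intro t k a
    by_cases ht : t < N
    · have := UpperB_wt_sub code hη p.2.2 q.2.2 hpy hqy hpq' (e3 ⟨t, ht⟩) k a
      linarith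
    · have h0 := p.1.wt_nonneg t k a
      have h1 := p.1.wt_le_one t k a
      have h2 := q.1.wt_nonneg t k a
      have h3 := q.1.wt_le_one t k a
      have h4 : |p.1.wt t k a - q.1.wt t k a| ≤ 1 := by rw [abs_le]; constructor <;> linarith
      calc (1 / 2 : ℝ) ^ t * |p.1.wt t k a - q.1.wt t k a| ≤ (1 / 2 : ℝ) ^ t * 1 :=
            mul_le_mul_of_nonneg_left h4 (by positivity)
        _ = (1 / 2 : ℝ) ^ t := mul_one _
        _ ≤ (1 / 2 : ℝ) ^ N := pow_le_pow_of_le_one (by norm_num) (by norm_num) (not_lt.1 ht)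
        _ ≤ ε := hN.le

end Pool.Agent.Gap
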