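import Pool.Agent.Gap.UpperA
import Pool.Agent.Gap.UpperB

set_option autoImplicit false

open Set TopologicalSpace Topology

namespace Pool.Agent.Gap

variable {Y K : Type} [MetricSpace Y] (code : K → K → Code Y)

theorem UpperC_isometry {X X' : Type} [MetricSpace X] [MetricSpace X'] (g : X' → X)
    (hg : Isometry g) (h : PZ X) : PZ X' := by
  intro ε hε
  obtain ⟨T, f, hf, hd⟩ := h ε hε
  refine ⟨T, f ∘ g, fun t => (hf t).preimage hg.continuous, fun x x' hx => ?_⟩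
  rw [← hg.dist_eq]
  exact hd _ _ hx

theorem UpperC_dyadic (S : Set Y) (hS : PZ S) :
    SZ {p : Pt Y K code | p.y ∈ S ∧ ∃ t k : ℕ, p.x * 2 ^ t = k} := by
  have hx : Continuous (fun p : {p : Pt Y K code | p.y ∈ S ∧ ∃ t k : ℕ, p.x * 2 ^ t = k} =>
      p.1.x) := Pt.continuous_x.comp continuous_subtype_val
  refine SZ.of_countable_closed
    (fun n => {p | p.1.x * 2 ^ (Nat.unpair n).1 = (Nat.unpair n).2}) ?_ ?_ ?_
  · intro n
    exact isClosed_eq (hx.mul continuous_const) continuous_const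
  · intro n
    refine PZ.sz (UpperC_isometry (fun q => (⟨q.1.1, q.1.2.1, ?_⟩ :
      {p : Pt Y K code | p.y ∈ S ∧ p.x = (Nat.unpair n).2 / 2 ^ (Nat.unpair n).1})) ?_
      (pz_fixed code S hS _))
    · have h : q.1.1.x * 2 ^ (Nat.unpair n).1 = (Nat.unpair n).2 := q.2
      exact eq_div_of_mul_eq (by positivity) h
    · intro p q
      rfl
  · rw [eq_univ_iff_forall]
    intro p
    obtain ⟨-, t, k, h⟩ := p.2
    rw [mem_iUnion]
    refine ⟨Nat.pair t k, ?_⟩
    simp only [mem_ofPred_eq, Nat.unpair_pair]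
    exact h

theorem Pt_cover (m : ℕ) (S : Fin m → Set Y) (hS : ∀ j, SZ (S j)) (hc : ⋃ j, S j = univ) :
    ∃ (m' : ℕ) (S' : Fin m' → Set (Pt Y K code)), (∀ j, SZ (S' j)) ∧ ⋃ j, S' j = univ := by
  refine ⟨m + m, Fin.addCases
    (fun j => {p : Pt Y K code | p.y ∈ S j ∧ ∀ t k : ℕ, p.x * 2 ^ t ≠ k})
    (fun j => {p : Pt Y K code | p.y ∈ S j ∧ ∃ t k : ℕ, p.x * 2 ^ t = k}), ?_, ?_⟩
  · intro j
    refine Fin.addCases (fun i => ?_) (fun i => ?_) j
    · beta_reduce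
      rw [Fin.addCases_left]
      exact (pz_nondyadic code (S i) (hS i).pz).sz
    · beta_reduce
      rw [Fin.addCases_right]
      exact UpperC_dyadic code (S i) (hS i).pz
  · rw [eq_univ_iff_forall]
    intro p
    have : p.y ∈ ⋃ j, S j := hc ▸ mem_univ _
    obtain ⟨i, hi⟩ := mem_iUnion.1 this
    rw [mem_iUnion]
    by_cases h : ∃ t k : ℕ, p.x * 2 ^ t = k
    · refine ⟨Fin.natAdd m i, ?_⟩
      rw [Fin.addCases_right]
      exact ⟨hi, h⟩
    · refine ⟨Fin.castAdd m i, ?_⟩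
      rw [Fin.addCases_left]
      exact ⟨hi, fun t k htk => h ⟨t, k, htk⟩⟩

end Pool.Agent.Gap
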