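import Pool.Agent.Gap.CubeDisc

set_option autoImplicit false

open Set

namespace Pool.Agent.Gap

/-- Cube theorem (covering form of Poincare-Miranda). -/
theorem cube (κ : Type) [Fintype κ] (U V : κ → Set (κ → unitInterval))
    (hU : ∀ i, IsOpen (U i)) (hV : ∀ i, IsOpen (V i)) (hd : ∀ i, Disjoint (U i) (V i))
    (h0 : ∀ i z, z i = 0 → z ∈ U i) (h1 : ∀ i z, z i = 1 → z ∈ V i) :
    ∃ z, ∀ i, z ∉ U i ∧ z ∉ V i := by
  by_contra hcon
  push Not at hcon
  let c : κ × Bool → Set (κ → unitInterval) := fun p => if p.2 then U p.1 else V p.1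
  have hc : ∀ p, IsOpen (c p) := by
    rintro ⟨i, b⟩
    cases b
    · exact hV i
    · exact hU i
  have hcov : (univ : Set (κ → unitInterval)) ⊆ ⋃ p, c p := by
    intro z _
    obtain ⟨i, hi⟩ := hcon z
    rw [mem_iUnion]
    by_cases h : z ∈ U i
    · exact ⟨(i, true), h⟩
    · exact ⟨(i, false), hi h⟩
  obtain ⟨δ, hδ, hball⟩ := lebesgue_number_lemma_of_metric isCompact_univ hc hcov
  obtain ⟨m, hm⟩ := exists_nat_one_div_lt hδ
  have hN : (0 : ℝ) < ((m + 1 : ℕ) : ℝ) := by positivity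
  let e : Fin (Fintype.card κ) ≃ κ := (Fintype.equivFin κ).symm
  let pt : (Fin (Fintype.card κ) → ℕ) → κ → unitInterval := fun w k =>
    Set.projIcc (0 : ℝ) 1 zero_le_one ((w (e.symm k) : ℝ) / ((m + 1 : ℕ) : ℝ))
  have hpt0 : ∀ w i, w i = 0 → pt w (e i) = 0 := by
    intro w i h
    simp only [pt, Equiv.symm_apply_apply, h, Nat.cast_zero, zero_div]
    exact Set.projIcc_left _
  have hpt1 : ∀ w i, w i = m + 1 → pt w (e i) = 1 := by
    intro w i h
    simp only [pt, Equiv.symm_apply_apply, h]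
    rw [div_self hN.ne']
    exact Set.projIcc_right _
  obtain ⟨v, -, hv⟩ := cube_disc (Fintype.card κ) (m + 1) (Nat.succ_pos m)
    (fun i w => pt w ∉ V (e i))
    (fun i w _ hw h => (hd (e i)).le_bot ⟨h0 (e i) _ (hpt0 w i hw), h⟩)
    (fun i w _ hw h => h (h1 (e i) _ (hpt1 w i hw)))
  obtain ⟨⟨j, b⟩, hj⟩ := hball (pt v) (mem_univ _)
  have hdist : ∀ w : Fin (Fintype.card κ) → ℕ, (∀ j, v j ≤ w j ∧ w j ≤ v j + 1) →
      pt w ∈ Metric.ball (pt v) δ := by
    intro w hw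
    rw [Metric.mem_ball, dist_pi_lt_iff hδ]
    intro k
    refine lt_of_le_of_lt ?_ hm
    have h2 := (LipschitzWith.projIcc (zero_le_one (α := ℝ))).dist_le_mul
      ((w (e.symm k) : ℝ) / ((m + 1 : ℕ) : ℝ)) ((v (e.symm k) : ℝ) / ((m + 1 : ℕ) : ℝ))
    refine h2.trans ?_
    rw [NNReal.coe_one, one_mul, Real.dist_eq, ← sub_div, abs_div, abs_of_pos hN]
    push_cast
    refine div_le_div_of_nonneg_right ?_ (by positivity)
    obtain ⟨h3, h4⟩ := hw (e.symm k)
    have h3' : (v (e.symm k) : ℝ) ≤ w (e.symm k) := by exact_mod_cast h3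
    have h4' : (w (e.symm k) : ℝ) ≤ v (e.symm k) + 1 := by exact_mod_cast h4
    rw [abs_le]
    constructor <;> linarith
  obtain ⟨⟨w, hw, hw'⟩, ⟨w2, hw2, hw2'⟩⟩ := hv (e.symm j)
  rw [Equiv.apply_symm_apply] at hw' hw2'
  cases b
  · exact hw' (hj (hdist w hw))
  · rw [not_not] at hw2'
    exact (hd j).le_bot ⟨hj (hdist w2 hw2), hw2'⟩

end Pool.Agent.Gap
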