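import Mathlib

set_option autoImplicit false

open Set

namespace Pool.Agent.Gap

theorem exists_rho {X Z ι : Type} [MetricSpace X] [TopologicalSpace Z] [CompactSpace Z]
    (O : ι → Set (X × Z)) (hO : ∀ i, IsOpen (O i)) (hcov : ∀ p, ∃ i, p ∈ O i) :
    ∃ ρ : X → ℝ, (∀ h h', ρ h ≤ ρ h' + dist h h') ∧ (∀ h, 0 < ρ h ∧ ρ h ≤ 1) ∧
      ∀ h z, ∃ i, ∀ q, dist q h < ρ h → (q, z) ∈ O i := by
  classical
  let P : X → ℝ → Prop := fun h r => ∀ z, ∃ i, ∀ q, dist q h < r → (q, z) ∈ O i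
  have hP0 : ∀ h, P h 0 := by
    intro h z
    obtain ⟨i, -⟩ := hcov (h, z)
    exact ⟨i, fun q hq => absurd hq (not_lt.2 dist_nonneg)⟩
  have hPmono : ∀ h r r', r' ≤ r → P h r → P h r' := by
    intro h r r' hr hp z
    obtain ⟨i, hi⟩ := hp z
    exact ⟨i, fun q hq => hi q (hq.trans_le hr)⟩
  have hPmove : ∀ h h' r, P h r → P h' (r - dist h h') := by
    intro h h' r hp z
    obtain ⟨i, hi⟩ := hp z
    refine ⟨i, fun q hq => hi q ?_⟩
    have := dist_triangle q h' h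
    rw [dist_comm h' h] at this
    linarith
  have hP1 : ∀ h, ∃ r, 0 < r ∧ r ≤ 1 ∧ P h r := by
    intro h
    have key : ∀ z : Z, ∃ r : ℝ, 0 < r ∧ ∃ N : Set Z, N ∈ nhds z ∧ ∃ i, ∀ q, dist q h < r →
        ∀ z' ∈ N, (q, z') ∈ O i := by
      intro z
      obtain ⟨i, hi⟩ := hcov (h, z)
      have h1 : O i ∈ nhds (h, z) := (hO i).mem_nhds hi
      rw [nhds_prod_eq] at h1
      obtain ⟨A, hA, B, hB, hAB⟩ := Filter.mem_prod_iff.1 h1
      obtain ⟨r, hr, hrA⟩ := Metric.mem_nhds_iff.1 hA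
      exact ⟨r, hr, B, hB, i, fun q hq z' hz' => hAB ⟨hrA hq, hz'⟩⟩
    choose r hr N hN i hi using key
    obtain ⟨s, hs⟩ := CompactSpace.elim_nhds_subcover N hN
    have hmin : ∀ s : Finset Z, ∃ r0 : ℝ, 0 < r0 ∧ r0 ≤ 1 ∧ ∀ z ∈ s, r0 ≤ r z := by
      intro s
      induction s using Finset.induction_on with
      | empty => exact ⟨1, one_pos, le_rfl, by simp⟩
      | insert a s _ ih =>
        obtain ⟨r0, h0, h1, h2⟩ := ih
        refine ⟨min r0 (r a), lt_min h0 (hr a), (min_le_left _ _).trans h1, ?_⟩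
        intro z hz
        rcases Finset.mem_insert.1 hz with rfl | hz
        · exact min_le_right _ _
        · exact (min_le_left _ _).trans (h2 z hz)
    obtain ⟨r0, h0, h1, h2⟩ := hmin s
    refine ⟨r0, h0, h1, fun z => ?_⟩
    have hz : z ∈ (⊤ : Set Z) := trivial
    rw [← hs] at hz
    obtain ⟨z0, hz0, hz1⟩ := Set.mem_iUnion₂.1 hz
    exact ⟨i z0, fun q hq => hi z0 q (hq.trans_le (h2 z0 hz0)) z hz1⟩
  let S : X → Set ℝ := fun h => {r | 0 ≤ r ∧ r ≤ 1 ∧ P h r}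
  have hS0 : ∀ h, (0 : ℝ) ∈ S h := fun h => ⟨le_rfl, zero_le_one, hP0 h⟩
  have hSb : ∀ h, BddAbove (S h) := fun h => ⟨1, fun r hr => hr.2.1⟩
  have hpos : ∀ h, 0 < sSup (S h) := by
    intro h
    obtain ⟨r, hr0, hr1, hr⟩ := hP1 h
    exact hr0.trans_le (le_csSup (hSb h) ⟨hr0.le, hr1, hr⟩)
  have hle1 : ∀ h, sSup (S h) ≤ 1 := fun h => csSup_le ⟨0, hS0 h⟩ fun r hr => hr.2.1
  refine ⟨fun h => sSup (S h) / 2, ?_, ?_, ?_⟩
  · intro h h'
    have hd : 0 ≤ dist h h' := dist_nonneg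
    have : sSup (S h) ≤ sSup (S h') + dist h h' := by
      refine csSup_le ⟨0, hS0 h⟩ ?_
      rintro r ⟨hr0, hr1, hr⟩
      by_cases hc : 0 ≤ r - dist h h'
      · have := le_csSup (hSb h') (⟨hc, by linarith, hPmove h h' r hr⟩ : r - dist h h' ∈ S h')
        linarith
      · have := hpos h'
        linarith
    show sSup (S h) / 2 ≤ sSup (S h') / 2 + dist h h'
    linarith
  · intro h
    have h1 := hpos h
    have h2 := hle1 h
    constructor
    · show 0 < sSup (S h) / 2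
      linarith
    · show sSup (S h) / 2 ≤ 1
      linarith
  · intro h z
    have h1 := hpos h
    obtain ⟨r, hr, hlt⟩ := exists_lt_of_lt_csSup ⟨0, hS0 h⟩ (by linarith : sSup (S h) / 2 < sSup (S h))
    obtain ⟨i, hi⟩ := hr.2.2 z
    exact ⟨i, fun q hq => hi q (hq.trans hlt)⟩

end Pool.Agent.Gap
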