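import Pool.Agent.Gap.PtLem

set_option autoImplicit false

open Set TopologicalSpace

namespace Pool.Agent.Gap

namespace Pt

variable {Y K : Type} [MetricSpace Y] {code : K → K → Code Y}

/-- The points over `W` whose cell of level `t` is the vertex `(k, a)` or an edge at it whose
closeness function at `y0` is smaller than `η`. -/
def starSet (code : K → K → Code Y) (W : Set Y) (y0 : Y) (η : ℝ) (t k : ℕ) (a : K) :
    Set (Pt Y K code) :=
  {q | q.y ∈ W ∧ (q.cell t = .v k a ∨ (∃ b, q.cell t = .e k a b ∧ (code a b).1.1 y0 < η) ∨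
    ∃ l b, k = l + 1 ∧ q.cell t = .e l b a ∧ (code b a).2.1 y0 < η)}

theorem isOpen_starSet {W : Set Y} (hW : IsOpen W) {y0 : Y} {η : ℝ}
    (hWb : ∀ y ∈ W, dist y0 y < η / 2) (hη : 0 < η) (hη1 : η ≤ 1) (t k : ℕ) (a : K) :
    IsOpen (starSet code W y0 η t k a) := by
  rw [isOpen_iff_forall_mem_open]
  rintro q ⟨hqW, hq⟩
  have hWo : IsOpen {q : Pt Y K code | q.y ∈ W} := hW.preimage continuous_y
  rcases hq with hc | ⟨b, hc, hb⟩ | ⟨l, b, hl, hc, hb⟩
  · refine ⟨{q | q.y ∈ W} ∩ {q | 1 - η / 2 < q.wt t k a}, ?_,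
      hWo.inter (isOpen_lt continuous_const (continuous_wt t k a)), hqW, ?_⟩
    · rintro q' ⟨hq'W, hq'⟩
      have hq'2 : 1 - η / 2 < q'.wt t k a := hq'
      have hdist := hWb _ hq'W
      refine ⟨hq'W, ?_⟩
      rcases wt_pos_cases (by linarith : 0 < q'.wt t k a) with h' | ⟨b, h'⟩ | ⟨l, b, hl, h'⟩
      · exact Or.inl h'
      · refine Or.inr (Or.inl ⟨b, h', ?_⟩)
        rw [wt_of_e_left h'] at hq'2
        have h1 := left_le_sval (code a b) q'.y (fits_e h').1
        have h2 := (code a b).1.lip y0 q'.y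
        linarith
      · refine Or.inr (Or.inr ⟨l, b, hl, h', ?_⟩)
        subst hl
        rw [wt_of_e_right h'] at hq'2
        have h1 := sval_le_right (code b a) q'.y (fits_e h').2
        have h2 := (code b a).2.lip y0 q'.y
        linarith
    · show 1 - η / 2 < q.wt t k a
      rw [wt_of_v hc]
      linarith
  · refine ⟨{q | q.y ∈ W} ∩ {q | q.cell t = .e k a b}, ?_,
      hWo.inter (isOpen_edge t k a b), hqW, hc⟩
    rintro q' ⟨hq'W, hq'⟩
    exact ⟨hq'W, Or.inr (Or.inl ⟨b, hq', hb⟩)⟩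
  · refine ⟨{q | q.y ∈ W} ∩ {q | q.cell t = .e l b a}, ?_,
      hWo.inter (isOpen_edge t l b a), hqW, hc⟩
    rintro q' ⟨hq'W, hq'⟩
    exact ⟨hq'W, Or.inr (Or.inr ⟨l, b, hl, hq', hb⟩)⟩

theorem isClosed_starSet {W : Set Y} (hW : IsClosed W) (y0 : Y) (η : ℝ) (t k : ℕ) (a : K) :
    IsClosed (starSet code W y0 η t k a) := by
  rw [← isOpen_compl_iff, isOpen_iff_forall_mem_open]
  intro q hq
  by_cases hqW : q.y ∈ W
  · rcases hc : q.cell t with ⟨k', a'⟩ | ⟨k', a', b'⟩
    · -- a different vertex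
      have hne : ¬ (k = k' ∧ a = a') := by
        rintro ⟨rfl, rfl⟩
        exact hq ⟨hqW, Or.inl hc⟩
      refine ⟨({q | 0 < q.wt t k' a'} ∩ {q : Pt Y K code | q.cell t = .e k a a'}ᶜ) ∩
        {q : Pt Y K code | q.cell t = .e k' a' a}ᶜ, ?_, ?_, ⟨⟨?_, ?_⟩, ?_⟩⟩
      · rintro q' ⟨⟨h1, h2⟩, h3⟩ ⟨hq'W, hq'⟩
        have h1' : 0 < q'.wt t k' a' := h1
        rcases hq' with h' | ⟨b, h', hb⟩ | ⟨l, b, hl, h', hb⟩
        · rw [wt_of_v_ne h' (fun hh => hne ⟨hh.1.symm, hh.2.symm⟩)] at h1'
          exact lt_irrefl _ h1'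
        · by_cases e2 : k' = k + 1 ∧ a' = b
          · obtain ⟨rfl, rfl⟩ := e2
            exact h2 h'
          · rw [wt_of_e_ne h' (fun hh => hne ⟨hh.1.symm, hh.2.symm⟩) e2] at h1'
            exact lt_irrefl _ h1'
        · by_cases e2 : k' = l ∧ a' = b
          · obtain ⟨rfl, rfl⟩ := e2
            exact h3 h'
          · subst hl
            rw [wt_of_e_ne h' e2 (fun hh => hne ⟨hh.1.symm, hh.2.symm⟩)] at h1'
            exact lt_irrefl _ h1'
      · exact ((isOpen_lt continuous_const (continuous_wt t k' a')).inter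
          (isClosed_edge t k a a').isOpen_compl).inter (isClosed_edge t k' a' a).isOpen_compl
      · show 0 < q.wt t k' a'
        rw [wt_of_v hc]
        exact one_pos
      · intro h'
        have h'' : q.cell t = .e k a a' := h'
        rw [hc] at h''
        cases h''
      · intro h'
        have h'' : q.cell t = .e k' a' a := h'
        rw [hc] at h''
        cases h''
    · -- an edge
      refine ⟨{q | q.cell t = .e k' a' b'}, ?_, isOpen_edge t k' a' b', hc⟩
      rintro q' hq' ⟨hq'W, h⟩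
      have hq'' : q'.cell t = .e k' a' b' := hq'
      refine hq ⟨hqW, ?_⟩
      rw [hc, ← hq'']
      exact h
  · refine ⟨{q | q.y ∈ W}ᶜ, fun q' h1 h2 => h1 h2.1, ?_, hqW⟩
    exact (hW.preimage continuous_y).isOpen_compl

/-- A clopen neighbourhood which controls one level. -/
theorem clopen_level (h : IsTopologicalBasis {s : Set Y | IsClopen s}) (p : Pt Y K code) (t : ℕ)
    {η : ℝ} (hη : 0 < η) (hη1 : η ≤ 1) :
    ∃ R : Set (Pt Y K code), IsClopen R ∧ p ∈ R ∧ ∀ q ∈ R, dist q.y p.y < η ∧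
      |q.x - p.x| ≤ (1 / 2 : ℝ) ^ t ∧
      ∀ k a, (1 / 2 : ℝ) ^ t * |q.wt t k a - p.wt t k a| ≤ 2 * η + |q.x - p.x| := by
  obtain ⟨W, hWc, hpW, hWb⟩ := h.exists_subset_of_mem_open
    (Metric.mem_ball_self (by linarith : 0 < η / 2) : p.y ∈ Metric.ball p.y (η / 2))
    Metric.isOpen_ball
  have hWcl : IsClopen W := hWc
  have hpow : (0 : ℝ) < 2 ^ t := by positivity
  have hpow1 : (1 / 2 : ℝ) ^ t * 2 ^ t = 1 := by rw [← mul_pow]; norm_num
  have hpow2 : (0 : ℝ) < (1 / 2 : ℝ) ^ t := by positivity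
  have hpow3 : ((1 / 2 : ℝ) ^ t) ≤ 1 := pow_le_one₀ (by norm_num) (by norm_num)
  have hconv : ∀ a b c : ℝ, |a * 2 ^ t - b * 2 ^ t| ≤ c → |a - b| ≤ (1 / 2 : ℝ) ^ t * c := by
    intro a b c hc
    rw [show a * 2 ^ t - b * 2 ^ t = (a - b) * 2 ^ t by ring, abs_mul,
      abs_of_pos hpow] at hc
    calc |a - b| = (1 / 2 : ℝ) ^ t * (|a - b| * 2 ^ t) := by
          rw [mul_comm |a - b|, ← mul_assoc, hpow1, one_mul]
      _ ≤ (1 / 2 : ℝ) ^ t * c := mul_le_mul_of_nonneg_left hc hpow2.le
  rcases hc : p.cell t with ⟨k, a⟩ | ⟨k, a, b⟩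
  · refine ⟨starSet code W p.y η t k a, ⟨isClosed_starSet hWcl.1 _ _ _ _ _,
      isOpen_starSet hWcl.2 ?_ hη hη1 _ _ _⟩, ⟨hpW, Or.inl hc⟩, ?_⟩
    · intro y hy
      have := hWb hy
      rw [Metric.mem_ball, dist_comm] at this
      exact this
    · rintro q ⟨hqW, hq⟩
      have hd : dist q.y p.y < η / 2 := Metric.mem_ball.1 (hWb hqW)
      have hpx : p.x * 2 ^ t = k := fits_v hc
      -- the weight at (k, a) and the position
      have key : 0 < q.wt t k a ∧ 1 - q.wt t k a ≤ 2 * η + |q.x - p.x| * 2 ^ t ∧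
          |q.x * 2 ^ t - p.x * 2 ^ t| ≤ 1 := by
        have habs : |q.x - p.x| * 2 ^ t = |q.x * 2 ^ t - k| := by
          rw [← hpx, show q.x * 2 ^ t - p.x * 2 ^ t = (q.x - p.x) * 2 ^ t by ring, abs_mul,
            abs_of_pos hpow]
        rw [habs, hpx]
        rcases hq with hq | ⟨b, hq, hb⟩ | ⟨l, b, hl, hq, hb⟩
        · rw [wt_of_v hq, fits_v hq]
          simp
          exact hη.le
        · have hf := fits_e hq
          have h1 := (code a b).1.lip q.y p.y
          have h2 := (code a b).1.pos q.y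
          have h3 := (code a b).1.le q.y
          have h4 := (code a b).2.pos q.y
          have h5 := (code a b).2.le q.y
          rw [wt_of_e_left hq, abs_of_nonneg hf.1]
          have h6 : sval (code a b) q.y (q.x * 2 ^ t - k) ≤
              (code a b).1.1 q.y + (q.x * 2 ^ t - k) := by
            unfold sval
            nlinarith [hf.1, hf.2]
          refine ⟨?_, ?_, hf.2⟩
          · have := sval_lt_one (code a b) q.y hf.2
            linarith
          · linarith
        · subst hl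
          have hf := fits_e hq
          have h1 := (code b a).2.lip q.y p.y
          have h2 := (code b a).1.pos q.y
          have h3 := (code b a).1.le q.y
          have h4 := (code b a).2.pos q.y
          have h5 := (code b a).2.le q.y
          have e : q.x * 2 ^ t - ((l + 1 : ℕ) : ℝ) = -(1 - (q.x * 2 ^ t - l)) := by
            push_cast; ring
          rw [wt_of_e_right hq, e, abs_neg, abs_of_nonneg (by linarith [hf.2])]
          have h6 : 1 - sval (code b a) q.y (q.x * 2 ^ t - l) ≤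
              (code b a).2.1 q.y + (1 - (q.x * 2 ^ t - l)) := by
            unfold sval
            nlinarith [hf.1, hf.2]
          refine ⟨sval_pos _ _ hf.1, ?_, ?_⟩
          · linarith
          · linarith [hf.1]
      refine ⟨by linarith, ?_, ?_⟩
      · have := hconv _ _ _ key.2.2
        simpa using this
      · intro k' a'
        have h1 : |q.wt t k' a' - p.wt t k' a'| ≤ 1 - q.wt t k a := by
          by_cases e1 : k' = k ∧ a' = a
          · obtain ⟨rfl, rfl⟩ := e1
            rw [wt_of_v hc, abs_sub_comm, abs_of_nonneg]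
            linarith [q.wt_le_one t k' a']
          · rw [wt_of_v_ne hc e1, sub_zero, abs_of_nonneg (q.wt_nonneg t k' a')]
            have := q.wt_add_le t e1
            linarith
        calc (1 / 2 : ℝ) ^ t * |q.wt t k' a' - p.wt t k' a'|
            ≤ (1 / 2 : ℝ) ^ t * (2 * η + |q.x - p.x| * 2 ^ t) :=
              mul_le_mul_of_nonneg_left (h1.trans key.2.1) hpow2.le
          _ = (1 / 2 : ℝ) ^ t * (2 * η) + ((1 / 2 : ℝ) ^ t * 2 ^ t) * |q.x - p.x| := by ring
          _ ≤ 2 * η + |q.x - p.x| := by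
              rw [hpow1, one_mul]
              have : (1 / 2 : ℝ) ^ t * (2 * η) ≤ 1 * (2 * η) :=
                mul_le_mul_of_nonneg_right hpow3 (by linarith)
              linarith
  · refine ⟨{q | q.y ∈ W} ∩ {q | q.cell t = .e k a b},
      (hWcl.preimage continuous_y).inter (isClopen_edge t k a b), ⟨hpW, hc⟩, ?_⟩
    rintro q ⟨hqW, hq⟩
    have hq' : q.cell t = .e k a b := hq
    have hd : dist q.y p.y < η / 2 := Metric.mem_ball.1 (hWb hqW)
    refine ⟨by linarith, ?_, ?_⟩
    · have h1 := fits_e hc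
      have h2 := fits_e hq'
      have := hconv q.x p.x 1 (by rw [abs_le]; constructor <;> linarith [h1.1, h1.2, h2.1, h2.2])
      simpa using this
    · intro k' a'
      have h1 := wt_sub_le_of_cell (p := q) (q := p) (hq'.trans hc.symm) k' a'
      linarith

end Pt

theorem clopen_basis_pt {Y K : Type} [MetricSpace Y] (code : K → K → Code Y)
    (h : IsTopologicalBasis {s : Set Y | IsClopen s}) :
    IsTopologicalBasis {s : Set (Pt Y K code) | IsClopen s} := by
  refine isTopologicalBasis_of_isOpen_of_nhds (fun u hu => hu.2) ?_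
  intro p O hp hO
  obtain ⟨ε, hε, hεO⟩ := Metric.isOpen_iff.1 hO p hp
  obtain ⟨M, hM⟩ := exists_pow_lt_of_lt_one (by linarith : 0 < ε / 4)
    (by norm_num : (1 / 2 : ℝ) < 1)
  have hη : 0 < min 1 (ε / 16) := lt_min one_pos (by linarith)
  have hη1 : min 1 (ε / 16) ≤ 1 := min_le_left _ _
  have hη2 : min 1 (ε / 16) ≤ ε / 16 := min_le_right _ _
  choose R hRc hpR hR using fun t => Pt.clopen_level h p t hη hη1
  refine ⟨⋂ t ∈ Finset.range (M + 1), R t, ?_, ?_, ?_⟩
  · exact Set.Finite.isClopen_biInter (Finset.finite_toSet _) (fun t _ => hRc t)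
  · exact Set.mem_iInter₂.2 fun t _ => hpR t
  · intro q hq
    have hqR : ∀ t, t ≤ M → q ∈ R t := fun t ht =>
      Set.mem_iInter₂.1 hq t (Finset.mem_range.2 (Nat.lt_succ_of_le ht))
    have hx := (hR M q (hqR M le_rfl)).2.1
    have hy := (hR M q (hqR M le_rfl)).1
    refine hεO ?_
    rw [Metric.mem_ball]
    have hle : dist q p ≤ ε / 2 := by
      rw [Pt.dist_le_iff (by linarith)]
      refine ⟨by linarith, by linarith, ?_⟩
      intro t k a
      by_cases ht : t ≤ M
      · have := (hR t q (hqR t ht)).2.2 k a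
        linarith
      · have h0 := q.wt_nonneg t k a
        have h1 := q.wt_le_one t k a
        have h2 := p.wt_nonneg t k a
        have h3 := p.wt_le_one t k a
        have h4 : |q.wt t k a - p.wt t k a| ≤ 1 := by rw [abs_le]; constructor <;> linarith
        calc (1 / 2 : ℝ) ^ t * |q.wt t k a - p.wt t k a| ≤ (1 / 2 : ℝ) ^ t * 1 :=
              mul_le_mul_of_nonneg_left h4 (by positivity)
          _ = (1 / 2 : ℝ) ^ t := mul_one _
          _ ≤ (1 / 2 : ℝ) ^ M :=
              pow_le_pow_of_le_one (by norm_num) (by norm_num) (not_le.1 ht).le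
          _ ≤ ε / 2 := by linarith
    linarith

end Pool.Agent.Gap
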