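import Pool.Agent.Gap.PtLem

set_option autoImplicit false

open Set TopologicalSpace

namespace Pool.Agent.Gap

namespace Pt

variable {Y K : Type} [MetricSpace Y] {code : K → K → Code Y}

/-- A Cauchy sequence at one level: the limit cell. -/
theorem complete_level {u : ℕ → Pt Y K code} (hu : CauchySeq u) {x : ℝ}
    (hx : Filter.Tendsto (fun n => (u n).x) Filter.atTop (nhds x)) (t : ℕ) :
    ∃ c : Cell K, c.Fits t x ∧ ((∃ N, ∀ n ≥ N, (u n).cell t = c) ∨
      ∃ k a, c = .v k a ∧ Filter.Tendsto (fun n => (u n).wt t k a) Filter.atTop (nhds 1)) := by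
  have hcau : ∀ ε : ℝ, 0 < ε → ∃ N, ∀ n ≥ N, ∀ m ≥ N, ∀ k a,
      |(u n).wt t k a - (u m).wt t k a| < ε := by
    intro ε hε
    obtain ⟨N, hN⟩ := Metric.cauchySeq_iff.1 hu (ε / 2 ^ t) (by positivity)
    refine ⟨N, fun n hn m hm k a => (wt_sub_le _ _ t k a).trans_lt ?_⟩
    have h1 := hN n hn m hm
    have h2 : (0 : ℝ) < 2 ^ t := by positivity
    calc 2 ^ t * dist (u n) (u m) < 2 ^ t * (ε / 2 ^ t) := mul_lt_mul_of_pos_left h1 h2
      _ = ε := by field_simp
  have hx2 : Filter.Tendsto (fun n => (u n).x * 2 ^ t) Filter.atTop (nhds (x * 2 ^ t)) :=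
    hx.mul_const _
  -- eventually constant cells fit
  have hfit : ∀ c : Cell K, (∃ N, ∀ n ≥ N, (u n).cell t = c) → c.Fits t x := by
    rintro c ⟨N, hN⟩
    rcases c with ⟨k, a⟩ | ⟨k, a, b⟩
    · show x * 2 ^ t = k
      refine tendsto_nhds_unique hx2 ?_
      refine tendsto_const_nhds.congr' ?_
      filter_upwards [Filter.eventually_ge_atTop N] with n hn
      exact (fits_v (hN n hn)).symm
    · refine ⟨?_, ?_⟩
      · refine ge_of_tendsto hx2 ?_
        filter_upwards [Filter.eventually_ge_atTop N] with n hn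
        have := (fits_e (hN n hn)).1
        linarith
      · refine le_of_tendsto hx2 ?_
        filter_upwards [Filter.eventually_ge_atTop N] with n hn
        have := (fits_e (hN n hn)).2
        linarith
  obtain ⟨N1, hN1⟩ := hcau (1 / 8) (by norm_num)
  obtain ⟨k0, a0, hk0⟩ := exists_half (u N1) t
  have hpos : ∀ n ≥ N1, 1 / 4 ≤ (u n).wt t k0 a0 := by
    intro n hn
    have := (abs_lt.1 (hN1 n hn N1 le_rfl k0 a0)).1
    linarith
  have hcw : CauchySeq (fun n => (u n).wt t k0 a0) := by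
    refine Metric.cauchySeq_iff.2 fun ε hε => ?_
    obtain ⟨N, hN⟩ := hcau ε hε
    exact ⟨N, fun m hm n hn => by rw [Real.dist_eq]; exact hN m hm n hn k0 a0⟩
  obtain ⟨w, hw⟩ := cauchySeq_tendsto_of_complete hcw
  have hw1 : w ≤ 1 := le_of_tendsto' hw fun n => (u n).wt_le_one t k0 a0
  rcases hw1.lt_or_eq with hlt | rfl
  · -- an edge
    obtain ⟨N2, hN2⟩ := hcau (min (1 / 8) ((1 - w) / 4))
      (lt_min (by norm_num) (by linarith))
    obtain ⟨N3, hN3⟩ := Filter.eventually_atTop.1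
      ((tendsto_order.1 hw).2 (w + (1 - w) / 2) (by linarith))
    obtain ⟨N, hNN1, hNN2, hNN3⟩ : ∃ N, N1 ≤ N ∧ N2 ≤ N ∧ N3 ≤ N :=
      ⟨max N1 (max N2 N3), le_max_left _ _, (le_max_left _ _).trans (le_max_right _ _),
        (le_max_right _ _).trans (le_max_right _ _)⟩
    have h1 := hpos N hNN1
    have h2 := hN3 N hNN3
    have hedge : ∃ k a b, (u N).cell t = .e k a b ∧
        min (1 / 8) ((1 - w) / 4) < (u N).wt t k a ∧
        min (1 / 8) ((1 - w) / 4) < (u N).wt t (k + 1) b := by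
      have m1 := min_le_left (1 / 8 : ℝ) ((1 - w) / 4)
      have m2 := min_le_right (1 / 8 : ℝ) ((1 - w) / 4)
      rcases wt_pos_cases (by linarith : 0 < (u N).wt t k0 a0) with hc | ⟨b, hc⟩ | ⟨l, b, hl, hc⟩
      · exfalso
        rw [wt_of_v hc] at h2
        linarith
      · refine ⟨k0, a0, b, hc, ?_, ?_⟩
        · linarith
        · have := wt_add_of_e hc
          linarith
      · subst hl
        refine ⟨l, b, a0, hc, ?_, ?_⟩
        · have := wt_add_of_e hc
          linarith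
        · linarith
    obtain ⟨k, a, b, hc, ha, hb⟩ := hedge
    have hev : ∃ N, ∀ n ≥ N, (u n).cell t = .e k a b := by
      refine ⟨N, fun n hn => cell_eq_e_iff.2 ⟨?_, ?_⟩⟩
      · have := (abs_lt.1 (hN2 n (hNN2.trans hn) N hNN2 k a)).1
        linarith
      · have := (abs_lt.1 (hN2 n (hNN2.trans hn) N hNN2 (k + 1) b)).1
        linarith
    exact ⟨_, hfit _ hev, Or.inl hev⟩
  · -- a vertex
    refine ⟨.v k0 a0, ?_, Or.inr ⟨k0, a0, rfl, hw⟩⟩
    show x * 2 ^ t = k0
    have h1 : Filter.Tendsto (fun n => |(u n).x * 2 ^ t - k0|) Filter.atTop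
        (nhds |x * 2 ^ t - k0|) := (hx2.sub_const _).abs
    have h2 : Filter.Tendsto (fun n => 2 * (1 - (u n).wt t k0 a0)) Filter.atTop
        (nhds (2 * (1 - 1))) := (hw.const_sub 1).const_mul 2
    have h3 : |x * 2 ^ t - k0| ≤ 2 * (1 - 1) := by
      refine le_of_tendsto_of_tendsto h1 h2 ?_
      filter_upwards [Filter.eventually_ge_atTop N1] with n hn
      exact abs_pos_le (by linarith [hpos n hn])
    have h4 : |x * 2 ^ t - k0| = 0 := le_antisymm (by simpa using h3) (abs_nonneg _)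
    linarith [abs_eq_zero.1 h4]

end Pt

theorem complete_pt {Y K : Type} [MetricSpace Y] [CompleteSpace Y] (code : K → K → Code Y) :
    CompleteSpace (Pt Y K code) := by
  refine Metric.complete_of_cauchySeq_tendsto fun u hu => ?_
  have hy : CauchySeq (fun n => (u n).y) := by
    refine Metric.cauchySeq_iff.2 fun ε hε => ?_
    obtain ⟨N, hN⟩ := Metric.cauchySeq_iff.1 hu ε hε
    exact ⟨N, fun m hm n hn => (Pt.dist_y_le _ _).trans_lt (hN m hm n hn)⟩
  have hx : CauchySeq (fun n => (u n).x) := by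
    refine Metric.cauchySeq_iff.2 fun ε hε => ?_
    obtain ⟨N, hN⟩ := Metric.cauchySeq_iff.1 hu ε hε
    exact ⟨N, fun m hm n hn => by
      rw [Real.dist_eq]; exact (Pt.abs_x_le _ _).trans_lt (hN m hm n hn)⟩
  obtain ⟨y, hy⟩ := cauchySeq_tendsto_of_complete hy
  obtain ⟨x, hx⟩ := cauchySeq_tendsto_of_complete hx
  choose c hc hlev using fun t => Pt.complete_level hu hx t
  let p : Pt Y K code := ⟨y, x, c, hc⟩
  refine ⟨p, ?_⟩
  rw [Metric.tendsto_atTop]
  intro ε hε
  obtain ⟨M, hM⟩ := exists_pow_lt_of_lt_one (by linarith : 0 < ε / 2)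
    (by norm_num : (1 / 2 : ℝ) < 1)
  -- levels
  have hlev2 : ∀ t, ∃ N, ∀ n ≥ N, ∀ k a,
      (1 / 2 : ℝ) ^ t * |(u n).wt t k a - p.wt t k a| ≤ ε / 2 := by
    intro t
    rcases hlev t with ⟨N, hN⟩ | ⟨k0, a0, hck, hlim⟩
    · obtain ⟨N1, hN1⟩ := Metric.tendsto_atTop.1 hy (ε / 4) (by linarith)
      obtain ⟨N2, hN2⟩ := Metric.tendsto_atTop.1 hx (ε / 4) (by linarith)
      refine ⟨max N (max N1 N2), fun n hn k a => ?_⟩
      have hn1 : N ≤ n := (le_max_left _ _).trans hn
      have hn2 : N1 ≤ n := (le_max_left _ _).trans ((le_max_right _ _).trans hn)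
      have hn3 : N2 ≤ n := (le_max_right _ _).trans ((le_max_right _ _).trans hn)
      have h1 := Pt.wt_sub_le_of_cell (p := u n) (q := p) (hN n hn1) k a
      have h2 : dist (u n).y p.y < ε / 4 := hN1 n hn2
      have h3 : |(u n).x - p.x| < ε / 4 := by
        rw [← Real.dist_eq]; exact hN2 n hn3
      linarith
    · have hp1 : p.cell t = .v k0 a0 := hck
      obtain ⟨N1, hN1⟩ := Metric.tendsto_atTop.1 hlim (ε / 2) (by linarith)
      refine ⟨N1, fun n hn k a => ?_⟩
      have h1 := hN1 n hn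
      rw [Real.dist_eq, abs_lt] at h1
      have h2 : (0 : ℝ) ≤ (1 / 2 : ℝ) ^ t := by positivity
      have h3 : ((1 / 2 : ℝ) ^ t) ≤ 1 := pow_le_one₀ (by norm_num) (by norm_num)
      have h4 : |(u n).wt t k a - p.wt t k a| ≤ ε / 2 := by
        by_cases e1 : k = k0 ∧ a = a0
        · obtain ⟨rfl, rfl⟩ := e1
          rw [Pt.wt_of_v hp1, abs_le]
          constructor <;> linarith
        · rw [Pt.wt_of_v_ne hp1 e1, sub_zero, abs_of_nonneg ((u n).wt_nonneg t k a)]
          have := (u n).wt_add_le t e1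
          linarith
      calc (1 / 2 : ℝ) ^ t * |(u n).wt t k a - p.wt t k a|
          ≤ 1 * |(u n).wt t k a - p.wt t k a| := mul_le_mul_of_nonneg_right h3 (abs_nonneg _)
        _ ≤ ε / 2 := by rw [one_mul]; exact h4
  choose N hN using hlev2
  obtain ⟨N1, hN1⟩ := Metric.tendsto_atTop.1 hy (ε / 2) (by linarith)
  obtain ⟨N2, hN2⟩ := Metric.tendsto_atTop.1 hx (ε / 2) (by linarith)
  refine ⟨max (max N1 N2) ((Finset.range M).sup N), fun n hn => ?_⟩
  have hn1 : N1 ≤ n := (le_max_left _ _).trans ((le_max_left _ _).trans hn)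
  have hn2 : N2 ≤ n := (le_max_right _ _).trans ((le_max_left _ _).trans hn)
  have hn3 : (Finset.range M).sup N ≤ n := (le_max_right _ _).trans hn
  have hle : dist (u n) p ≤ ε / 2 := by
    rw [Pt.dist_le_iff (by linarith)]
    refine ⟨(hN1 n hn1).le, ?_, ?_⟩
    · rw [← Real.dist_eq]; exact (hN2 n hn2).le
    · intro t k a
      by_cases ht : t < M
      · exact hN t n ((Finset.le_sup (Finset.mem_range.2 ht)).trans hn3) k a
      · have h0 := (u n).wt_nonneg t k a
        have h1 := (u n).wt_le_one t k a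
        have h2 := p.wt_nonneg t k a
        have h3 := p.wt_le_one t k a
        have h4 : |(u n).wt t k a - p.wt t k a| ≤ 1 := by rw [abs_le]; constructor <;> linarith
        calc (1 / 2 : ℝ) ^ t * |(u n).wt t k a - p.wt t k a| ≤ (1 / 2 : ℝ) ^ t * 1 :=
              mul_le_mul_of_nonneg_left h4 (by positivity)
          _ = (1 / 2 : ℝ) ^ t := mul_one _
          _ ≤ (1 / 2 : ℝ) ^ M :=
              pow_le_pow_of_le_one (by norm_num) (by norm_num) (not_lt.1 ht)
          _ ≤ ε / 2 := hM.le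
  linarith

end Pool.Agent.Gap
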