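import Pool.Agent.Gap.IndBasic

set_option autoImplicit false

open Set TopologicalSpace Topology

namespace Pool.Agent.Gap

/-- Separation of a pair given in `X` and of a pair given in a closed subspace. -/
theorem IndLower_sep {X : Type} [MetricSpace X] {L : Set X} (hL : IsClosed L) {A B : Set X}
    (hA : IsClosed A) (hd : Disjoint A B) {U' V' : Set L} (hV' : IsOpen V')
    (hUV : Disjoint U' V') (hAU : Subtype.val ⁻¹' A ⊆ U') (hBV : Subtype.val ⁻¹' B ⊆ V') :
    Disjoint (closure (A ∪ Subtype.val '' U')) (B ∪ Subtype.val '' V') := by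
  have hcl : Disjoint (closure U') V' := hUV.closure_left hV'
  have hclL : closure (Subtype.val '' U') ⊆ L :=
    closure_minimal (by rintro _ ⟨x, _, rfl⟩; exact x.2) hL
  rw [closure_union, hA.closure_eq, Set.disjoint_left]
  rintro x (hx | hx) (hy | hy)
  · exact Set.disjoint_left.1 hd hx hy
  · obtain ⟨y, hy, rfl⟩ := hy
    exact Set.disjoint_left.1 hUV (hAU hx) hy
  · have hxL : x ∈ L := hclL hx
    have h1 : (⟨x, hxL⟩ : L) ∈ closure U' := closure_subtype.2 hx
    exact Set.disjoint_left.1 hcl h1 (hBV hy)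
  · obtain ⟨y, hy, rfl⟩ := hy
    have h1 : y ∈ closure U' := closure_subtype.2 hx
    exact Set.disjoint_left.1 hcl h1 hy

theorem exists_cover_of_IndLT {X : Type} [MetricSpace X] (n : ℕ) (h : IndLT n X)
    (A B : Fin n → Set X) (hA : ∀ i, IsClosed (A i)) (hB : ∀ i, IsClosed (B i))
    (hd : ∀ i, Disjoint (A i) (B i)) :
    ∃ U V : Fin n → Set X, (∀ i, IsOpen (U i)) ∧ (∀ i, IsOpen (V i)) ∧
      (∀ i, Disjoint (U i) (V i)) ∧ (∀ i, A i ⊆ U i) ∧ (∀ i, B i ⊆ V i) ∧
      ∀ x, ∃ i, x ∈ U i ∨ x ∈ V i := by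
  induction n generalizing X with
  | zero =>
    have h' : IsEmpty X := h
    exact ⟨fun i => i.elim0, fun i => i.elim0, fun i => i.elim0, fun i => i.elim0,
      fun i => i.elim0, fun i => i.elim0, fun i => i.elim0, fun x => (h'.false x).elim⟩
  | succ n ih =>
    obtain ⟨U0, hU0, hAU0, hcl, hfr⟩ := h.closure_form (hA 0) (hB 0).isOpen_compl
      (fun x hx hx' => Set.disjoint_left.1 (hd 0) hx hx')
    obtain ⟨U', V', hU', hV', hUV', hAU', hBV', hcov⟩ := ih hfr
      (fun i => Subtype.val ⁻¹' A i.succ) (fun i => Subtype.val ⁻¹' B i.succ)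
      (fun i => (hA _).preimage continuous_subtype_val)
      (fun i => (hB _).preimage continuous_subtype_val)
      (fun i => (hd i.succ).preimage _)
    have hsep : ∀ i : Fin n, SeparatedNhds (A i.succ ∪ Subtype.val '' U' i)
        (B i.succ ∪ Subtype.val '' V' i) := by
      intro i
      refine separatedNhds_iff_disjoint.2 (completely_normal ?_ ?_)
      · exact IndLower_sep isClosed_frontier (hA _) (hd _) (hV' i) (hUV' i) (hAU' i) (hBV' i)
      · exact (IndLower_sep isClosed_frontier (hB _) (hd _).symm (hU' i) (hUV' i).symm (hBV' i)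
          (hAU' i)).symm
    choose U V hU hV hSU hTV hUV using hsep
    refine ⟨Fin.cons U0 U, Fin.cons (closure U0)ᶜ V, ?_, ?_, ?_, ?_, ?_, ?_⟩
    · intro i
      refine Fin.cases ?_ (fun i => ?_) i
      · exact hU0
      · exact hU i
    · intro i
      refine Fin.cases ?_ (fun i => ?_) i
      · exact isClosed_closure.isOpen_compl
      · exact hV i
    · intro i
      refine Fin.cases ?_ (fun i => ?_) i
      · exact Set.disjoint_left.2 fun x hx hx' => hx' (subset_closure hx)
      · exact hUV i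
    · intro i
      refine Fin.cases ?_ (fun i => ?_) i
      · exact hAU0
      · exact subset_union_left.trans (hSU i)
    · intro i
      refine Fin.cases ?_ (fun i => ?_) i
      · exact fun x hx hx' => hcl hx' hx
      · exact subset_union_left.trans (hTV i)
    · intro x
      by_cases h1 : x ∈ U0
      · exact ⟨0, Or.inl h1⟩
      by_cases h2 : x ∈ closure U0
      · have h3 : x ∈ frontier U0 := by
          rw [frontier, hU0.interior_eq]
          exact ⟨h2, h1⟩
        obtain ⟨i, hi | hi⟩ := hcov ⟨x, h3⟩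
        · exact ⟨i.succ, Or.inl (hSU i (Or.inr ⟨_, hi, rfl⟩))⟩
        · exact ⟨i.succ, Or.inr (hTV i (Or.inr ⟨_, hi, rfl⟩))⟩
      · exact ⟨0, Or.inr h2⟩

theorem StEss.not_IndLT {X ι : Type} [MetricSpace X] [Fintype ι] {A B : ι → Set X}
    (hA : ∀ i, IsClosed (A i)) (hB : ∀ i, IsClosed (B i)) (hd : ∀ i, Disjoint (A i) (B i))
    (h : StEss X ι A B) : ¬ IndLT (Fintype.card ι) X := by
  intro hlt
  let e : ι ≃ Fin (Fintype.card ι) := Fintype.equivFin ι
  obtain ⟨U, V, hU, hV, hUV, hAU, hBV, hcov⟩ := exists_cover_of_IndLT _ hlt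
    (fun i => A (e.symm i)) (fun i => B (e.symm i)) (fun i => hA _) (fun i => hB _)
    (fun i => hd _)
  obtain ⟨p, hp⟩ := h Empty
    (Sum.elim (fun i => Prod.fst ⁻¹' U (e i)) (fun j => j.elim))
    (Sum.elim (fun i => Prod.fst ⁻¹' V (e i)) (fun j => j.elim))
    (by
      rintro (i | j)
      · exact (hU (e i)).preimage continuous_fst
      · exact j.elim)
    (by
      rintro (i | j)
      · exact (hV (e i)).preimage continuous_fst
      · exact j.elim)
    (by
      rintro (i | j)
      · exact (hUV (e i)).preimage _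
      · exact j.elim)
    (by
      intro i p hp
      refine hAU (e i) ?_
      rw [e.symm_apply_apply]
      exact hp)
    (by
      intro i p hp
      refine hBV (e i) ?_
      rw [e.symm_apply_apply]
      exact hp)
    (fun j => j.elim) (fun j => j.elim)
  obtain ⟨i, hi⟩ := hcov p.1
  have h2 := hp (Sum.inl (e.symm i))
  simp only [Sum.elim_inl, Set.mem_preimage, e.apply_symm_apply] at h2
  rcases hi with hi | hi
  · exact h2.1 hi
  · exact h2.2 hi

end Pool.Agent.Gap
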