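import Pool.Agent.Gap.TrUnb

set_option autoImplicit false

open Set TopologicalSpace Topology

namespace Pool.Agent.Gap

/-- A sum of spaces with clopen bases has a clopen base. -/
theorem Power_sigma_basis (X : ℕ → Type) [∀ n, TopologicalSpace (X n)]
    (hb : ∀ n, IsTopologicalBasis {s : Set (X n) | IsClopen s}) :
    IsTopologicalBasis {s : Set (Σ n, X n) | IsClopen s} := by
  refine isTopologicalBasis_of_isOpen_of_nhds (fun s hs => hs.isOpen) ?_
  rintro ⟨n, x⟩ U hx hU
  obtain ⟨V, hV, hxV, hVU⟩ := (hb n).exists_subset_of_mem_open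
    (show x ∈ Sigma.mk n ⁻¹' U from hx) (hU.preimage continuous_sigmaMk)
  exact ⟨Sigma.mk n '' V, ⟨isClosedMap_sigmaMk _ hV.1, isOpenMap_sigmaMk _ hV.2⟩,
    ⟨x, hxV, rfl⟩, image_subset_iff.2 hVU⟩

/-- A countable power of a space with a clopen base has a clopen base. -/
theorem Power_pi_basis {S : Type} [TopologicalSpace S]
    (hb : IsTopologicalBasis {s : Set S | IsClopen s}) :
    IsTopologicalBasis {s : Set (ℕ → S) | IsClopen s} := by
  refine isTopologicalBasis_of_isOpen_of_nhds (fun s hs => hs.isOpen) ?_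
  intro p U hp hU
  obtain ⟨I, u, h1, h2⟩ := isOpen_pi_iff.1 hU p hp
  have h3 : ∀ i, ∃ V : Set S, IsClopen V ∧ p i ∈ V ∧ (i ∈ I → V ⊆ u i) := by
    intro i
    by_cases hi : i ∈ I
    · obtain ⟨V, hV, hpV, hVu⟩ := hb.exists_subset_of_mem_open (h1 i hi).2 (h1 i hi).1
      exact ⟨V, hV, hpV, fun _ => hVu⟩
    · exact ⟨univ, isClopen_univ, mem_univ _, fun h => absurd h hi⟩
  choose V hV hpV hVu using h3
  refine ⟨⋂ i ∈ I, (fun q : ℕ → S => q i) ⁻¹' V i, ?_, ?_, ?_⟩
  · exact isClopen_biInter_finset fun i _ => (hV i).preimage (continuous_apply i)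
  · exact mem_iInter₂.2 fun i _ => hpV i
  · intro q hq
    exact h2 fun i hi => hVu i hi (mem_iInter₂.1 hq i hi)

/-- An open subset of a countable power contains a closed copy of the space. -/
theorem Power_copy {S : Type} [TopologicalSpace S] [T2Space S] {F : Set (ℕ → S)}
    (hF : (interior F).Nonempty) : ∃ g : S → F, IsClosedEmbedding g := by
  obtain ⟨p, hp⟩ := hF
  have hop : IsOpen (interior F) := isOpen_interior
  obtain ⟨I, u, h1, h2⟩ := isOpen_pi_iff.1 hop p hp
  obtain ⟨i, hi⟩ := Infinite.exists_notMem_finset I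
  refine ⟨fun s => ⟨Function.update p i s, interior_subset (h2 fun j hj => ?_)⟩, ?_⟩
  · have hji : j ≠ i := fun h => hi (h ▸ hj)
    rw [Function.update_of_ne hji]
    exact (h1 j hj).2
  · refine Function.LeftInverse.isClosedEmbedding (f := fun q : F => q.1 i) ?_ ?_ ?_
    · intro s
      simp
    · exact (continuous_apply (A := fun _ : ℕ => S) i).comp continuous_subtype_val
    · have hc : Continuous (fun s : S => Function.update p i s) :=
        continuous_const.update i continuous_id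
      exact hc.subtype_mk _

theorem power_space (X : ℕ → Type) [∀ n, MetricSpace (X n)] [∀ n, CompleteSpace (X n)]
    (hb : ∀ n, IsTopologicalBasis {s : Set (X n) | IsClopen s}) (hd : ∀ n, ¬ IndLT n (X n)) :
    ∃ (Z : Type) (_ : MetricSpace Z), CompleteSpace Z ∧
      IsTopologicalBasis {s : Set Z | IsClopen s} ∧
      ∀ F : ℕ → Set Z, (∀ j, IsClosed (F j)) → (∀ j, ∃ α, TrIndLT α (F j)) →
        ⋃ j, F j ≠ univ := by
  let : MetricSpace (Σ n, X n) := Metric.Sigma.metricSpace
  have : CompleteSpace (Σ n, X n) := Metric.Sigma.completeSpace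
  let hZ : MetricSpace (ℕ → Σ n, X n) := PiCountable.metricSpace
  refine ⟨ℕ → Σ n, X n, hZ, ?_, Power_pi_basis (Power_sigma_basis X hb), ?_⟩
  · exact (inferInstance : CompleteSpace (ℕ → Σ n, X n))
  · intro F hF hα hcov
    have : Nonempty (Σ n, X n) := by
      by_contra hne
      rw [not_nonempty_iff] at hne
      exact hd 0 (⟨fun x => hne.false ⟨0, x⟩⟩ : IsEmpty (X 0))
    obtain ⟨j, hj⟩ := nonempty_interior_of_iUnion_of_closed hF hcov
    obtain ⟨g, hg⟩ := Power_copy hj
    obtain ⟨α, hα⟩ := hα j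
    refine not_TrIndLT_of_unb α (Sigma.fst : (Σ n, X n) → ℕ) ?_ ?_ (hα.of_isClosedEmbedding hg)
    · exact continuous_sigma fun n => continuous_const
    · intro m hm
      refine hd m (IndLT.of_isClosedEmbedding (f := fun x : X m =>
        (⟨⟨m, x⟩, rfl⟩ : (Sigma.fst : (Σ n, X n) → ℕ) ⁻¹' {m})) ?_ hm)
      have hcont : Continuous (fun x : X m =>
        (⟨⟨m, x⟩, rfl⟩ : (Sigma.fst : (Σ n, X n) → ℕ) ⁻¹' {m})) :=
        continuous_sigmaMk.subtype_mk _
      have hcomp : IsClosedEmbedding (Sigma.mk m : X m → Σ n, X n) := IsClosedEmbedding.sigmaMk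
      refine ⟨IsEmbedding.of_comp hcont continuous_subtype_val hcomp.isEmbedding, ?_⟩
      have : range (fun x : X m =>
          (⟨⟨m, x⟩, rfl⟩ : (Sigma.fst : (Σ n, X n) → ℕ) ⁻¹' {m})) =
          Subtype.val ⁻¹' range (Sigma.mk m : X m → Σ n, X n) := by
        ext y
        constructor
        · rintro ⟨x, rfl⟩
          exact ⟨x, rfl⟩
        · rintro ⟨x, hx⟩
          exact ⟨x, Subtype.ext hx⟩
      rw [this]
      exact hcomp.isClosed_range.preimage continuous_subtype_val

end Pool.Agent.Gap
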