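import Pool.Agent.Gap.Tree

set_option autoImplicit false

open Set

namespace Pool.Agent.Gap

/-- State of the recursion of `fusion` at one level: labels of the lower levels, and for every
vertex its parameter, its tree and its node. -/
structure FusState {Θ C : Type} (D : Lab Θ C) where
  H : ℕ → ℕ → D.K
  T : ℕ → Θ
  G : ℕ → List D.K → Prop
  σ : ℕ → List D.K
  hG : ∀ k, G k (σ k)
  hs : ∀ k j τ, τ.length = (σ k).length + j → G k τ →
    ¬ D.small (Nat.bodd (2 ^ j * k)) {a | G k (a :: τ)}

/-- Data of a tree at a new vertex. -/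
def FusNew {Θ C : Type} (D : Lab Θ C) (R : ℕ → ℕ → (ℕ → ℕ → D.K) → Θ → (ℕ → D.K) → Prop)
    (θ0 : ℕ → ℕ → (ℕ → ℕ → D.K) → Θ) (G0 : ℕ → ℕ → (ℕ → ℕ → D.K) → List D.K → Prop) : Prop :=
  ∀ t k H, G0 t k H [] ∧
    (∀ σ, G0 t k H σ → ¬ D.small (Nat.bodd (2 ^ σ.length * k)) {a | G0 t k H (a :: σ)}) ∧
    ∀ ξ, (∀ m, G0 t k H (pre ξ m)) → R t k H (θ0 t k H) ξ

/-- The next state. -/
noncomputable def FusState.next {Θ C : Type} {D : Lab Θ C}
    {R : ℕ → ℕ → (ℕ → ℕ → D.K) → Θ → (ℕ → D.K) → Prop}
    {θ0 : ℕ → ℕ → (ℕ → ℕ → D.K) → Θ} {G0 : ℕ → ℕ → (ℕ → ℕ → D.K) → List D.K → Prop}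
    (hN : FusNew D R θ0 G0) (t : ℕ) (S : FusState D) (a : ℕ → D.K)
    (ha : ∀ k, a k ∈ {a | S.G k (a :: S.σ k)}) : FusState D where
  H := Function.update S.H t a
  T k := if k % 2 = 0 then S.T (k / 2) else θ0 (t + 1) k (Function.update S.H t a)
  G k := if k % 2 = 0 then S.G (k / 2) else G0 (t + 1) k (Function.update S.H t a)
  σ k := if k % 2 = 0 then a (k / 2) :: S.σ (k / 2) else []
  hG k := by
    split_ifs with h
    · exact ha (k / 2)
    · exact (hN (t + 1) k _).1
  hs k j τ := by
    split_ifs with h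
    · intro h1 h2
      have h3 := S.hs (k / 2) (j + 1) τ (by simp only [List.length_cons] at h1; omega) h2
      have h4 : 2 ^ (j + 1) * (k / 2) = 2 ^ j * k := by
        have h5 : k = 2 * (k / 2) := by omega
        conv_rhs => rw [h5]
        rw [pow_succ, mul_assoc]
      rw [h4] at h3
      exact h3
    · intro h1 h2
      have h3 := (hN (t + 1) k _).2.1 τ h2
      have h4 : τ.length = j := by simpa using h1
      rw [h4] at h3
      exact h3

/-- Choice of the labels `L t k` of all vertices `k` of all levels `t`. The vertex `k` of level `t`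
is the vertex `2 * k` of level `t + 1`; it is new at level `t` if `t = 0` or `k` is odd. -/
theorem fusion {Θ C : Type} (D : Lab Θ C) (c : Θ → Θ → C)
    (R : ℕ → ℕ → (ℕ → ℕ → D.K) → Θ → (ℕ → D.K) → Prop)
    (loc : ∀ t k L L' θ ξ, (∀ s < t, L s = L' s) → R t k L θ ξ → R t k L' θ ξ)
    (closed : ∀ t k L θ ξ, (∀ m, ∃ ξ', R t k L θ ξ' ∧ ∀ j < m, ξ' j = ξ j) → R t k L θ ξ)
    (cover : ∀ t k L ξ, ∃ θ, R t k L θ ξ) :
    ∃ (L : ℕ → ℕ → D.K) (T : ℕ → ℕ → Θ),
      (∀ t k, T (t + 1) (2 * k) = T t k) ∧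
      (∀ t k, D.code (L t k) (L t (k + 1)) = c (T t k) (T t (k + 1))) ∧
      (∀ t k, (t = 0 ∨ Odd k) → R t k L (T t k) (fun m => L (t + m) (2 ^ m * k))) := by
  have hne : Nonempty D.K := by
    by_contra h
    rw [not_nonempty_iff] at h
    refine D.univ_not_small false ?_
    rw [Set.univ_eq_empty_iff.2 h]
    exact D.small_empty false
  obtain ⟨junk⟩ := hne
  choose θ0 G0 hN using fun (t k : ℕ) (H : ℕ → ℕ → D.K) =>
    exists_good (fun m => D.small (Nat.bodd (2 ^ m * k)))
      (fun _ => D.small_empty _) (fun _ => D.small_mono _) (fun _ => D.small_iUnion _)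
      (fun _ => D.univ_not_small _) (fun θ => {ξ | R t k H θ ξ})
      (fun θ ξ h => closed t k H θ ξ (by
        intro m
        obtain ⟨ξ', h1, h2⟩ := h m
        exact ⟨ξ', h1, h2⟩)) (fun ξ => cover t k H ξ)
  have hN' : FusNew D R θ0 G0 := fun t k H => hN t k H
  have hp : ∀ S : FusState D, ∃ a : ℕ → D.K, (∀ k, a k ∈ {a | S.G k (a :: S.σ k)}) ∧
      ∀ k, D.code (a k) (a (k + 1)) = c (S.T k) (S.T (k + 1)) := by
    intro S
    refine D.path (fun k => {a | S.G k (a :: S.σ k)}) (fun k => c (S.T k) (S.T (k + 1))) ?_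
    intro k
    have := S.hs k 0 (S.σ k) rfl (S.hG k)
    rwa [pow_zero, one_mul] at this
  choose a ha hc using hp
  let S0 : FusState D :=
    { H := fun _ _ => junk
      T := fun k => θ0 0 k (fun _ _ => junk)
      G := fun k => G0 0 k (fun _ _ => junk)
      σ := fun _ => []
      hG := fun k => (hN 0 k _).1
      hs := by
        intro k j τ h1 h2
        have h3 := (hN 0 k (fun _ _ => junk)).2.1 τ h2
        have h4 : τ.length = j := by simpa using h1
        rw [h4] at h3
        exact h3 }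
  let S : ℕ → FusState D := fun t =>
    Nat.rec S0 (fun t S => FusState.next hN' t S (a S) (ha S)) t
  have hS : ∀ t, S (t + 1) = FusState.next hN' t (S t) (a (S t)) (ha (S t)) := fun t => rfl
  have hH : ∀ t s, s < t → (S t).H s = a (S s) := by
    intro t
    induction t with
    | zero => intro s hs; omega
    | succ t ih =>
      intro s hs
      rw [hS]
      simp only [FusState.next]
      rcases Nat.lt_succ_iff_lt_or_eq.1 hs with h | h
      · rw [Function.update_of_ne h.ne, ih s h]
      · rw [h, Function.update_self]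
  refine ⟨fun t => a (S t), fun t => (S t).T, ?_, fun t k => hc (S t) k, ?_⟩
  · intro t k
    dsimp only
    rw [hS]
    simp only [FusState.next]
    rw [if_pos (by omega)]
    congr 1
    omega
  · intro t k htk
    have key : ∀ m, (S (t + m)).G (2 ^ m * k) = (S t).G k ∧
        (S (t + m)).σ (2 ^ m * k) =
          pre (fun m => a (S (t + m)) (2 ^ m * k)) m ++ (S t).σ k := by
      intro m
      induction m with
      | zero => simp [pre]
      | succ m ih =>
        rw [← Nat.add_assoc, hS]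
        have h1 : 2 ^ (m + 1) * k % 2 = 0 := by
          rw [pow_succ, mul_assoc, mul_left_comm]
          omega
        have h2 : 2 ^ (m + 1) * k / 2 = 2 ^ m * k := by
          rw [pow_succ, mul_assoc, mul_left_comm]
          omega
        simp only [FusState.next]
        rw [if_pos h1, if_pos h1, h2]
        refine ⟨ih.1, ?_⟩
        rw [ih.2, pre]
        rfl
    have hnew : (S t).G k = G0 t k (S t).H ∧ (S t).T k = θ0 t k (S t).H ∧ (S t).σ k = [] := by
      rcases t with _ | t
      · exact ⟨rfl, rfl, rfl⟩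
      · have hk : ¬ k % 2 = 0 := by
          rcases htk with h | h
          · omega
          · rw [Nat.odd_iff] at h; omega
        rw [hS]
        simp only [FusState.next]
        rw [if_neg hk, if_neg hk, if_neg hk]
        exact ⟨rfl, rfl, rfl⟩
    dsimp only
    rw [hnew.2.1]
    refine loc t k (S t).H _ _ _ (hH t) ((hN t k (S t).H).2.2 _ ?_)
    intro m
    have h1 := (S (t + m)).hG (2 ^ m * k)
    rw [(key m).1, (key m).2, hnew.1, hnew.2.2, List.append_nil] at h1
    exact h1

end Pool.Agent.Gap
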