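import Pool.Agent.Gap.Defs2

set_option autoImplicit false

open Set TopologicalSpace

namespace Pool.Agent.Gap

variable {Y K : Type} [MetricSpace Y] (code : K → K → Code Y)

theorem hub_dist_seq (L : ℕ → ℕ → K) (t0 k0 m : ℕ) (ξ ξ' : ℕ → K) (y : Y)
    (h : ∀ j < m, ξ j = ξ' j) :
    dist (hub code L t0 k0 ξ y) (hub code L t0 k0 ξ' y) ≤ (1 / 2) ^ m := by
  have h1 := Pt.dist_le_of_cells (p := hub code L t0 k0 ξ y) (q := hub code L t0 k0 ξ' y) m (by
    intro t ht
    simp only [hub]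
    split_ifs with h2
    · rfl
    · rw [h (t - t0) (by omega)])
  refine h1.trans ?_
  have e1 : dist (hub code L t0 k0 ξ y).y (hub code L t0 k0 ξ' y).y = 0 := dist_self y
  have e2 : (hub code L t0 k0 ξ y).x - (hub code L t0 k0 ξ' y).x = 0 := sub_self _
  rw [e1, e2, abs_zero, add_zero]
  exact max_le (by positivity) le_rfl

theorem hub_dist_y (L : ℕ → ℕ → K) (t0 k0 : ℕ) (ξ : ℕ → K) (y y' : Y) :
    dist (hub code L t0 k0 ξ y) (hub code L t0 k0 ξ y') ≤ dist y y' := by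
  rw [Pt.dist_le_iff dist_nonneg]
  have e2 : (hub code L t0 k0 ξ y).x - (hub code L t0 k0 ξ y').x = 0 := sub_self _
  refine ⟨le_rfl, ?_, ?_⟩
  · rw [e2, abs_zero]; exact dist_nonneg
  · intro t k a
    have h := Pt.wt_sub_le_of_cell (p := hub code L t0 k0 ξ y) (q := hub code L t0 k0 ξ y')
      (t := t) rfl k a
    rw [e2, abs_zero, add_zero] at h
    exact h

theorem hub_congr (L L' : ℕ → ℕ → K) (t0 k0 : ℕ) (ξ : ℕ → K) (y : Y)
    (h : ∀ s < t0, L s = L' s) :
    hub code L t0 k0 ξ y = hub code L' t0 k0 ξ y := by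
  refine Pt.ext' rfl rfl fun t => ?_
  simp only [hub]
  split_ifs with h2
  · rw [h t h2]
  · rfl

end Pool.Agent.Gap
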