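import Pool.Agent.Gap.Defs2

set_option autoImplicit false

open Set TopologicalSpace

namespace Pool.Agent.Gap

variable {Y K : Type} [MetricSpace Y] (code : K → K → Code Y)

theorem qpts_floor_ceil {x : ℝ} {n : ℕ} (h1 : (n : ℝ) < x) (h2 : x < n + 1) :
    ⌊x⌋₊ = n ∧ ⌈x⌉₊ - 1 = n := by
  have h0 : 0 ≤ x := le_trans (Nat.cast_nonneg n) h1.le
  constructor
  · exact (Nat.floor_eq_iff h0).2 ⟨h1.le, h2⟩
  · have : ⌈x⌉₊ = n + 1 := by
      rw [Nat.ceil_eq_iff (Nat.succ_ne_zero n)]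
      refine ⟨by simpa using h1, ?_⟩
      push_cast
      exact h2.le
    rw [this]; rfl

theorem qpts_ceil_sub {x : ℝ} (h0 : 0 ≤ x) (h : ∀ k : ℕ, x ≠ k) : ⌈x⌉₊ - 1 = ⌊x⌋₊ := by
  have h1 : ((⌊x⌋₊ : ℕ) : ℝ) < x := lt_of_le_of_ne (Nat.floor_le h0) (fun e => h _ e.symm)
  exact (qpts_floor_ceil h1 (Nat.lt_floor_add_one x)).2

theorem qpts_right {p q : Pt Y K code} {t k : ℕ} {a b : K} (hp : p.cell t = .e k a b)
    (hq : q.cell t = .v k a) (hx : p.x * 2 ^ t - k = 0) (k' : ℕ) (c : K) :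
    |p.wt t k' c - q.wt t k' c| ≤ (code a b).1.1 p.y := by
  have h0 := (code a b).1.pos p.y
  by_cases e1 : k' = k ∧ c = a
  · obtain ⟨rfl, rfl⟩ := e1
    rw [Pt.wt_of_e_left hp, Pt.wt_of_v hq, hx, sval_zero]
    rw [show 1 - (code c b).1.1 p.y - 1 = - (code c b).1.1 p.y by ring, abs_neg, abs_of_pos h0]
  · rw [Pt.wt_of_v_ne hq e1]
    by_cases e2 : k' = k + 1 ∧ c = b
    · obtain ⟨rfl, rfl⟩ := e2
      rw [Pt.wt_of_e_right hp, hx, sval_zero, sub_zero, abs_of_pos h0]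
    · rw [Pt.wt_of_e_ne hp e1 e2]
      simpa using h0.le

theorem qpts_left {p q : Pt Y K code} {t k : ℕ} {a b : K} (hp : p.cell t = .e k a b)
    (hq : q.cell t = .v (k + 1) b) (hx : p.x * 2 ^ t - k = 1) (k' : ℕ) (c : K) :
    |p.wt t k' c - q.wt t k' c| ≤ (code a b).2.1 p.y := by
  have h0 := (code a b).2.pos p.y
  by_cases e1 : k' = k + 1 ∧ c = b
  · obtain ⟨rfl, rfl⟩ := e1
    rw [Pt.wt_of_e_right hp, Pt.wt_of_v hq, hx, sval_one]
    rw [show 1 - (code a c).2.1 p.y - 1 = - (code a c).2.1 p.y by ring, abs_neg, abs_of_pos h0]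
  · rw [Pt.wt_of_v_ne hq e1]
    by_cases e2 : k' = k ∧ c = a
    · obtain ⟨rfl, rfl⟩ := e2
      rw [Pt.wt_of_e_left hp, hx, sval_one, sub_zero]
      rw [show 1 - (1 - (code c b).2.1 p.y) = (code c b).2.1 p.y by ring, abs_of_pos h0]
    · rw [Pt.wt_of_e_ne hp e2 e1]
      simpa using h0.le

theorem qpts_half_mul {t : ℕ} {z r : ℝ} (hz : |z| ≤ r) : (1 / 2 : ℝ) ^ t * |z| ≤ r := by
  have h3 : ((1 / 2 : ℝ) ^ t) ≤ 1 := pow_le_one₀ (by norm_num) (by norm_num)
  have h2 : (0 : ℝ) < (1 / 2 : ℝ) ^ t := by positivity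
  have := abs_nonneg z
  nlinarith

theorem qpts_mul_pow {lam : ℝ} {t0 k0 : ℕ} (hlam : lam = k0 / 2 ^ t0) (m : ℕ) :
    lam * 2 ^ (t0 + m) = ((2 ^ m * k0 : ℕ) : ℝ) := by
  rw [hlam, pow_add]
  push_cast
  field_simp

theorem Q_near_hub (L : ℕ → ℕ → K) (t0 k0 : ℕ) (h0 : t0 = 0 ∨ Odd k0) (lam : unitInterval)
    (hlam : (lam : ℝ) = k0 / 2 ^ t0) (y : Y) (r : ℝ) (hr : 0 ≤ r)
    (hright : ∀ m, (code (L (t0 + m) (2 ^ m * k0)) (L (t0 + m) (2 ^ m * k0 + 1))).1.1 y ≤ r)
    (hleft : ∀ m, 1 ≤ k0 →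
      (code (L (t0 + m) (2 ^ m * k0 - 1)) (L (t0 + m) (2 ^ m * k0))).2.1 y ≤ r) :
    dist (Qr code L lam y) (hub code L t0 k0 (fun m => L (t0 + m) (2 ^ m * k0)) y) ≤ r ∧
    dist (Ql code L lam y) (hub code L t0 k0 (fun m => L (t0 + m) (2 ^ m * k0)) y) ≤ r := by
  set H := hub code L t0 k0 (fun m => L (t0 + m) (2 ^ m * k0)) y with hH
  have hHy : H.y = y := rfl
  have hHx : H.x = lam := hlam.symm
  have hfin : ∀ t, t < t0 → H.cell t = .e ⌊(lam : ℝ) * 2 ^ t⌋₊ (L t ⌊(lam : ℝ) * 2 ^ t⌋₊)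
      (L t (⌊(lam : ℝ) * 2 ^ t⌋₊ + 1)) := by
    intro t ht
    rw [hlam]
    simp only [hH, hub, if_pos ht]
  have hinf : ∀ m, H.cell (t0 + m) = .v (2 ^ m * k0) (L (t0 + m) (2 ^ m * k0)) := by
    intro m
    simp only [hH, hub, if_neg (not_lt.2 (Nat.le_add_right t0 m)), Nat.add_sub_cancel_left]
  have hl0 : (0 : ℝ) ≤ lam := lam.2.1
  -- the right point
  have hQrcell : ∀ m, (Qr code L lam y).cell (t0 + m) =
      .e (2 ^ m * k0) (L (t0 + m) (2 ^ m * k0)) (L (t0 + m) (2 ^ m * k0 + 1)) := by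
    intro m
    simp only [Qr]
    rw [qpts_mul_pow hlam m, Nat.floor_natCast]
  have hR : ∀ m k a, |(Qr code L lam y).wt (t0 + m) k a - H.wt (t0 + m) k a| ≤ r := by
    intro m k a
    refine (qpts_right code (hQrcell m) (hinf m) ?_ k a).trans (hright m)
    show (lam : ℝ) * 2 ^ (t0 + m) - _ = 0
    rw [qpts_mul_pow hlam m, sub_self]
  constructor
  · rw [Pt.dist_le_iff hr]
    refine ⟨?_, ?_, ?_⟩
    · rw [hHy]; show dist y y ≤ r; rw [dist_self]; exact hr
    · rw [hHx]; show |(lam : ℝ) - lam| ≤ r; rw [sub_self, abs_zero]; exact hr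
    · intro t k a
      rcases lt_or_ge t t0 with ht | ht
      · refine (Pt.wt_sub_le_of_cell (p := Qr code L lam y) (q := H) ?_ k a).trans ?_
        · rw [hfin t ht]; rfl
        · rw [hHx, hHy]
          show dist y y + |(lam : ℝ) - lam| ≤ r
          rw [dist_self, sub_self, abs_zero, add_zero]; exact hr
      · obtain ⟨m, rfl⟩ := Nat.exists_eq_add_of_le ht
        exact qpts_half_mul (hR m k a)
  · rw [Pt.dist_le_iff hr]
    refine ⟨?_, ?_, ?_⟩
    · rw [hHy]; show dist y y ≤ r; rw [dist_self]; exact hr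
    · rw [hHx]; show |(lam : ℝ) - lam| ≤ r; rw [sub_self, abs_zero]; exact hr
    · intro t k a
      rcases lt_or_ge t t0 with ht | ht
      · refine (Pt.wt_sub_le_of_cell (p := Ql code L lam y) (q := H) ?_ k a).trans ?_
        · rw [hfin t ht]
          simp only [Ql]
          rw [qpts_ceil_sub (by positivity)]
          intro n hn
          rcases h0 with h0 | h0
          · omega
          · obtain ⟨m, hm⟩ := Nat.exists_eq_add_of_lt ht
            rw [hlam, hm] at hn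
            have h4 : (k0 : ℝ) = n * 2 ^ (m + 1) := by
              rw [← hn, show t + m + 1 = t + (m + 1) by ring, pow_add]
              field_simp
            have h5 : k0 = n * 2 ^ (m + 1) := by exact_mod_cast h4
            have h6 : Even k0 := by
              rw [h5, pow_succ]
              exact ⟨n * 2 ^ m, by ring⟩
            exact (Nat.not_even_iff_odd.2 h0) h6
        · rw [hHx, hHy]
          show dist y y + |(lam : ℝ) - lam| ≤ r
          rw [dist_self, sub_self, abs_zero, add_zero]; exact hr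
      · obtain ⟨m, rfl⟩ := Nat.exists_eq_add_of_le ht
        refine qpts_half_mul ?_
        have hcellL : (Ql code L lam y).cell (t0 + m) =
            .e (2 ^ m * k0 - 1) (L (t0 + m) (2 ^ m * k0 - 1))
              (L (t0 + m) (2 ^ m * k0 - 1 + 1)) := by
          simp only [Ql]
          rw [qpts_mul_pow hlam m, Nat.ceil_natCast]
        rcases Nat.eq_zero_or_pos k0 with hk | hk
        · -- the same as the right point
          have h6 : (Ql code L lam y).cell (t0 + m) = (Qr code L lam y).cell (t0 + m) := by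
            rw [hcellL, hQrcell, hk]
            simp
          have h7 : (Ql code L lam y).wt (t0 + m) k a = (Qr code L lam y).wt (t0 + m) k a := by
            unfold Pt.wt
            rw [h6]
            rfl
          rw [h7]
          exact hR m k a
        · have h8 : 1 ≤ 2 ^ m * k0 := Nat.one_le_iff_ne_zero.2 (by positivity)
          have h9 : 2 ^ m * k0 - 1 + 1 = 2 ^ m * k0 := by omega
          rw [h9] at hcellL
          have hH2 : H.cell (t0 + m) = .v (2 ^ m * k0 - 1 + 1) (L (t0 + m) (2 ^ m * k0)) := by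
            rw [h9]; exact hinf m
          refine (qpts_left code hcellL hH2 ?_ k a).trans (hleft m hk)
          show (lam : ℝ) * 2 ^ (t0 + m) - _ = 1
          rw [qpts_mul_pow hlam m, Nat.cast_sub h8]
          simp

theorem Ql_eq_Qr (L : ℕ → ℕ → K) (lam : unitInterval) (y : Y)
    (h : ∀ t k : ℕ, (lam : ℝ) * 2 ^ t ≠ k) :
    Ql code L lam y = Qr code L lam y := by
  refine Pt.ext' rfl rfl fun t => ?_
  simp only [Ql, Qr]
  rw [qpts_ceil_sub (mul_nonneg lam.2.1 (by positivity)) (h t)]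

theorem qpts_eventually (lam : ℝ) (N : ℕ) : ∃ δ > 0, ∀ s : ℝ, |s - lam| < δ →
    ∀ t < N, (s * 2 ^ t < (⌊lam * 2 ^ t⌋₊ : ℝ) + 1) ∧
      (0 < lam → ((⌈lam * 2 ^ t⌉₊ - 1 : ℕ) : ℝ) < s * 2 ^ t) := by
  have h : ∀ᶠ s in nhds lam, ∀ t ∈ Set.Iio N, (s * 2 ^ t < (⌊lam * 2 ^ t⌋₊ : ℝ) + 1) ∧
      (0 < lam → ((⌈lam * 2 ^ t⌉₊ - 1 : ℕ) : ℝ) < s * 2 ^ t) := by
    rw [Filter.eventually_all_finite (Set.finite_Iio N)]
    intro t _
    have hc : Continuous (fun s : ℝ => s * 2 ^ t) := by fun_prop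
    refine Filter.Eventually.and ?_ ?_
    · exact hc.continuousAt.eventually_lt continuousAt_const (Nat.lt_floor_add_one _)
    · by_cases hl : 0 < lam
      · have h1 : ((⌈lam * 2 ^ t⌉₊ - 1 : ℕ) : ℝ) < lam * 2 ^ t := by
          have h2 : 0 < ⌈lam * 2 ^ t⌉₊ := Nat.ceil_pos.2 (by positivity)
          rw [Nat.cast_sub h2]
          have := Nat.ceil_lt_add_one (show 0 ≤ lam * 2 ^ t by positivity)
          push_cast
          linarith
        exact (continuousAt_const.eventually_lt hc.continuousAt h1).mono fun s hs _ => hs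
      · exact Filter.Eventually.of_forall fun s h => absurd h hl
  rw [Metric.eventually_nhds_iff] at h
  obtain ⟨δ, hδ, h⟩ := h
  exact ⟨δ, hδ, fun s hs t ht => h (by rw [Real.dist_eq]; exact hs) t ht⟩

theorem Q_usc (L : ℕ → ℕ → K) (lam : unitInterval) (y : Y) (ε : ℝ) (hε : 0 < ε) :
    ∃ δ > 0, ∀ (lam' : unitInterval) (y' : Y), |(lam' : ℝ) - lam| < δ → dist y' y < δ →
      (dist (Ql code L lam' y') (Ql code L lam y) < ε ∨
        dist (Ql code L lam' y') (Qr code L lam y) < ε) ∧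
      (dist (Qr code L lam' y') (Ql code L lam y) < ε ∨
        dist (Qr code L lam' y') (Qr code L lam y) < ε) := by
  obtain ⟨N, hN⟩ := exists_pow_lt_of_lt_one hε (show (1 / 2 : ℝ) < 1 by norm_num)
  obtain ⟨δ, hδ, h⟩ := qpts_eventually (lam : ℝ) N
  refine ⟨min δ (ε / 2), lt_min hδ (by linarith), ?_⟩
  intro lam' y' hl hy
  have hl1 := lt_of_lt_of_le hl (min_le_left _ _)
  have hl2 := lt_of_lt_of_le hl (min_le_right _ _)
  have hy2 := lt_of_lt_of_le hy (min_le_right _ _)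
  have main : ∀ (p q : Pt Y K code), p.y = y' → q.y = y → p.x = lam' → q.x = lam →
      (∀ t < N, p.cell t = q.cell t) → dist p q < ε := by
    intro p q h1 h2 h3 h4 h5
    refine (Pt.dist_le_of_cells N h5).trans_lt ?_
    rw [h1, h2, h3, h4]
    exact max_lt (by linarith) hN
  have hh := h (lam' : ℝ) hl1
  rcases lt_trichotomy (lam' : ℝ) lam with hlt | heq | hgt
  · -- all the cells are those of the left point
    have hpos : (0 : ℝ) < lam := lt_of_le_of_lt lam'.2.1 hlt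
    have hc : ∀ t < N, ⌊(lam' : ℝ) * 2 ^ t⌋₊ = ⌈(lam : ℝ) * 2 ^ t⌉₊ - 1 ∧
        ⌈(lam' : ℝ) * 2 ^ t⌉₊ - 1 = ⌈(lam : ℝ) * 2 ^ t⌉₊ - 1 := by
      intro t ht
      refine qpts_floor_ceil ((hh t ht).2 hpos) ?_
      have h2 : 0 < ⌈(lam : ℝ) * 2 ^ t⌉₊ := Nat.ceil_pos.2 (by positivity)
      rw [Nat.cast_sub h2]
      have h3 := Nat.le_ceil ((lam : ℝ) * 2 ^ t)
      have h4 : (lam' : ℝ) * 2 ^ t < lam * 2 ^ t := mul_lt_mul_of_pos_right hlt (by positivity)
      push_cast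
      linarith
    constructor
    · left
      refine main _ _ rfl rfl rfl rfl fun t ht => ?_
      simp only [Ql]
      rw [(hc t ht).2]
    · left
      refine main _ _ rfl rfl rfl rfl fun t ht => ?_
      simp only [Ql, Qr]
      rw [(hc t ht).1]
  · have e : lam' = lam := Subtype.ext heq
    subst e
    constructor
    · left
      exact main _ _ rfl rfl rfl rfl fun t ht => rfl
    · right
      exact main _ _ rfl rfl rfl rfl fun t ht => rfl
  · have hc : ∀ t < N, ⌊(lam' : ℝ) * 2 ^ t⌋₊ = ⌊(lam : ℝ) * 2 ^ t⌋₊ ∧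
        ⌈(lam' : ℝ) * 2 ^ t⌉₊ - 1 = ⌊(lam : ℝ) * 2 ^ t⌋₊ := by
      intro t ht
      refine qpts_floor_ceil ?_ (hh t ht).1
      have h0 : (0 : ℝ) ≤ lam := lam.2.1
      have h3 := Nat.floor_le (show 0 ≤ (lam : ℝ) * 2 ^ t by positivity)
      have h4 : (lam : ℝ) * 2 ^ t < lam' * 2 ^ t := mul_lt_mul_of_pos_right hgt (by positivity)
      linarith
    constructor
    · right
      refine main _ _ rfl rfl rfl rfl fun t ht => ?_
      simp only [Ql, Qr]
      rw [(hc t ht).2]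
    · right
      refine main _ _ rfl rfl rfl rfl fun t ht => ?_
      simp only [Qr]
      rw [(hc t ht).1]

end Pool.Agent.Gap
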