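import Pool.Agent.Gap.Rho
import Pool.Agent.Gap.Fusion
import Pool.Agent.Gap.Hub
import Pool.Agent.Gap.QPts

set_option autoImplicit false

open Set TopologicalSpace

namespace Pool.Agent.Gap

/-- Half of a function, cut at `1 / 4`. -/
noncomputable def halfLip {Y : Type} [MetricSpace Y] (θ : Lip Y 1) : Lip Y (1 / 4) :=
  ⟨fun y => min (1 / 4) (θ.1 y / 2), by
    constructor
    · intro y y'
      have h := θ.lip y y'
      have hd : 0 ≤ dist y y' := dist_nonneg
      show min (1 / 4) (θ.1 y / 2) ≤ min (1 / 4) (θ.1 y' / 2) + dist y y'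
      rcases le_total (1 / 4) (θ.1 y' / 2) with h1 | h1
      · rw [min_eq_left h1]
        exact (min_le_left _ _).trans (by linarith)
      · rw [min_eq_right h1]
        exact (min_le_right _ _).trans (by linarith)
    · intro y
      have := θ.pos y
      exact ⟨lt_min (by norm_num) (by linarith), min_le_left _ _⟩⟩

theorem halfLip_le {Y : Type} [MetricSpace Y] (θ : Lip Y 1) (y : Y) :
    (halfLip θ).1 y ≤ θ.1 y / 2 := min_le_right _ _

section

variable {Y K : Type} [MetricSpace Y] (code : K → K → Code Y)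

theorem step_isOpen {κ : Type} [Fintype κ] (L : ℕ → ℕ → K)
    (O : Set (Pt Y K code × (κ → unitInterval))) (hO : IsOpen O) :
    IsOpen {p : Y × (Option κ → unitInterval) |
      (Ql code L (p.2 none) p.1, fun j => p.2 (some j)) ∈ O ∧
      (Qr code L (p.2 none) p.1, fun j => p.2 (some j)) ∈ O} := by
  rw [Metric.isOpen_iff]
  rintro ⟨y, z⟩ ⟨h1, h2⟩
  rw [Metric.isOpen_iff] at hO
  obtain ⟨ε1, hε1, hb1⟩ := hO _ h1
  obtain ⟨ε2, hε2, hb2⟩ := hO _ h2
  obtain ⟨δ, hδ, hQ⟩ := Q_usc code L (z none) y (min ε1 ε2) (lt_min hε1 hε2)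
  refine ⟨min δ (min ε1 ε2), lt_min hδ (lt_min hε1 hε2), ?_⟩
  rintro ⟨y', z'⟩ hp
  rw [Metric.mem_ball, Prod.dist_eq, max_lt_iff] at hp
  obtain ⟨hy, hz⟩ := hp
  have hz1 : ∀ o, dist (z' o) (z o) < min δ (min ε1 ε2) := fun o =>
    (dist_le_pi_dist z' z o).trans_lt hz
  have hlam : |((z' none : unitInterval) : ℝ) - (z none : unitInterval)| < δ := by
    have := (hz1 none).trans_le (min_le_left _ _)
    rwa [Subtype.dist_eq, Real.dist_eq] at this
  obtain ⟨q1, q2⟩ := hQ (z' none) y' hlam (hy.trans_le (min_le_left _ _))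
  have hzz : dist (fun j => z' (some j)) (fun j => z (some j)) < min ε1 ε2 := by
    rw [dist_pi_lt_iff (lt_min hε1 hε2)]
    intro j
    exact (hz1 (some j)).trans_le (min_le_right _ _)
  have key : ∀ q : Pt Y K code,
      (dist q (Ql code L (z none) y) < min ε1 ε2 ∨ dist q (Qr code L (z none) y) < min ε1 ε2) →
      (q, fun j => z' (some j)) ∈ O := by
    rintro q (h | h)
    · apply hb1
      rw [Metric.mem_ball, Prod.dist_eq]
      exact max_lt (h.trans_le (min_le_left _ _)) (hzz.trans_le (min_le_left _ _))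
    · apply hb2
      rw [Metric.mem_ball, Prod.dist_eq]
      exact max_lt (h.trans_le (min_le_right _ _)) (hzz.trans_le (min_le_right _ _))
  exact ⟨key _ q1, key _ q2⟩

end

theorem step {Y : Type} [MetricSpace Y] (D : Lab (Lip Y 1) (Code Y)) {ι : Type}
    (A B : ι → Set Y) (h : StEss Y ι A B) :
    StEss (Pt Y D.K D.code) (Option ι)
      (fun o => o.elim {p | p.x = 0} (fun i => {p | p.y ∈ A i}))
      (fun o => o.elim {p | p.x = 1} (fun i => {p | p.y ∈ B i})) := by
  intro κ _ U V hU hV hd hA hB h0 h1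
  by_contra hcon
  have hcov : ∀ p, ∃ i, p ∈ U i ∨ p ∈ V i := by
    intro p
    by_contra hp
    apply hcon
    refine ⟨p, fun i => ?_⟩
    rw [not_exists] at hp
    exact not_or.1 (hp i)
  obtain ⟨ρ, ρlip, ρpos, ρcov⟩ := exists_rho
    (X := Pt Y D.K D.code) (Z := κ → unitInterval) (ι := (Option ι ⊕ κ) × Bool)
    (fun j => if j.2 then U j.1 else V j.1)
    (by
      rintro ⟨i, b⟩
      cases b
      · exact hV i
      · exact hU i)
    (by
      intro p
      obtain ⟨i, hi | hi⟩ := hcov p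
      · exact ⟨(i, true), hi⟩
      · exact ⟨(i, false), hi⟩)
  obtain ⟨L, T, hT, hcode, hR⟩ := fusion D (fun θ θ' => (halfLip θ, halfLip θ'))
    (fun t k L θ ξ => ∀ y, θ.1 y ≤ ρ (hub D.code L t k ξ y))
    (by
      intro t k L L' θ ξ hL hθ y
      rw [← hub_congr D.code L L' t k ξ y hL]
      exact hθ y)
    (by
      intro t k L θ ξ hθ y
      have key : ∀ m : ℕ, θ.1 y ≤ ρ (hub D.code L t k ξ y) + (1 / 2) ^ m := by
        intro m
        obtain ⟨ξ', h1, h2⟩ := hθ m
        have h3 := h1 y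
        have h4 := ρlip (hub D.code L t k ξ' y) (hub D.code L t k ξ y)
        have h5 := hub_dist_seq D.code L t k m ξ' ξ y h2
        linarith
      have hlim : Filter.Tendsto (fun m : ℕ => ρ (hub D.code L t k ξ y) + (1 / 2 : ℝ) ^ m)
          Filter.atTop (nhds (ρ (hub D.code L t k ξ y) + 0)) :=
        tendsto_const_nhds.add
          (tendsto_pow_atTop_nhds_zero_of_lt_one (by norm_num) (by norm_num))
      rw [add_zero] at hlim
      exact ge_of_tendsto' hlim key)
    (by
      intro t k L ξ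
      refine ⟨⟨fun y => ρ (hub D.code L t k ξ y), ?_, fun y => ρpos _⟩, fun y => le_rfl⟩
      intro y y'
      have h1 := ρlip (hub D.code L t k ξ y) (hub D.code L t k ξ y')
      have h2 := hub_dist_y D.code L t k ξ y y'
      linarith)
  have hT' : ∀ m t k, T (t + m) (2 ^ m * k) = T t k := by
    intro m
    induction m with
    | zero => intro t k; simp
    | succ m ih =>
      intro t k
      rw [← ih t k, ← hT (t + m) (2 ^ m * k)]
      congr 1
      ring
  -- transported sets
  let W : Set (Pt Y D.K D.code × (κ → unitInterval)) → Set (Y × (Option κ → unitInterval)) :=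
    fun O => {p | (Ql D.code L (p.2 none) p.1, fun j => p.2 (some j)) ∈ O ∧
      (Qr D.code L (p.2 none) p.1, fun j => p.2 (some j)) ∈ O}
  let idx : ι ⊕ Option κ → Option ι ⊕ κ :=
    Sum.elim (fun i => Sum.inl (some i)) (fun o => o.elim (Sum.inl none) Sum.inr)
  have hidx : ∀ i, ∃ s, idx s = i := by
    rintro ((_ | i) | j)
    · exact ⟨Sum.inr none, rfl⟩
    · exact ⟨Sum.inl i, rfl⟩
    · exact ⟨Sum.inr (some j), rfl⟩
  obtain ⟨p, hp⟩ := h (Option κ) (fun s => W (U (idx s))) (fun s => W (V (idx s)))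
    (fun s => step_isOpen D.code L _ (hU _)) (fun s => step_isOpen D.code L _ (hV _))
    (fun s => by
      rw [Set.disjoint_left]
      rintro p ⟨h2, -⟩ ⟨h3, -⟩
      exact Set.disjoint_left.1 (hd (idx s)) h2 h3)
    (fun i p hpA => ⟨hA (some i) _ hpA, hA (some i) _ hpA⟩)
    (fun i p hpB => ⟨hB (some i) _ hpB, hB (some i) _ hpB⟩)
    (by
      rintro (_ | j) p hj
      · have e : ((p.2 none : unitInterval) : ℝ) = 0 := by rw [hj]; rfl
        exact ⟨hA none _ e, hA none _ e⟩
      · exact ⟨h0 j _ hj, h0 j _ hj⟩)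
    (by
      rintro (_ | j) p hj
      · have e : ((p.2 none : unitInterval) : ℝ) = 1 := by rw [hj]; rfl
        exact ⟨hB none _ e, hB none _ e⟩
      · exact ⟨h1 j _ hj, h1 j _ hj⟩)
  set z : κ → unitInterval := fun j => p.2 (some j) with hz
  set lam : unitInterval := p.2 none with hlam
  -- both points cannot be in one member
  have hno : ∀ i b, ¬ ((Ql D.code L lam p.1, z) ∈ (if b = true then U i else V i) ∧
      (Qr D.code L lam p.1, z) ∈ (if b = true then U i else V i)) := by
    intro i b hb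
    obtain ⟨s, hs⟩ := hidx i
    cases b
    · apply (hp s).2
      rw [← hs] at hb
      exact hb
    · apply (hp s).1
      rw [← hs] at hb
      exact hb
  by_cases hdy : ∃ t, ∃ k : ℕ, (lam : ℝ) * 2 ^ t = k
  · classical
    obtain ⟨k, hk⟩ := Nat.find_spec hdy
    set t := Nat.find hdy with ht
    have hmin : ∀ t' < t, ¬ ∃ k : ℕ, (lam : ℝ) * 2 ^ t' = k := fun t' h' => Nat.find_min hdy h'
    have hnew : t = 0 ∨ Odd k := by
      rcases Nat.eq_zero_or_pos t with h | h
      · exact Or.inl h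
      · right
        by_contra hodd
        rw [Nat.not_odd_iff_even] at hodd
        obtain ⟨k', hk'⟩ := hodd
        apply hmin (t - 1) (by omega)
        refine ⟨k', ?_⟩
        have e : (2 : ℝ) ^ t = 2 * 2 ^ (t - 1) := by
          conv_lhs => rw [show t = (t - 1) + 1 by omega, pow_succ]
          ring
        rw [e, hk'] at hk
        push_cast at hk
        linarith
    have hle : (lam : ℝ) = k / 2 ^ t := by
      rw [← hk]; field_simp
    have hρ := hR t k hnew p.1
    have hTpos := (T t k).pos p.1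
    have hc1 : ∀ m, (D.code (L (t + m) (2 ^ m * k)) (L (t + m) (2 ^ m * k + 1))).1.1 p.1 ≤
        (T t k).1 p.1 / 2 := by
      intro m
      rw [hcode]
      show (halfLip (T (t + m) (2 ^ m * k))).1 p.1 ≤ _
      rw [hT']
      exact halfLip_le _ _
    have hc2 : ∀ m, 1 ≤ k →
        (D.code (L (t + m) (2 ^ m * k - 1)) (L (t + m) (2 ^ m * k))).2.1 p.1 ≤
        (T t k).1 p.1 / 2 := by
      intro m hk1
      have e : 2 ^ m * k = (2 ^ m * k - 1) + 1 := by
        have : 1 ≤ 2 ^ m * k := Nat.one_le_iff_ne_zero.2 (by positivity)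
        omega
      have e2 : (D.code (L (t + m) (2 ^ m * k - 1)) (L (t + m) (2 ^ m * k))) =
          (halfLip (T (t + m) (2 ^ m * k - 1)), halfLip (T (t + m) (2 ^ m * k))) := by
        conv_lhs => rw [e]
        rw [Nat.add_sub_cancel, hcode]
        rw [← e]
      rw [e2]
      show (halfLip (T (t + m) (2 ^ m * k))).1 p.1 ≤ _
      rw [hT']
      exact halfLip_le _ _
    obtain ⟨n1, n2⟩ := Q_near_hub D.code L t k hnew lam hle p.1 ((T t k).1 p.1 / 2)
      (by linarith) hc1 hc2
    obtain ⟨⟨i, b⟩, hib⟩ := ρcov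
      (hub D.code L t k (fun m => L (t + m) (2 ^ m * k)) p.1) z
    exact hno i b ⟨hib _ (by linarith), hib _ (by linarith)⟩
  · have hdy' : ∀ t k : ℕ, (lam : ℝ) * 2 ^ t ≠ k := by
      intro t k e; exact hdy ⟨t, k, e⟩
    have e := Ql_eq_Qr D.code L lam p.1 hdy'
    obtain ⟨i, hi | hi⟩ := hcov (Ql D.code L lam p.1, z)
    · exact hno i true ⟨hi, e ▸ hi⟩
    · exact hno i false ⟨hi, e ▸ hi⟩

end Pool.Agent.Gap
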