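import Pool.Agent.Gap.Cube
import Pool.Agent.Gap.LabBase
import Pool.Agent.Gap.Complete
import Pool.Agent.Gap.Clopen
import Pool.Agent.Gap.Step
import Pool.Agent.Gap.IndLower
import Pool.Agent.Gap.IndUpper
import Pool.Agent.Gap.UpperC
import Pool.Agent.Gap.Power

set_option autoImplicit false

open Set TopologicalSpace

namespace Pool.Agent.Gap

theorem base_StEss : StEss PUnit Empty (fun e => e.elim) (fun e => e.elim) := by
  intro κ _ U V hU hV hd _ _ h0 h1
  have hc : Continuous (fun z : κ → unitInterval => ((PUnit.unit, z) : PUnit × (κ → unitInterval))) := by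
    fun_prop
  obtain ⟨z, hz⟩ := cube κ
    (fun j => {z | ((PUnit.unit, z) : PUnit × (κ → unitInterval)) ∈ U (Sum.inr j)})
    (fun j => {z | ((PUnit.unit, z) : PUnit × (κ → unitInterval)) ∈ V (Sum.inr j)})
    (fun j => (hU _).preimage hc) (fun j => (hV _).preimage hc)
    (fun j => by
      rw [Set.disjoint_left]
      intro z h2 h3
      exact Set.disjoint_left.1 (hd (Sum.inr j)) h2 h3)
    (fun j z hj => h0 j (PUnit.unit, z) hj) (fun j z hj => h1 j (PUnit.unit, z) hj)
  refine ⟨(PUnit.unit, z), ?_⟩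
  rintro (e | j)
  · exact e.elim
  · exact hz j

theorem isTopologicalBasis_clopen_of_inducing {X X' : Type} [TopologicalSpace X]
    [TopologicalSpace X'] {f : X → X'} (hf : Topology.IsInducing f)
    (h : IsTopologicalBasis {s : Set X' | IsClopen s}) :
    IsTopologicalBasis {s : Set X | IsClopen s} := by
  refine isTopologicalBasis_of_isOpen_of_nhds (fun s hs => hs.2) ?_
  intro a u ha hu
  obtain ⟨u', hu', rfl⟩ := hf.isOpen_iff.1 hu
  obtain ⟨s, hs, has, hsu⟩ := h.exists_subset_of_mem_open (a := f a) (u := u') ha hu'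
  refine ⟨f ⁻¹' s, ?_, has, fun x hx => hsu hx⟩
  exact IsClopen.preimage hs hf.continuous

instance nonempty_code (Y : Type) [MetricSpace Y] : Nonempty (Code Y) :=
  ⟨(⟨fun _ => 1 / 4, fun _ _ => by simpa using dist_nonneg, fun _ => by norm_num⟩,
    ⟨fun _ => 1 / 4, fun _ _ => by simpa using dist_nonneg, fun _ => by norm_num⟩)⟩

theorem tower (n : ℕ) : ∃ (X : Type) (_ : MetricSpace X) (ι : Type) (_ : Fintype ι)
    (A B : ι → Set X),
    CompleteSpace X ∧ IsTopologicalBasis {s : Set X | IsClopen s} ∧ Fintype.card ι = n ∧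
    (∀ i, IsClosed (A i)) ∧ (∀ i, IsClosed (B i)) ∧ (∀ i, Disjoint (A i) (B i)) ∧
    StEss X ι A B ∧
    ∃ (m : ℕ) (S : Fin m → Set X), (∀ j, SZ (S j)) ∧ ⋃ j, S j = univ := by
  induction n with
  | zero =>
    refine ⟨PUnit, inferInstance, Empty, inferInstance, fun e => e.elim, fun e => e.elim,
      inferInstance, ?_, rfl, fun e => e.elim, fun e => e.elim, fun e => e.elim, base_StEss, ?_⟩
    · refine isTopologicalBasis_of_isOpen_of_nhds (fun s hs => hs.2) ?_
      intro a u ha hu
      exact ⟨u, isClopen_discrete u, ha, subset_rfl⟩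
    · refine ⟨1, fun _ => univ, fun _ A B _ _ hAB => ⟨A, isClopen_discrete A, subset_rfl, hAB⟩, ?_⟩
      exact iUnion_const univ
  | succ n ih =>
    obtain ⟨X, _, ι, _, A, B, hX, hb, hcard, hA, hB, hd, hess, m, S, hS, hcS⟩ := ih
    obtain ⟨D⟩ := exists_lab (Lip X 1) (Code X)
    refine ⟨Pt X D.K D.code, inferInstance, Option ι, inferInstance,
      fun o => o.elim {p | p.x = 0} (fun i => {p | p.y ∈ A i}),
      fun o => o.elim {p | p.x = 1} (fun i => {p | p.y ∈ B i}),
      complete_pt D.code, clopen_basis_pt D.code hb, by simp [hcard], ?_, ?_, ?_,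
      step D A B hess, Pt_cover D.code m S hS hcS⟩
    · rintro (_ | i)
      · exact isClosed_eq Pt.continuous_x continuous_const
      · exact (hA i).preimage Pt.continuous_y
    · rintro (_ | i)
      · exact isClosed_eq Pt.continuous_x continuous_const
      · exact (hB i).preimage Pt.continuous_y
    · rintro (_ | i)
      · rw [Set.disjoint_left]
        intro p (h1 : p.x = 0) (h2 : p.x = 1)
        rw [h1] at h2
        norm_num at h2
      · rw [Set.disjoint_left]
        intro p h1 h2
        exact Set.disjoint_left.1 (hd i) h1 h2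

theorem gap (n : ℕ) : ∃ (X : Type) (_ : MetricSpace X), CompleteSpace X ∧
    IsTopologicalBasis {s : Set X | IsClopen s} ∧ IndLT (n + 1) X ∧ ¬ IndLT n X := by
  obtain ⟨X, _, ι, _, A, B, hX, hb, hcard, hA, hB, hd, hess, m, S, hS, hcS⟩ := tower n
  have hn : ¬ IndLT n X := hcard ▸ hess.not_IndLT hA hB hd
  obtain ⟨F, hF, h1, h2⟩ := exists_exact m n (IndLT_of_cover m S hS hcS) hn
  exact ⟨F, inferInstance, hF.completeSpace_coe,
    isTopologicalBasis_clopen_of_inducing Topology.IsInducing.subtypeVal hb, h1, h2⟩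

theorem no_countable_trInd : ∃ (X : Type) (_ : MetricSpace X), CompleteSpace X ∧
    IsTopologicalBasis {s : Set X | IsClopen s} ∧
    ∀ F : ℕ → Set X, (∀ j, IsClosed (F j)) → (∀ j, ∃ α, TrIndLT α (F j)) →
      ⋃ j, F j ≠ univ := by
  choose X hX h using gap
  haveI : ∀ n, CompleteSpace (X n) := fun n => (h n).1
  exact power_space X (fun n => (h n).2.1) (fun n => (h n).2.2.2)

end Pool.Agent.Gap
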