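import Pool.Agent.Gap.Defs

set_option autoImplicit false

open Set TopologicalSpace

namespace Pool.Agent.Gap

namespace Pt

variable {Y K : Type} [MetricSpace Y] {code : K → K → Code Y}

theorem wt_nonneg (p : Pt Y K code) (t k : ℕ) (a : K) : 0 ≤ p.wt t k a :=
  Cell.wt_nonneg (p.fits t) p.y k a

theorem wt_le_one (p : Pt Y K code) (t k : ℕ) (a : K) : p.wt t k a ≤ 1 :=
  Cell.wt_le_one (p.fits t) p.y k a

theorem wt_of_v {p : Pt Y K code} {t k : ℕ} {a : K} (h : p.cell t = .v k a) :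
    p.wt t k a = 1 := by
  unfold wt; rw [h]; exact Cell.wt_v_self _ _ _ _ _

theorem wt_of_v_ne {p : Pt Y K code} {t k k' : ℕ} {a a' : K} (h : p.cell t = .v k' a')
    (hne : ¬ (k = k' ∧ a = a')) : p.wt t k a = 0 := by
  unfold wt; rw [h]; exact Cell.wt_v_of_ne _ _ _ _ _ _ _ hne

theorem wt_of_e_left {p : Pt Y K code} {t k : ℕ} {a b : K} (h : p.cell t = .e k a b) :
    p.wt t k a = 1 - sval (code a b) p.y (p.x * 2 ^ t - k) := by
  unfold wt; rw [h]; exact Cell.wt_e_left _ _ _ _ _ _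

theorem wt_of_e_right {p : Pt Y K code} {t k : ℕ} {a b : K} (h : p.cell t = .e k a b) :
    p.wt t (k + 1) b = sval (code a b) p.y (p.x * 2 ^ t - k) := by
  unfold wt; rw [h]; exact Cell.wt_e_right _ _ _ _ _ _

theorem wt_of_e_ne {p : Pt Y K code} {t k k' : ℕ} {a a' b' : K} (h : p.cell t = .e k' a' b')
    (h1 : ¬ (k = k' ∧ a = a')) (h2 : ¬ (k = k' + 1 ∧ a = b')) : p.wt t k a = 0 := by
  unfold wt; rw [h]; exact Cell.wt_e_of_ne _ _ _ _ _ _ _ _ h1 h2

theorem fits_e {p : Pt Y K code} {t k : ℕ} {a b : K} (h : p.cell t = .e k a b) :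
    0 ≤ p.x * 2 ^ t - k ∧ p.x * 2 ^ t - k ≤ 1 := by
  have := p.fits t
  rw [h] at this
  exact this.mem

theorem fits_v {p : Pt Y K code} {t k : ℕ} {a : K} (h : p.cell t = .v k a) :
    p.x * 2 ^ t = k := by
  have := p.fits t
  rw [h] at this
  exact this

/-- If both ends of an edge have positive weight, the cell is that edge. -/
theorem cell_eq_e_iff {p : Pt Y K code} {t k : ℕ} {a b : K} :
    p.cell t = .e k a b ↔ 0 < p.wt t k a ∧ 0 < p.wt t (k + 1) b := by
  constructor
  · intro h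
    rw [wt_of_e_left h, wt_of_e_right h]
    have := fits_e h
    constructor
    · have := sval_lt_one (code a b) p.y this.2
      linarith
    · exact sval_pos _ _ this.1
  · rintro ⟨h1, h2⟩
    rcases hc : p.cell t with ⟨k', a'⟩ | ⟨k', a', b'⟩
    · exfalso
      have e1 : k = k' ∧ a = a' := by
        by_contra hne; rw [wt_of_v_ne hc hne] at h1; exact lt_irrefl _ h1
      have e2 : k + 1 = k' ∧ b = a' := by
        by_contra hne; rw [wt_of_v_ne hc hne] at h2; exact lt_irrefl _ h2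
      omega
    · have e1 : (k = k' ∧ a = a') ∨ (k = k' + 1 ∧ a = b') := by
        by_contra hne
        rw [not_or] at hne
        rw [wt_of_e_ne hc hne.1 hne.2] at h1; exact lt_irrefl _ h1
      have e2 : (k + 1 = k' ∧ b = a') ∨ (k + 1 = k' + 1 ∧ b = b') := by
        by_contra hne
        rw [not_or] at hne
        rw [wt_of_e_ne hc hne.1 hne.2] at h2; exact lt_irrefl _ h2
      rcases e1 with ⟨h3, h4⟩ | ⟨h3, h4⟩
      · rcases e2 with ⟨h5, h6⟩ | ⟨h5, h6⟩
        · omega
        · rw [h3, h4, h6]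
      · rcases e2 with ⟨h5, h6⟩ | ⟨h5, h6⟩
        · omega
        · omega

theorem cell_eq_v_iff {p : Pt Y K code} {t k : ℕ} {a : K} :
    p.cell t = .v k a ↔ p.wt t k a = 1 := by
  constructor
  · exact wt_of_v
  · intro h
    rcases hc : p.cell t with ⟨k', a'⟩ | ⟨k', a', b'⟩
    · by_contra hne
      have : ¬ (k = k' ∧ a = a') := by
        rintro ⟨rfl, rfl⟩; exact hne rfl
      rw [wt_of_v_ne hc this] at h
      norm_num at h
    · exfalso
      have hf := fits_e hc
      by_cases e1 : k = k' ∧ a = a'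
      · obtain ⟨rfl, rfl⟩ := e1
        rw [wt_of_e_left hc] at h
        have := sval_pos (code a b') p.y hf.1
        linarith
      · by_cases e2 : k = k' + 1 ∧ a = b'
        · obtain ⟨rfl, rfl⟩ := e2
          rw [wt_of_e_right hc] at h
          have := sval_lt_one (code a' a) p.y hf.2
          linarith
        · rw [wt_of_e_ne hc e1 e2] at h
          norm_num at h

/-- Labelled vertices of all levels. -/
def Idx (K : Type) : Type := ℕ × ℕ × K

instance (K : Type) : TopologicalSpace (Idx K) := ⊥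
instance (K : Type) : DiscreteTopology (Idx K) := ⟨rfl⟩

/-- The embedding which defines the metric. -/
noncomputable def emb (p : Pt Y K code) : Y × ℝ × BoundedContinuousFunction (Idx K) ℝ :=
  (p.y, p.x, BoundedContinuousFunction.ofNormedAddCommGroupDiscrete
    (fun i : Idx K => (1 / 2 : ℝ) ^ i.1 * p.wt i.1 i.2.1 i.2.2) 1 (fun i => by
      have h0 := p.wt_nonneg i.1 i.2.1 i.2.2
      have h1 := p.wt_le_one i.1 i.2.1 i.2.2
      have h2 : (0 : ℝ) < (1 / 2 : ℝ) ^ i.1 := by positivity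
      have h3 : ((1 / 2 : ℝ) ^ i.1) ≤ 1 := pow_le_one₀ (by norm_num) (by norm_num)
      rw [Real.norm_eq_abs, abs_of_nonneg (mul_nonneg h2.le h0)]
      nlinarith))

theorem emb_injective : Function.Injective (emb : Pt Y K code → _) := by
  intro p q h
  have h1 : p.y = q.y := congrArg Prod.fst h
  have h2 : p.x = q.x := congrArg (fun z => z.2.1) h
  have h3 : ∀ t k a, p.wt t k a = q.wt t k a := by
    intro t k a
    have := DFunLike.congr_fun (congrArg (fun z => z.2.2) h) ((t, k, a) : ℕ × ℕ × K)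
    have h4 : (1 / 2 : ℝ) ^ t * p.wt t k a = (1 / 2 : ℝ) ^ t * q.wt t k a := this
    have h5 : (1 / 2 : ℝ) ^ t ≠ 0 := by positivity
    exact mul_left_cancel₀ h5 h4
  refine ext' h1 h2 fun t => ?_
  rcases hc : p.cell t with ⟨k, a⟩ | ⟨k, a, b⟩
  · symm
    rw [cell_eq_v_iff, ← h3, ← cell_eq_v_iff]
    exact hc
  · symm
    rw [cell_eq_e_iff, ← h3, ← h3, ← cell_eq_e_iff]
    exact hc

noncomputable instance : MetricSpace (Pt Y K code) :=
  MetricSpace.induced emb emb_injective inferInstance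

theorem dist_le_iff {p q : Pt Y K code} {r : ℝ} (hr : 0 ≤ r) :
    dist p q ≤ r ↔ dist p.y q.y ≤ r ∧ |p.x - q.x| ≤ r ∧
      ∀ t k a, (1 / 2 : ℝ) ^ t * |p.wt t k a - q.wt t k a| ≤ r := by
  have e : dist p q = dist (emb p) (emb q) := rfl
  rw [e, Prod.dist_eq, Prod.dist_eq, max_le_iff, max_le_iff,
    BoundedContinuousFunction.dist_le hr]
  have e2 : ∀ i : Idx K, dist ((emb p).2.2 i) ((emb q).2.2 i) =
      (1 / 2 : ℝ) ^ i.1 * |p.wt i.1 i.2.1 i.2.2 - q.wt i.1 i.2.1 i.2.2| := by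
    intro i
    have e3 : (emb p).2.2 i = (1 / 2 : ℝ) ^ i.1 * p.wt i.1 i.2.1 i.2.2 := rfl
    have e4 : (emb q).2.2 i = (1 / 2 : ℝ) ^ i.1 * q.wt i.1 i.2.1 i.2.2 := rfl
    rw [e3, e4, Real.dist_eq, ← mul_sub, abs_mul, abs_of_nonneg (by positivity)]
  constructor
  · rintro ⟨h1, h2, h3⟩
    refine ⟨h1, ?_, ?_⟩
    · rw [← Real.dist_eq]; exact h2
    · intro t k a
      have := h3 ((t, k, a) : ℕ × ℕ × K)
      rw [e2] at this
      exact this
  · rintro ⟨h1, h2, h3⟩
    refine ⟨h1, ?_, ?_⟩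
    · show dist p.x q.x ≤ r
      rw [Real.dist_eq]; exact h2
    · intro i
      rw [e2]
      exact h3 _ _ _

theorem dist_y_le (p q : Pt Y K code) : dist p.y q.y ≤ dist p q :=
  ((dist_le_iff dist_nonneg).1 le_rfl).1

theorem abs_x_le (p q : Pt Y K code) : |p.x - q.x| ≤ dist p q :=
  ((dist_le_iff dist_nonneg).1 le_rfl).2.1

theorem wt_sub_le (p q : Pt Y K code) (t k : ℕ) (a : K) :
    |p.wt t k a - q.wt t k a| ≤ 2 ^ t * dist p q := by
  have h := ((dist_le_iff dist_nonneg).1 (le_refl (dist p q))).2.2 t k a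
  have h2 : (2 : ℝ) ^ t * (1 / 2) ^ t = 1 := by rw [← mul_pow]; norm_num
  calc |p.wt t k a - q.wt t k a| = (2 : ℝ) ^ t * ((1 / 2) ^ t * |p.wt t k a - q.wt t k a|) := by
        rw [← mul_assoc, h2, one_mul]
    _ ≤ 2 ^ t * dist p q := mul_le_mul_of_nonneg_left h (by positivity)

theorem continuous_y : Continuous (fun p : Pt Y K code => p.y) := by
  have : LipschitzWith 1 (fun p : Pt Y K code => p.y) :=
    LipschitzWith.of_dist_le_mul fun p q => by simpa using dist_y_le p q
  exact this.continuous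

theorem continuous_x : Continuous (fun p : Pt Y K code => p.x) := by
  have : LipschitzWith 1 (fun p : Pt Y K code => p.x) :=
    LipschitzWith.of_dist_le_mul fun p q => by
      rw [Real.dist_eq]; simpa using abs_x_le p q
  exact this.continuous

theorem continuous_wt (t k : ℕ) (a : K) : Continuous (fun p : Pt Y K code => p.wt t k a) := by
  have : LipschitzWith (2 ^ t) (fun p : Pt Y K code => p.wt t k a) :=
    LipschitzWith.of_dist_le_mul fun p q => by
      rw [Real.dist_eq]; simpa using wt_sub_le p q t k a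
  exact this.continuous

/-- Points with the same cell at level `t` have close weights at level `t`. -/
theorem wt_sub_le_of_cell {p q : Pt Y K code} {t : ℕ} (h : p.cell t = q.cell t) (k : ℕ) (a : K) :
    (1 / 2 : ℝ) ^ t * |p.wt t k a - q.wt t k a| ≤ dist p.y q.y + |p.x - q.x| := by
  have h2 : (0 : ℝ) < (1 / 2 : ℝ) ^ t := by positivity
  have h3 : ((1 / 2 : ℝ) ^ t) ≤ 1 := pow_le_one₀ (by norm_num) (by norm_num)
  have h4 : (1 / 2 : ℝ) ^ t * 2 ^ t = 1 := by rw [← mul_pow]; norm_num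
  have hd : 0 ≤ dist p.y q.y := dist_nonneg
  have hx : 0 ≤ |p.x - q.x| := abs_nonneg _
  rcases hc : p.cell t with ⟨k', a'⟩ | ⟨k', a', b'⟩
  · have hq : q.cell t = .v k' a' := h ▸ hc
    by_cases e1 : k = k' ∧ a = a'
    · obtain ⟨rfl, rfl⟩ := e1
      rw [wt_of_v hc, wt_of_v hq]; simp; positivity
    · rw [wt_of_v_ne hc e1, wt_of_v_ne hq e1]; simp; positivity
  · have hq : q.cell t = .e k' a' b' := h ▸ hc
    have hf := fits_e hc
    have key : (1 / 2 : ℝ) ^ t * |sval (code a' b') p.y (p.x * 2 ^ t - k') -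
        sval (code a' b') q.y (q.x * 2 ^ t - k')| ≤ dist p.y q.y + |p.x - q.x| := by
      have h5 := abs_sval_sub (code a' b') p.y q.y (u' := q.x * 2 ^ t - k') hf.1 hf.2
      have e : |p.x * 2 ^ t - k' - (q.x * 2 ^ t - k')| = |p.x - q.x| * 2 ^ t := by
        rw [show p.x * 2 ^ t - k' - (q.x * 2 ^ t - k') = (p.x - q.x) * 2 ^ t by ring, abs_mul,
          abs_of_nonneg (by positivity : (0 : ℝ) ≤ 2 ^ t)]
      rw [e] at h5
      calc (1 / 2 : ℝ) ^ t * _ ≤ (1 / 2 : ℝ) ^ t * (dist p.y q.y + |p.x - q.x| * 2 ^ t) :=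
            mul_le_mul_of_nonneg_left h5 h2.le
        _ = (1 / 2 : ℝ) ^ t * dist p.y q.y + ((1 / 2 : ℝ) ^ t * 2 ^ t) * |p.x - q.x| := by ring
        _ ≤ dist p.y q.y + |p.x - q.x| := by
            rw [h4, one_mul]
            have : (1 / 2 : ℝ) ^ t * dist p.y q.y ≤ 1 * dist p.y q.y :=
              mul_le_mul_of_nonneg_right h3 hd
            linarith
    by_cases e1 : k = k' ∧ a = a'
    · obtain ⟨rfl, rfl⟩ := e1
      rw [wt_of_e_left hc, wt_of_e_left hq, abs_sub_comm]
      rw [show 1 - sval (code a b') q.y (q.x * 2 ^ t - k) -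
        (1 - sval (code a b') p.y (p.x * 2 ^ t - k)) = sval (code a b') p.y (p.x * 2 ^ t - k) -
          sval (code a b') q.y (q.x * 2 ^ t - k) by ring]
      exact key
    · by_cases e2 : k = k' + 1 ∧ a = b'
      · obtain ⟨rfl, rfl⟩ := e2
        rw [wt_of_e_right hc, wt_of_e_right hq]
        exact key
      · rw [wt_of_e_ne hc e1 e2, wt_of_e_ne hq e1 e2]; simp; positivity

/-- Points with the same cells at the first `N` levels. -/
theorem dist_le_of_cells {p q : Pt Y K code} (N : ℕ) (h : ∀ t < N, p.cell t = q.cell t) :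
    dist p q ≤ max (dist p.y q.y + |p.x - q.x|) ((1 / 2) ^ N) := by
  have hd : 0 ≤ dist p.y q.y := dist_nonneg
  have hx : 0 ≤ |p.x - q.x| := abs_nonneg _
  rw [dist_le_iff (le_max_of_le_left (by positivity))]
  refine ⟨le_max_of_le_left (by linarith), le_max_of_le_left (by linarith), ?_⟩
  intro t k a
  by_cases ht : t < N
  · exact le_max_of_le_left (wt_sub_le_of_cell (h t ht) k a)
  · refine le_max_of_le_right ?_
    have h0 := p.wt_nonneg t k a
    have h1 := p.wt_le_one t k a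
    have h2 := q.wt_nonneg t k a
    have h3 := q.wt_le_one t k a
    have h4 : |p.wt t k a - q.wt t k a| ≤ 1 := by rw [abs_le]; constructor <;> linarith
    calc (1 / 2 : ℝ) ^ t * |p.wt t k a - q.wt t k a| ≤ (1 / 2 : ℝ) ^ t * 1 :=
          mul_le_mul_of_nonneg_left h4 (by positivity)
      _ = (1 / 2 : ℝ) ^ t := mul_one _
      _ ≤ (1 / 2 : ℝ) ^ N :=
          pow_le_pow_of_le_one (by norm_num) (by norm_num) (not_lt.1 ht)

end Pt

end Pool.Agent.Gap
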