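import Mathlib

set_option autoImplicit false

namespace Pool.Agent.Gap

open Finset

/-- Add one to the coordinates in `D`. -/
def cubeUp {n : ℕ} (v : Fin n → ℕ) (D : Finset (Fin n)) : Fin n → ℕ :=
  fun j => v j + if j ∈ D then 1 else 0

/-- Mod 2 cup product of the coboundaries of `α 0, ..., α (k - 1)` on the cube with lower
corner `v` and directions `D`. -/
noncomputable def cubeCup {n : ℕ} (α : ℕ → (Fin n → ℕ) → ZMod 2) :
    ℕ → (Fin n → ℕ) → Finset (Fin n) → ZMod 2
  | 0, _, _ => 1
  | k + 1, v, D => ∑ d ∈ D,
      cubeCup α k v (D.erase d) * (α k (cubeUp v (D.erase d)) + α k (cubeUp v D))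

theorem cubeUp_erase {n : ℕ} (v : Fin n → ℕ) (D : Finset (Fin n)) (d : Fin n) (hd : d ∈ D) :
    cubeUp (cubeUp v {d}) (D.erase d) = cubeUp v D := by
  funext j
  simp only [cubeUp, mem_singleton, mem_erase]
  by_cases h : j = d
  · subst h; simp [hd]
  · simp [h]

theorem cube_two (x : ZMod 2) : x + x = 0 := CharTwo.add_self_eq_zero x

theorem cube_sym_sum {n : ℕ} (D : Finset (Fin n)) (f : Fin n → Fin n → ZMod 2)
    (hf : ∀ d e, f d e = f e d) : ∑ d ∈ D, ∑ e ∈ D.erase d, f d e = 0 := by
  rw [← Finset.sum_finset_product' D.offDiag D (fun d => D.erase d)]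
  · refine Finset.sum_involution (fun p _ => p.swap) ?_ ?_ ?_ ?_
    · intro p _
      rw [Prod.fst_swap, Prod.snd_swap, hf p.2 p.1]
      exact cube_two _
    · intro p hp _ h
      have h1 := (mem_offDiag.1 hp).2.2
      apply h1
      have := congrArg Prod.fst h
      rw [Prod.fst_swap] at this
      exact this.symm
    · intro p hp
      rw [mem_offDiag] at hp ⊢
      exact ⟨hp.2.1, hp.1, fun h => hp.2.2 h.symm⟩
    · intro p _
      exact Prod.swap_swap p
  · intro p
    rw [mem_offDiag, mem_erase]
    constructor
    · rintro ⟨h1, h2, h3⟩; exact ⟨h1, fun h => h3 h.symm, h2⟩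
    · rintro ⟨h1, h2, h3⟩; exact ⟨h1, h3, fun h => h2 h.symm⟩

theorem cube_sum_swap {n : ℕ} (D : Finset (Fin n)) (f : Fin n → Fin n → ZMod 2) :
    ∑ d ∈ D, ∑ e ∈ D.erase d, f d e = ∑ e ∈ D, ∑ d ∈ D.erase e, f d e := by
  refine Finset.sum_comm' ?_
  intro d e
  simp only [mem_erase]
  constructor
  · rintro ⟨h1, h2, h3⟩; exact ⟨⟨fun h => h2 h.symm, h1⟩, h3⟩
  · rintro ⟨⟨h1, h2⟩, h3⟩; exact ⟨h2, fun h => h1 h.symm, h3⟩

theorem cubeCup_cocycle {n : ℕ} (α : ℕ → (Fin n → ℕ) → ZMod 2) (k : ℕ) :
    ∀ (v : Fin n → ℕ) (D : Finset (Fin n)),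
      ∑ d ∈ D, (cubeCup α k v (D.erase d) + cubeCup α k (cubeUp v {d}) (D.erase d)) = 0 := by
  induction k with
  | zero =>
    intro v D
    refine Finset.sum_eq_zero fun d _ => ?_
    simp only [cubeCup]
    exact cube_two 1
  | succ k ih =>
    intro v D
    have key : ∀ h : Fin n → ZMod 2,
        ∑ d ∈ D, ∑ e ∈ D.erase d, cubeCup α k (cubeUp v {d}) ((D.erase d).erase e) * h e =
        ∑ d ∈ D, ∑ e ∈ D.erase d, cubeCup α k v ((D.erase d).erase e) * h e := by
      intro h
      refine (cube_sum_swap D _).trans (Eq.trans ?_ (cube_sum_swap D _).symm)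
      refine Finset.sum_congr rfl fun e _ => ?_
      rw [← Finset.sum_mul, ← Finset.sum_mul]
      congr 1
      have h1 := ih v (D.erase e)
      rw [Finset.sum_add_distrib] at h1
      have h2 : ∀ x y : ZMod 2, x + y = 0 → y = x := by decide
      have h3 := h2 _ _ h1
      rw [Finset.sum_congr rfl fun d _ => by rw [Finset.erase_right_comm], h3]
      exact Finset.sum_congr rfl fun d _ => by rw [Finset.erase_right_comm]
    have h1 : ∀ d ∈ D, cubeCup α (k + 1) (cubeUp v {d}) (D.erase d) =
        ∑ e ∈ D.erase d, cubeCup α k (cubeUp v {d}) ((D.erase d).erase e) *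
          (α k (cubeUp v (D.erase e)) + α k (cubeUp v D)) := by
      intro d hd
      rw [cubeCup]
      refine Finset.sum_congr rfl fun e he => ?_
      rw [cubeUp_erase v D d hd]
      have h2 : cubeUp (cubeUp v {d}) ((D.erase d).erase e) = cubeUp v (D.erase e) := by
        rw [Finset.erase_right_comm]
        exact cubeUp_erase v (D.erase e) d
          (mem_erase.2 ⟨fun h => (mem_erase.1 he).1 h.symm, hd⟩)
      rw [h2]
    rw [Finset.sum_add_distrib, Finset.sum_congr rfl h1, key]
    simp only [cubeCup]
    rw [← Finset.sum_add_distrib]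
    rw [Finset.sum_congr rfl fun d _ => (Finset.sum_add_distrib).symm]
    refine cube_sym_sum D (fun d e => cubeCup α k v ((D.erase d).erase e) *
        (α k (cubeUp v ((D.erase d).erase e)) + α k (cubeUp v (D.erase d))) +
        cubeCup α k v ((D.erase d).erase e) * (α k (cubeUp v (D.erase e)) + α k (cubeUp v D))) ?_
    intro d e
    rw [Finset.erase_right_comm (a := d) (b := e)]
    ring

theorem cubeCup_succ {n : ℕ} (α : ℕ → (Fin n → ℕ) → ZMod 2) (k : ℕ)
    (v : Fin n → ℕ) (D : Finset (Fin n)) :
    cubeCup α (k + 1) v D = ∑ d ∈ D,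
      (cubeCup α k v (D.erase d) * α k (cubeUp v (D.erase d)) +
        cubeCup α k (cubeUp v {d}) (D.erase d) * α k (cubeUp (cubeUp v {d}) (D.erase d))) := by
  have h1 : ∀ d ∈ D, cubeCup α k (cubeUp v {d}) (D.erase d) *
      α k (cubeUp (cubeUp v {d}) (D.erase d)) =
      cubeCup α k (cubeUp v {d}) (D.erase d) * α k (cubeUp v D) := by
    intro d hd
    rw [cubeUp_erase v D d hd]
  rw [cubeCup, Finset.sum_add_distrib, Finset.sum_congr rfl h1, ← Finset.sum_mul]
  have h2 := cubeCup_cocycle α k v D
  rw [Finset.sum_add_distrib] at h2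
  have h3 : ∀ x y : ZMod 2, x + y = 0 → y = x := by decide
  rw [h3 _ _ h2, Finset.sum_mul, ← Finset.sum_add_distrib]
  exact Finset.sum_congr rfl fun d _ => by ring

theorem cubeCup_eq_zero {n : ℕ} (α : ℕ → (Fin n → ℕ) → ZMod 2) (i : ℕ) (x : ZMod 2) (k : ℕ) :
    ∀ (v : Fin n → ℕ) (D : Finset (Fin n)), i < k →
      (∀ w : Fin n → ℕ, (∀ j, v j ≤ w j ∧ w j ≤ cubeUp v D j) → α i w = x) →
      cubeCup α k v D = 0 := by
  induction k with
  | zero => intro v D h; omega
  | succ k ih =>
    intro v D hi hc
    rw [cubeCup]
    refine Finset.sum_eq_zero fun d _ => ?_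
    have hsub : ∀ j, cubeUp v (D.erase d) j ≤ cubeUp v D j := by
      intro j
      simp only [cubeUp, mem_erase]
      split_ifs <;> simp_all
    rcases Nat.lt_succ_iff_lt_or_eq.1 hi with h | h
    · rw [ih v (D.erase d) h (fun w hw => hc w fun j => ⟨(hw j).1, (hw j).2.trans (hsub j)⟩),
        zero_mul]
    · subst h
      rw [hc _ (fun j => ⟨by simp [cubeUp], hsub j⟩), hc _ (fun j => ⟨by simp [cubeUp], le_rfl⟩),
        cube_two, mul_zero]

theorem cube_tele (g : ℕ → ZMod 2) (N : ℕ) :
    ∑ j ∈ range N, (g j + g (j + 1)) = g 0 + g N := by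
  induction N with
  | zero => simp [cube_two]
  | succ N ih =>
    rw [Finset.sum_range_succ, ih]
    have := cube_two (g N)
    linear_combination this

theorem cube_box_tele {n : ℕ} (N : ℕ) (s : Fin n → Finset ℕ) (d : Fin n) (hs : s d = range N)
    (g : (Fin n → ℕ) → ZMod 2) :
    ∑ v ∈ Fintype.piFinset s, (g v + g (cubeUp v {d})) =
      ∑ u ∈ Fintype.piFinset (Function.update s d {0}), (g u + g (Function.update u d N)) := by
  have h1 : ∑ v ∈ Fintype.piFinset s, (g v + g (cubeUp v {d})) =
      ∑ p ∈ Fintype.piFinset (Function.update s d {0}) ×ˢ range N,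
        (g (Function.update p.1 d p.2) + g (Function.update p.1 d (p.2 + 1))) := by
    refine Finset.sum_nbij' (fun v => (Function.update v d 0, v d))
      (fun p => Function.update p.1 d p.2) ?_ ?_ ?_ ?_ ?_
    · intro v hv
      rw [Fintype.mem_piFinset] at hv
      rw [mem_product, Fintype.mem_piFinset]
      refine ⟨fun j => ?_, ?_⟩
      · by_cases h : j = d
        · subst h; simp
        · simp only [Function.update_of_ne h]; exact hv j
      · rw [← hs]; exact hv d
    · intro p hp
      rw [mem_product, Fintype.mem_piFinset] at hp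
      rw [Fintype.mem_piFinset]
      intro j
      by_cases h : j = d
      · subst h; simp only [Function.update_self]; rw [hs]; exact hp.2
      · have := hp.1 j
        simp only [Function.update_of_ne h] at this ⊢
        exact this
    · intro v _
      simp
    · intro p hp
      rw [mem_product, Fintype.mem_piFinset] at hp
      have h2 := hp.1 d
      rw [Function.update_self, mem_singleton] at h2
      ext1
      · simp only [Function.update_idem]
        conv_rhs => rw [← Function.update_eq_self d p.1, h2]
      · simp
    · intro v _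
      have h3 : cubeUp v {d} = Function.update v d (v d + 1) := by
        funext j
        by_cases h : j = d
        · subst h; simp [cubeUp]
        · simp [cubeUp, h]
      simp [h3]
  rw [h1, Finset.sum_product]
  refine Finset.sum_congr rfl fun u hu => ?_
  dsimp only
  rw [cube_tele (fun j => g (Function.update u d j))]
  rw [Fintype.mem_piFinset] at hu
  have h2 := hu d
  rw [Function.update_self, mem_singleton] at h2
  congr 2
  conv_rhs => rw [← Function.update_eq_self d u, h2]

/-- Discrete cube lemma (mod 2 cup product of the coboundaries of the labellings). -/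
theorem cube_disc (n N : ℕ) (hN : 0 < N) (a : Fin n → (Fin n → ℕ) → Prop)
    (h0 : ∀ i v, (∀ j, v j ≤ N) → v i = 0 → a i v)
    (h1 : ∀ i v, (∀ j, v j ≤ N) → v i = N → ¬ a i v) :
    ∃ v : Fin n → ℕ, (∀ i, v i < N) ∧ ∀ i,
      (∃ w : Fin n → ℕ, (∀ j, v j ≤ w j ∧ w j ≤ v j + 1) ∧ a i w) ∧
      (∃ w : Fin n → ℕ, (∀ j, v j ≤ w j ∧ w j ≤ v j + 1) ∧ ¬ a i w) := by
  classical
  let α : ℕ → (Fin n → ℕ) → ZMod 2 := fun i w =>
    if h : i < n then (if a ⟨i, h⟩ w then 1 else 0) else 0
  have hα1 : ∀ (d : Fin n) (w : Fin n → ℕ), a d w → α d.val w = 1 := by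
    intro d w h
    simp only [α]
    rw [dif_pos d.2, if_pos h]
  have hα0 : ∀ (d : Fin n) (w : Fin n → ℕ), ¬ a d w → α d.val w = 0 := by
    intro d w h
    simp only [α]
    rw [dif_pos d.2, if_neg h]
  let box : ℕ → Finset (Fin n → ℕ) := fun m =>
    Fintype.piFinset (fun j : Fin n => if j.val < m then range N else {0})
  let dir : ℕ → Finset (Fin n) := fun m => univ.filter (fun j : Fin n => j.val < m)
  have key : ∀ m ≤ n, ∑ v ∈ box m, cubeCup α m v (dir m) = 1 := by
    intro m
    induction m with
    | zero =>
      intro _
      have hb : box 0 = {fun _ => 0} := by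
        ext v
        simp only [box, Fintype.mem_piFinset, Nat.not_lt_zero, if_false, mem_singleton]
        constructor
        · intro h; funext j; exact h j
        · intro h j; rw [h]
      rw [hb, Finset.sum_singleton]
      rfl
    | succ m ih =>
      intro hm
      have hm' : m < n := hm
      rw [← ih hm'.le]
      rw [Finset.sum_congr rfl fun v _ => cubeCup_succ α m v (dir (m + 1)), Finset.sum_comm]
      have hterm : ∀ d ∈ dir (m + 1), d ≠ ⟨m, hm'⟩ →
          ∑ v ∈ box (m + 1), (cubeCup α m v ((dir (m + 1)).erase d) *
              α m (cubeUp v ((dir (m + 1)).erase d)) +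
            cubeCup α m (cubeUp v {d}) ((dir (m + 1)).erase d) *
              α m (cubeUp (cubeUp v {d}) ((dir (m + 1)).erase d))) = 0 := by
        intro d hd hne
        have hd1 : d.val < m + 1 := by
          simpa [dir] using hd
        have hd2 : d.val < m := by
          rcases Nat.lt_succ_iff_lt_or_eq.1 hd1 with h | h
          · exact h
          · exact absurd (Fin.ext h) hne
        rw [cube_box_tele N _ d (by simp [hd1]) (fun v =>
          cubeCup α m v ((dir (m + 1)).erase d) * α m (cubeUp v ((dir (m + 1)).erase d)))]
        refine Finset.sum_eq_zero fun u hu => ?_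
        rw [Fintype.mem_piFinset] at hu
        have hud : u d = 0 := by
          have := hu d
          rwa [Function.update_self, mem_singleton] at this
        have hun : ∀ j, u j < N := by
          intro j
          by_cases h : j = d
          · rw [h, hud]; exact hN
          · have := hu j
            rw [Function.update_of_ne h] at this
            split_ifs at this
            · exact mem_range.1 this
            · rw [mem_singleton] at this; omega
        have e1 : cubeCup α m u ((dir (m + 1)).erase d) = 0 := by
          refine cubeCup_eq_zero α d.val 1 m u _ hd2 fun w hw => hα1 d w (h0 d w ?_ ?_)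
          · intro j
            have h2 := (hw j).2
            have h3 := hun j
            simp only [cubeUp] at h2
            split_ifs at h2 <;> omega
          · have h2 := (hw d).2
            simp only [cubeUp, mem_erase, ne_eq, not_true_eq_false, false_and, if_false] at h2
            omega
        have e2 : cubeCup α m (Function.update u d N) ((dir (m + 1)).erase d) = 0 := by
          refine cubeCup_eq_zero α d.val 0 m _ _ hd2 fun w hw => hα0 d w (h1 d w ?_ ?_)
          · intro j
            have h2 := (hw j).2
            have h3 := hun j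
            by_cases h : j = d
            · subst h
              simp only [cubeUp, mem_erase, ne_eq, not_true_eq_false, false_and, if_false,
                Function.update_self] at h2
              omega
            · simp only [cubeUp, Function.update_of_ne h] at h2
              split_ifs at h2 <;> omega
          · have h2 := (hw d).2
            have h3 := (hw d).1
            simp only [cubeUp, mem_erase, ne_eq, not_true_eq_false, false_and, if_false,
              Function.update_self] at h2
            rw [Function.update_self] at h3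
            omega
        rw [e1, e2, zero_mul, zero_mul, add_zero]
      rw [Finset.sum_eq_single_of_mem (⟨m, hm'⟩ : Fin n) (by simp [dir]) hterm]
      have hdir : (dir (m + 1)).erase ⟨m, hm'⟩ = dir m := by
        ext j
        simp only [dir, mem_erase, mem_filter, mem_univ, true_and]
        constructor
        · rintro ⟨h2, h3⟩
          have : j.val ≠ m := fun h => h2 (Fin.ext h)
          omega
        · intro h2
          exact ⟨fun h => by rw [h] at h2; exact absurd h2 (lt_irrefl m), by omega⟩
      have hs : Function.update (fun j : Fin n => if j.val < m + 1 then range N else ({0} : Finset ℕ))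
          ⟨m, hm'⟩ {0} = fun j : Fin n => if j.val < m then range N else {0} := by
        funext j
        by_cases h : j = ⟨m, hm'⟩
        · subst h; simp
        · rw [Function.update_of_ne h]
          have : j.val ≠ m := fun h' => h (Fin.ext h')
          by_cases h2 : j.val < m
          · simp [h2, Nat.lt_succ_of_lt h2]
          · simp only [h2, if_false]
            rw [if_neg (by omega)]
      rw [cube_box_tele N _ ⟨m, hm'⟩ (by simp) (fun v =>
          cubeCup α m v ((dir (m + 1)).erase ⟨m, hm'⟩) *
            α m (cubeUp v ((dir (m + 1)).erase ⟨m, hm'⟩))), hs, hdir]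
      refine Finset.sum_congr rfl fun u hu => ?_
      rw [Fintype.mem_piFinset] at hu
      have hun : ∀ j, u j < N := by
        intro j
        have := hu j
        split_ifs at this
        · exact mem_range.1 this
        · rw [mem_singleton] at this; omega
      have hum : u ⟨m, hm'⟩ = 0 := by
        have := hu ⟨m, hm'⟩
        simpa using this
      have e1 : α m (cubeUp u (dir m)) = 1 := by
        refine hα1 ⟨m, hm'⟩ _ (h0 _ _ ?_ ?_)
        · intro j
          have h3 := hun j
          simp only [cubeUp]
          split_ifs <;> omega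
        · simp [cubeUp, hum, dir]
      have e2 : α m (cubeUp (Function.update u ⟨m, hm'⟩ N) (dir m)) = 0 := by
        refine hα0 ⟨m, hm'⟩ _ (h1 _ _ ?_ ?_)
        · intro j
          have h3 := hun j
          by_cases h : j = ⟨m, hm'⟩
          · subst h; simp [cubeUp, dir]
          · simp only [cubeUp, Function.update_of_ne h]
            split_ifs <;> omega
        · simp [cubeUp, dir]
      rw [e1, e2, mul_one, mul_zero, add_zero]
  have hn := key n le_rfl
  have hex : ∃ v ∈ box n, cubeCup α n v (dir n) ≠ 0 := by
    by_contra h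
    push Not at h
    rw [Finset.sum_eq_zero h] at hn
    exact zero_ne_one hn
  obtain ⟨v, hv, hne⟩ := hex
  have hdir : dir n = univ := by
    ext j; simp [dir]
  rw [hdir] at hne
  have hv' : ∀ i, v i < N := by
    intro i
    have := (Fintype.mem_piFinset.1 hv) i
    rw [if_pos i.2] at this
    exact mem_range.1 this
  refine ⟨v, hv', fun i => ⟨?_, ?_⟩⟩
  · by_contra h
    push Not at h
    refine hne (cubeCup_eq_zero α i.val 0 n v univ i.2 fun w hw => hα0 i w (h w ?_))
    intro j
    have := hw j
    simpa [cubeUp] using this
  · by_contra h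
    push Not at h
    refine hne (cubeCup_eq_zero α i.val 1 n v univ i.2 fun w hw => hα1 i w (h w ?_))
    intro j
    have := hw j
    simpa [cubeUp] using this

end Pool.Agent.Gap
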