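import Mathlib

set_option autoImplicit false

open Set TopologicalSpace

namespace Pool.Agent.Gap

/-- Strongly zero-dimensional (or empty): disjoint closed sets are separated by a clopen set. -/
def SZ (X : Type) [TopologicalSpace X] : Prop :=
  ∀ A B : Set X, IsClosed A → IsClosed B → Disjoint A B →
    ∃ C : Set X, IsClopen C ∧ A ⊆ C ∧ Disjoint C B

/-- `IndLT n X`: the large inductive dimension `Ind X` is smaller than `n`
(`Ind X ≤ n - 1`; `IndLT 0 X` says that `X` is empty). -/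
def IndLT : ℕ → ∀ (X : Type) [TopologicalSpace X], Prop
  | 0, X, _ => IsEmpty X
  | n + 1, X, _ => ∀ A V : Set X, IsClosed A → IsOpen V → A ⊆ V →
      ∃ U : Set X, IsOpen U ∧ A ⊆ U ∧ U ⊆ V ∧ IndLT n (frontier U)

/-- `TrIndLT α X`: the large transfinite dimension `trInd X` exists and is smaller than the
ordinal `α` (with `trInd ∅ = -1`). -/
def TrIndLT (α : Ordinal.{0}) (X : Type) [TopologicalSpace X] : Prop :=
  IsEmpty X ∨ ∃ β : Ordinal.{0}, ∃ _ : β < α,
    ∀ A V : Set X, IsClosed A → IsOpen V → A ⊆ V →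
      ∃ U : Set X, IsOpen U ∧ A ⊆ U ∧ U ⊆ V ∧ TrIndLT β (frontier U)
termination_by α

/-- The family of pairs `(A i, B i)` is essential in `X`, stably under multiplication by cubes. -/
def StEss (X : Type) [TopologicalSpace X] (ι : Type) (A B : ι → Set X) : Prop :=
  ∀ (κ : Type) [Fintype κ] (U V : ι ⊕ κ → Set (X × (κ → unitInterval))),
    (∀ i, IsOpen (U i)) → (∀ i, IsOpen (V i)) → (∀ i, Disjoint (U i) (V i)) →
    (∀ i p, p.1 ∈ A i → p ∈ U (Sum.inl i)) → (∀ i p, p.1 ∈ B i → p ∈ V (Sum.inl i)) →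
    (∀ j p, p.2 j = 0 → p ∈ U (Sum.inr j)) → (∀ j p, p.2 j = 1 → p ∈ V (Sum.inr j)) →
    ∃ p, ∀ i, p ∉ U i ∧ p ∉ V i

/-- Labels with codes and two notions of smallness. -/
structure Lab (Θ C : Type) where
  K : Type
  code : K → K → C
  small : Bool → Set K → Prop
  small_empty : ∀ b, small b ∅
  small_mono : ∀ b A B, A ⊆ B → small b B → small b A
  small_iUnion : ∀ b (A : Θ → Set K), (∀ θ, small b (A θ)) → small b (⋃ θ, A θ)
  univ_not_small : ∀ b, ¬ small b univ
  path : ∀ (A : ℕ → Set K) (s : ℕ → C), (∀ k, ¬ small (Nat.bodd k) (A k)) →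
    ∃ a : ℕ → K, (∀ k, a k ∈ A k) ∧ ∀ k, code (a k) (a (k + 1)) = s k

/-- `pre ξ m`: the list of the first `m` values of `ξ`, the latest first. -/
def pre {K : Type} (ξ : ℕ → K) : ℕ → List K
  | 0 => []
  | m + 1 => ξ m :: pre ξ m

/-- `1`-Lipschitz functions from `Y` to `(0, c]`. -/
def Lip (Y : Type) [MetricSpace Y] (c : ℝ) : Type :=
  {f : Y → ℝ // (∀ y y', f y ≤ f y' + dist y y') ∧ ∀ y, 0 < f y ∧ f y ≤ c}

/-- Codes: the closeness functions at the two ends of an edge. -/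
abbrev Code (Y : Type) [MetricSpace Y] : Type := Lip Y (1 / 4) × Lip Y (1 / 4)

/-- Cells of a level: a labelled vertex or an edge with labelled ends. -/
inductive Cell (K : Type) : Type
  | v (k : ℕ) (a : K) : Cell K
  | e (k : ℕ) (a b : K) : Cell K

/-- The cell (of level `t`) lies over the position `x`. -/
def Cell.Fits {K : Type} (t : ℕ) (x : ℝ) : Cell K → Prop
  | .v k _ => x * 2 ^ t = k
  | .e k _ _ => (k : ℝ) ≤ x * 2 ^ t ∧ x * 2 ^ t ≤ k + 1

/-- The space `X(Y)`. -/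
structure Pt (Y K : Type) [MetricSpace Y] (code : K → K → Code Y) where
  y : Y
  x : ℝ
  cell : ℕ → Cell K
  fits : ∀ t, (cell t).Fits t x

/-- Position inside an edge with code `g`, at relative position `u`. -/
noncomputable def sval {Y : Type} [MetricSpace Y] (g : Code Y) (y : Y) (u : ℝ) : ℝ :=
  (1 - u) * g.1.1 y + u * (1 - g.2.1 y)

open Classical in
/-- Barycentric weight of the labelled vertex `(k, a)`. -/
noncomputable def Cell.wt {Y K : Type} [MetricSpace Y] (code : K → K → Code Y)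
    (t : ℕ) (y : Y) (x : ℝ) (c : Cell K) (k : ℕ) (a : K) : ℝ :=
  match c with
  | .v k' a' => if k = k' ∧ a = a' then 1 else 0
  | .e k' a' b' =>
      if k = k' ∧ a = a' then 1 - sval (code a' b') y (x * 2 ^ t - k')
      else if k = k' + 1 ∧ a = b' then sval (code a' b') y (x * 2 ^ t - k')
      else 0

namespace Pt

variable {Y K : Type} [MetricSpace Y] {code : K → K → Code Y}

noncomputable def wt (p : Pt Y K code) (t k : ℕ) (a : K) : ℝ :=
  (p.cell t).wt code t p.y p.x k a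

theorem ext' {p q : Pt Y K code} (h1 : p.y = q.y) (h2 : p.x = q.x)
    (h3 : ∀ t, p.cell t = q.cell t) : p = q := by
  cases p; cases q; simp only [mk.injEq]; exact ⟨h1, h2, funext h3⟩

end Pt

section Values

variable {Y K : Type} [MetricSpace Y] {code : K → K → Code Y}

theorem Lip.pos {c : ℝ} (g : Lip Y c) (y : Y) : 0 < g.1 y := (g.2.2 y).1
theorem Lip.le {c : ℝ} (g : Lip Y c) (y : Y) : g.1 y ≤ c := (g.2.2 y).2
theorem Lip.lip {c : ℝ} (g : Lip Y c) (y y' : Y) : g.1 y ≤ g.1 y' + dist y y' := g.2.1 y y'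

theorem Lip.abs_sub {c : ℝ} (g : Lip Y c) (y y' : Y) : |g.1 y - g.1 y'| ≤ dist y y' := by
  rw [abs_le]
  have h1 := g.lip y y'
  have h2 := g.lip y' y
  rw [dist_comm y' y] at h2
  constructor <;> linarith

theorem Lip.continuous {c : ℝ} (g : Lip Y c) : Continuous g.1 := by
  have : LipschitzWith 1 g.1 := LipschitzWith.of_dist_le_mul fun y y' => by
    rw [Real.dist_eq]; simpa using g.abs_sub y y'
  exact this.continuous

theorem left_le_sval (g : Code Y) (y : Y) {u : ℝ} (h0 : 0 ≤ u) : g.1.1 y ≤ sval g y u := by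
  have h1 := g.1.le y
  have h2 := g.2.le y
  unfold sval
  nlinarith

theorem sval_le_right (g : Code Y) (y : Y) {u : ℝ} (h1 : u ≤ 1) :
    sval g y u ≤ 1 - g.2.1 y := by
  have h1 := g.1.le y
  have h2 := g.2.le y
  unfold sval
  nlinarith

theorem half_le_sval (g : Code Y) (y : Y) {u : ℝ} (h0 : 0 ≤ u) (h1 : u ≤ 1) :
    u / 2 ≤ sval g y u := by
  have h1 := g.1.pos y
  have h2 := g.2.le y
  unfold sval
  nlinarith

theorem sval_le_half (g : Code Y) (y : Y) {u : ℝ} (h0 : 0 ≤ u) (h1 : u ≤ 1) :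
    sval g y u ≤ 1 - (1 - u) / 2 := by
  have h1 := g.1.le y
  have h2 := g.2.pos y
  unfold sval
  nlinarith

theorem sval_zero (g : Code Y) (y : Y) : sval g y 0 = g.1.1 y := by simp [sval]

theorem sval_one (g : Code Y) (y : Y) : sval g y 1 = 1 - g.2.1 y := by simp [sval]

theorem abs_sval_sub (g : Code Y) (y y' : Y) {u u' : ℝ} (h0 : 0 ≤ u) (h1 : u ≤ 1) :
    |sval g y u - sval g y' u'| ≤ dist y y' + |u - u'| := by
  have a1 := g.1.abs_sub y y'
  have a2 := g.2.abs_sub y y'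
  have p1 := g.1.pos y'
  have p2 := g.1.le y'
  have p3 := g.2.pos y'
  have p4 := g.2.le y'
  have e : sval g y u - sval g y' u' =
      ((1 - u) * (g.1.1 y - g.1.1 y') + u * (g.2.1 y' - g.2.1 y))
        + (u - u') * (1 - g.2.1 y' - g.1.1 y') := by
    unfold sval; ring
  rw [e]
  refine (abs_add_le _ _).trans (add_le_add ?_ ?_)
  · refine (abs_add_le _ _).trans ?_
    rw [abs_mul, abs_mul, abs_of_nonneg h0, abs_of_nonneg (by linarith : 0 ≤ 1 - u),
      abs_sub_comm (g.2.1 y')]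
    nlinarith
  · rw [abs_mul]
    have : |1 - g.2.1 y' - g.1.1 y'| ≤ 1 := by rw [abs_le]; constructor <;> linarith
    calc |u - u'| * |1 - g.2.1 y' - g.1.1 y'| ≤ |u - u'| * 1 :=
          mul_le_mul_of_nonneg_left this (abs_nonneg _)
      _ = |u - u'| := mul_one _

theorem sval_pos (g : Code Y) (y : Y) {u : ℝ} (h0 : 0 ≤ u) : 0 < sval g y u :=
  (g.1.pos y).trans_le (left_le_sval g y h0)

theorem sval_lt_one (g : Code Y) (y : Y) {u : ℝ} (h1 : u ≤ 1) : sval g y u < 1 := by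
  have := sval_le_right g y h1
  have := g.2.pos y
  linarith

theorem Cell.wt_v_self (t : ℕ) (y : Y) (x : ℝ) (k : ℕ) (a : K) :
    Cell.wt code t y x (.v k a) k a = 1 := by simp [Cell.wt]

theorem Cell.wt_v_of_ne (t : ℕ) (y : Y) (x : ℝ) (k k' : ℕ) (a a' : K)
    (h : ¬ (k = k' ∧ a = a')) :
    Cell.wt code t y x (.v k' a') k a = 0 := by simp [Cell.wt, h]

theorem Cell.wt_e_left (t : ℕ) (y : Y) (x : ℝ) (k : ℕ) (a b : K) :
    Cell.wt code t y x (.e k a b) k a = 1 - sval (code a b) y (x * 2 ^ t - k) := by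
  simp [Cell.wt]

theorem Cell.wt_e_right (t : ℕ) (y : Y) (x : ℝ) (k : ℕ) (a b : K) :
    Cell.wt code t y x (.e k a b) (k + 1) b = sval (code a b) y (x * 2 ^ t - k) := by
  simp [Cell.wt]

theorem Cell.wt_e_of_ne (t : ℕ) (y : Y) (x : ℝ) (k k' : ℕ) (a a' b' : K)
    (h : ¬ (k = k' ∧ a = a')) (h' : ¬ (k = k' + 1 ∧ a = b')) :
    Cell.wt code t y x (.e k' a' b') k a = 0 := by simp [Cell.wt, h, h']

theorem Cell.Fits.mem {t : ℕ} {x : ℝ} {k : ℕ} {a b : K} (h : (Cell.e k a b).Fits t x) :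
    0 ≤ x * 2 ^ t - k ∧ x * 2 ^ t - k ≤ 1 := by
  obtain ⟨h1, h2⟩ := h
  constructor <;> linarith

theorem Cell.wt_nonneg {t : ℕ} {x : ℝ} {c : Cell K} (hc : c.Fits t x) (y : Y) (k : ℕ) (a : K) :
    0 ≤ Cell.wt code t y x c k a := by
  rcases c with ⟨k', a'⟩ | ⟨k', a', b'⟩
  · simp only [Cell.wt]; split_ifs <;> norm_num
  · simp only [Cell.wt]; split_ifs
    · have := sval_lt_one (code a' b') y hc.mem.2
      linarith
    · exact (sval_pos _ _ hc.mem.1).le
    · exact le_rfl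

theorem Cell.wt_le_one {t : ℕ} {x : ℝ} {c : Cell K} (hc : c.Fits t x) (y : Y) (k : ℕ) (a : K) :
    Cell.wt code t y x c k a ≤ 1 := by
  rcases c with ⟨k', a'⟩ | ⟨k', a', b'⟩
  · simp only [Cell.wt]; split_ifs <;> norm_num
  · simp only [Cell.wt]; split_ifs
    · have := sval_pos (code a' b') y hc.mem.1
      linarith
    · exact (sval_lt_one _ _ hc.mem.2).le
    · norm_num

end Values

end Pool.Agent.Gap
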