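import Pool.Agent.Gap.Defs

set_option autoImplicit false

open Set TopologicalSpace Topology

namespace Pool.Agent.Gap

/-- A closed embedding restricts to a closed embedding of the frontier of a preimage. -/
theorem IndBasic_frontier {X X' : Type} [TopologicalSpace X] [TopologicalSpace X']
    {f : X → X'} (hf : IsClosedEmbedding f) (U' : Set X') :
    ∃ g : frontier (f ⁻¹' U') → frontier U', IsClosedEmbedding g := by
  have hfr : frontier (f ⁻¹' U') ⊆ f ⁻¹' frontier U' :=
    hf.continuous.frontier_preimage_subset U'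
  refine ⟨fun x => ⟨f x, hfr x.2⟩, ?_⟩
  have hcont : Continuous (fun x : frontier (f ⁻¹' U') => (⟨f x, hfr x.2⟩ : frontier U')) :=
    (hf.continuous.comp continuous_subtype_val).subtype_mk _
  have hcomp : IsClosedEmbedding (f ∘ (Subtype.val : frontier (f ⁻¹' U') → X)) :=
    hf.comp isClosed_frontier.isClosedEmbedding_subtypeVal
  refine ⟨IsEmbedding.of_comp hcont continuous_subtype_val hcomp.isEmbedding, ?_⟩
  have : range (fun x : frontier (f ⁻¹' U') => (⟨f x, hfr x.2⟩ : frontier U')) =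
      Subtype.val ⁻¹' range (f ∘ (Subtype.val : frontier (f ⁻¹' U') → X)) := by
    ext y
    constructor
    · rintro ⟨x, rfl⟩
      exact ⟨x, rfl⟩
    · rintro ⟨x, hx⟩
      exact ⟨x, Subtype.ext hx⟩
  rw [this]
  exact hcomp.isClosed_range.preimage continuous_subtype_val

/-- The common step. -/
theorem IndBasic_pull {X X' : Type} [TopologicalSpace X] [TopologicalSpace X']
    {f : X → X'} (hf : IsClosedEmbedding f) {A V : Set X} (hA : IsClosed A) (hV : IsOpen V)
    (hAV : A ⊆ V) :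
    ∃ A' V' : Set X', IsClosed A' ∧ IsOpen V' ∧ A' ⊆ V' ∧ A ⊆ f ⁻¹' A' ∧ f ⁻¹' V' ⊆ V := by
  obtain ⟨V', hV', rfl⟩ := hf.isInducing.isOpen_iff.1 hV
  refine ⟨f '' A, V' ∪ (range f)ᶜ, hf.isClosedMap A hA,
    hV'.union hf.isClosed_range.isOpen_compl, ?_, fun a ha => ⟨a, ha, rfl⟩, ?_⟩
  · rintro _ ⟨a, ha, rfl⟩
    exact Or.inl (hAV ha)
  · intro x hx
    rcases hx with hx | hx
    · exact hx
    · exact absurd ⟨x, rfl⟩ hx

theorem IndLT.of_isClosedEmbedding {X X' : Type} [TopologicalSpace X] [TopologicalSpace X']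
    {f : X → X'} (hf : IsClosedEmbedding f) {n : ℕ} (h : IndLT n X') : IndLT n X := by
  induction n generalizing X X' with
  | zero =>
    have h' : IsEmpty X' := h
    exact (Function.isEmpty f : IsEmpty X)
  | succ n ih =>
    intro A V hA hV hAV
    obtain ⟨A', V', hA', hV', h1, h2, h3⟩ := IndBasic_pull hf hA hV hAV
    obtain ⟨U', hU', h4, h5, h6⟩ := h A' V' hA' hV' h1
    obtain ⟨g, hg⟩ := IndBasic_frontier hf U'
    exact ⟨f ⁻¹' U', hU'.preimage hf.continuous, fun a ha => h4 (h2 ha),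
      fun a ha => h3 (h5 ha), ih hg h6⟩

theorem IndBasic_succ {X : Type} [TopologicalSpace X] (n : ℕ) (h : IndLT n X) :
    IndLT (n + 1) X := by
  induction n generalizing X with
  | zero =>
    have h' : IsEmpty X := h
    intro A V _ hV hAV
    exact ⟨V, hV, hAV, Subset.rfl, (⟨fun x => h'.false x.1⟩ : IsEmpty (frontier V))⟩
  | succ n ih =>
    intro A V hA hV hAV
    obtain ⟨U, hU, h1, h2, h3⟩ := h A V hA hV hAV
    exact ⟨U, hU, h1, h2, ih h3⟩

theorem IndLT.mono {X : Type} [TopologicalSpace X] {m n : ℕ} (hmn : m ≤ n) (h : IndLT m X) :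
    IndLT n X := by
  induction n, hmn using Nat.le_induction with
  | base => exact h
  | succ n _ ih => exact IndBasic_succ n ih

theorem IndLT.closure_form {X : Type} [TopologicalSpace X] [NormalSpace X] {n : ℕ}
    (h : IndLT (n + 1) X) {A V : Set X} (hA : IsClosed A) (hV : IsOpen V) (hAV : A ⊆ V) :
    ∃ U : Set X, IsOpen U ∧ A ⊆ U ∧ closure U ⊆ V ∧ IndLT n (frontier U) := by
  obtain ⟨W, hW, h1, h2⟩ := normal_exists_closure_subset hA hV hAV
  obtain ⟨U, hU, h3, h4, h5⟩ := h A W hA hW h1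
  exact ⟨U, hU, h3, (closure_mono h4).trans h2, h5⟩

theorem TrIndLT.of_isClosedEmbedding {X X' : Type} [TopologicalSpace X] [TopologicalSpace X']
    {f : X → X'} (hf : IsClosedEmbedding f) {α : Ordinal.{0}} (h : TrIndLT α X') :
    TrIndLT α X := by
  induction α using WellFoundedLT.induction generalizing X X' with
  | ind α ih =>
    rw [TrIndLT] at h ⊢
    rcases h with h | ⟨β, hβ, h⟩
    · exact Or.inl (Function.isEmpty f)
    · refine Or.inr ⟨β, hβ, fun A V hA hV hAV => ?_⟩
      obtain ⟨A', V', hA', hV', h1, h2, h3⟩ := IndBasic_pull hf hA hV hAV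
      obtain ⟨U', hU', h4, h5, h6⟩ := h A' V' hA' hV' h1
      obtain ⟨g, hg⟩ := IndBasic_frontier hf U'
      exact ⟨f ⁻¹' U', hU'.preimage hf.continuous, fun a ha => h4 (h2 ha),
        fun a ha => h3 (h5 ha), ih β hβ hg h6⟩

end Pool.Agent.Gap
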