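import Pool.Agent.Gap.Basic

set_option autoImplicit false

open Set TopologicalSpace

namespace Pool.Agent.Gap

namespace Pt

variable {Y K : Type} [MetricSpace Y] {code : K → K → Code Y}

/-- A labelled vertex of positive weight is the cell or an end of the cell. -/
theorem wt_pos_cases {p : Pt Y K code} {t k : ℕ} {a : K} (h : 0 < p.wt t k a) :
    p.cell t = .v k a ∨ (∃ b, p.cell t = .e k a b) ∨
      ∃ k' a', k = k' + 1 ∧ p.cell t = .e k' a' a := by
  rcases hc : p.cell t with ⟨k', a'⟩ | ⟨k', a', b'⟩
  · by_cases e1 : k = k' ∧ a = a'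
    · obtain ⟨rfl, rfl⟩ := e1
      exact Or.inl rfl
    · rw [wt_of_v_ne hc e1] at h
      exact absurd h (lt_irrefl _)
  · by_cases e1 : k = k' ∧ a = a'
    · obtain ⟨rfl, rfl⟩ := e1
      exact Or.inr (Or.inl ⟨b', rfl⟩)
    · by_cases e2 : k = k' + 1 ∧ a = b'
      · obtain ⟨rfl, rfl⟩ := e2
        exact Or.inr (Or.inr ⟨k', a', rfl, rfl⟩)
      · rw [wt_of_e_ne hc e1 e2] at h
        exact absurd h (lt_irrefl _)

/-- The two weights of an edge have the sum one. -/
theorem wt_add_of_e {p : Pt Y K code} {t k : ℕ} {a b : K} (h : p.cell t = .e k a b) :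
    p.wt t k a + p.wt t (k + 1) b = 1 := by
  rw [wt_of_e_left h, wt_of_e_right h]; ring

/-- Two weights of different labelled vertices have sum at most one. -/
theorem wt_add_le (p : Pt Y K code) (t : ℕ) {k k' : ℕ} {a a' : K} (h : ¬ (k' = k ∧ a' = a)) :
    p.wt t k a + p.wt t k' a' ≤ 1 := by
  have h1 := p.wt_le_one t k a
  have h2 := p.wt_le_one t k' a'
  have h3 := p.wt_nonneg t k a
  have h4 := p.wt_nonneg t k' a'
  by_cases hp : 0 < p.wt t k a
  · by_cases hp' : 0 < p.wt t k' a'
    · rcases wt_pos_cases hp with hc | ⟨b, hc⟩ | ⟨l, b, hl, hc⟩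
      · rcases wt_pos_cases hp' with hc' | ⟨b', hc'⟩ | ⟨l', b', hl', hc'⟩
        · rw [hc] at hc'
          injection hc' with e1 e2
          exact absurd ⟨e1.symm, e2.symm⟩ h
        · rw [hc] at hc'
          cases hc'
        · rw [hc] at hc'
          cases hc'
      · rcases wt_pos_cases hp' with hc' | ⟨b', hc'⟩ | ⟨l', b', hl', hc'⟩
        · rw [hc] at hc'
          cases hc'
        · rw [hc] at hc'
          injection hc' with e1 e2 e3
          exact absurd ⟨e1.symm, e2.symm⟩ h
        · rw [hc] at hc'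
          injection hc' with e1 e2 e3
          subst hl' e1 e2 e3
          exact (wt_add_of_e hc).le
      · rcases wt_pos_cases hp' with hc' | ⟨b', hc'⟩ | ⟨l', b', hl', hc'⟩
        · rw [hc] at hc'
          cases hc'
        · rw [hc] at hc'
          injection hc' with e1 e2 e3
          subst hl e1 e2 e3
          have := wt_add_of_e hc
          linarith
        · rw [hc] at hc'
          injection hc' with e1 e2 e3
          subst hl hl' e1 e2 e3
          exact absurd ⟨rfl, rfl⟩ h
    · linarith [not_lt.1 hp']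
  · linarith [not_lt.1 hp]

/-- Some labelled vertex has weight at least one half. -/
theorem exists_half (p : Pt Y K code) (t : ℕ) : ∃ k a, 1 / 2 ≤ p.wt t k a := by
  rcases hc : p.cell t with ⟨k', a'⟩ | ⟨k', a', b'⟩
  · refine ⟨k', a', ?_⟩
    rw [wt_of_v hc]
    norm_num
  · have h := wt_add_of_e hc
    by_cases h1 : 1 / 2 ≤ p.wt t k' a'
    · exact ⟨_, _, h1⟩
    · refine ⟨k' + 1, b', ?_⟩
      linarith [not_le.1 h1]

/-- The position is close to a vertex of weight close to one. -/
theorem abs_pos_le {p : Pt Y K code} {t k : ℕ} {a : K} (h : 0 < p.wt t k a) :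
    |p.x * 2 ^ t - k| ≤ 2 * (1 - p.wt t k a) := by
  rcases wt_pos_cases h with hc | ⟨b, hc⟩ | ⟨l, b, hl, hc⟩
  · rw [wt_of_v hc, fits_v hc]
    simp
  · have hf := fits_e hc
    rw [wt_of_e_left hc, abs_of_nonneg hf.1]
    have := half_le_sval (code a b) p.y hf.1 hf.2
    linarith
  · have hf := fits_e hc
    subst hl
    rw [wt_of_e_right hc]
    have := sval_le_half (code b a) p.y hf.1 hf.2
    push_cast
    rw [abs_le]
    constructor <;> linarith

theorem isOpen_edge (t k : ℕ) (a b : K) : IsOpen {q : Pt Y K code | q.cell t = .e k a b} := by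
  have e : {q : Pt Y K code | q.cell t = .e k a b} =
      {q : Pt Y K code | 0 < q.wt t k a} ∩ {q : Pt Y K code | 0 < q.wt t (k + 1) b} := by
    ext q
    exact cell_eq_e_iff
  rw [e]
  exact (isOpen_lt continuous_const (continuous_wt t k a)).inter
    (isOpen_lt continuous_const (continuous_wt t (k + 1) b))

theorem isClosed_edge (t k : ℕ) (a b : K) :
    IsClosed {q : Pt Y K code | q.cell t = .e k a b} := by
  have e : {q : Pt Y K code | q.cell t = .e k a b} =
      {q : Pt Y K code | (code a b).2.1 q.y ≤ q.wt t k a} ∩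
        {q : Pt Y K code | (code a b).1.1 q.y ≤ q.wt t (k + 1) b} := by
    ext q
    constructor
    · intro hc
      have hc' : q.cell t = .e k a b := hc
      have hf := fits_e hc'
      refine ⟨?_, ?_⟩
      · show (code a b).2.1 q.y ≤ q.wt t k a
        rw [wt_of_e_left hc']
        have := sval_le_right (code a b) q.y hf.2
        linarith
      · show (code a b).1.1 q.y ≤ q.wt t (k + 1) b
        rw [wt_of_e_right hc']
        exact left_le_sval (code a b) q.y hf.1
    · rintro ⟨h1, h2⟩
      exact cell_eq_e_iff.2 ⟨(Lip.pos _ _).trans_le h1, (Lip.pos _ _).trans_le h2⟩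
  rw [e]
  exact (isClosed_le ((Lip.continuous _).comp continuous_y) (continuous_wt t k a)).inter
    (isClosed_le ((Lip.continuous _).comp continuous_y) (continuous_wt t (k + 1) b))

theorem isClopen_edge (t k : ℕ) (a b : K) :
    IsClopen {q : Pt Y K code | q.cell t = .e k a b} :=
  ⟨isClosed_edge t k a b, isOpen_edge t k a b⟩

end Pt

end Pool.Agent.Gap
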