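import Pool.Agent.Gap.IndBasic

set_option autoImplicit false

open Set TopologicalSpace Topology

namespace Pool.Agent.Gap

/-- The union of open subsets of clopen fibres is open. -/
theorem TrUnb_isOpen {Z : Type} [TopologicalSpace Z] (f : Z → ℕ) (hf : Continuous f)
    (V : ∀ m, Set (f ⁻¹' {m})) (hV : ∀ m, IsOpen (V m)) :
    IsOpen (⋃ m, Subtype.val '' V m) := by
  refine isOpen_iUnion fun m => ?_
  have : IsOpen (f ⁻¹' {m}) := (isOpen_discrete _).preimage hf
  exact this.isOpenMap_subtype_val _ (hV m)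

theorem TrUnb_mem {Z : Type} (f : Z → ℕ) (V : ∀ m, Set (f ⁻¹' {m})) (m : ℕ)
    (z : f ⁻¹' {m}) : (z : Z) ∈ (⋃ m, Subtype.val '' V m) ↔ z ∈ V m := by
  constructor
  · intro h
    obtain ⟨m', ⟨z', hz'⟩, h1, h2⟩ := mem_iUnion.1 h
    have e : m' = m := by
      have e1 : f z' = m' := hz'
      have e2 : f z = m := z.2
      simp only at h2
      rw [← e1, ← e2, h2]
    subst e
    have : (⟨z', hz'⟩ : f ⁻¹' {m'}) = z := Subtype.ext h2
    rw [← this]
    exact h1
  · intro h
    exact mem_iUnion.2 ⟨m, z, h, rfl⟩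

/-- The union of closed subsets of clopen fibres is closed. -/
theorem TrUnb_isClosed {Z : Type} [TopologicalSpace Z] (f : Z → ℕ) (hf : Continuous f)
    (A : ∀ m, Set (f ⁻¹' {m})) (hA : ∀ m, IsClosed (A m)) :
    IsClosed (⋃ m, Subtype.val '' A m) := by
  have h := TrUnb_isOpen f hf (fun m => (A m)ᶜ) fun m => (hA m).isOpen_compl
  rw [← isOpen_compl_iff]
  convert h using 1
  ext z
  have h1 := TrUnb_mem f A (f z) ⟨z, rfl⟩
  have h2 := TrUnb_mem f (fun m => (A m)ᶜ) (f z) ⟨z, rfl⟩
  simp only at h1 h2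
  rw [mem_compl_iff, h1, h2, mem_compl_iff]

theorem TrUnb_embedding {Z : Type} [TopologicalSpace Z] (f : Z → ℕ) (hf : Continuous f)
    (U : Set Z) (m : ℕ) :
    ∃ g : frontier ((Subtype.val : f ⁻¹' {m + 1} → Z) ⁻¹' U) →
      (fun z : frontier U => f z - 1) ⁻¹' {m}, IsClosedEmbedding g := by
  have hfib : IsClopen (f ⁻¹' {m + 1}) := (isClopen_discrete _).preimage hf
  have hfr : frontier ((Subtype.val : f ⁻¹' {m + 1} → Z) ⁻¹' U) ⊆
      (Subtype.val : f ⁻¹' {m + 1} → Z) ⁻¹' frontier U :=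
    continuous_subtype_val.frontier_preimage_subset U
  refine ⟨fun x => ⟨⟨x.1.1, hfr x.2⟩, ?_⟩, ?_⟩
  · have : f x.1.1 = m + 1 := x.1.2
    show f x.1.1 - 1 = m
    omega
  · have hcont : Continuous (fun x : frontier ((Subtype.val : f ⁻¹' {m + 1} → Z) ⁻¹' U) =>
        (⟨⟨x.1.1, hfr x.2⟩, by
          have : f x.1.1 = m + 1 := x.1.2
          show f x.1.1 - 1 = m
          omega⟩ : (fun z : frontier U => f z - 1) ⁻¹' {m})) :=
      ((continuous_subtype_val.comp continuous_subtype_val).subtype_mk _).subtype_mk _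
    have hcomp : IsClosedEmbedding ((Subtype.val : f ⁻¹' {m + 1} → Z) ∘
        (Subtype.val : frontier ((Subtype.val : f ⁻¹' {m + 1} → Z) ⁻¹' U) → f ⁻¹' {m + 1})) :=
      hfib.isClosed.isClosedEmbedding_subtypeVal.comp
        isClosed_frontier.isClosedEmbedding_subtypeVal
    have hval : Continuous (fun w : (fun z : frontier U => f z - 1) ⁻¹' {m} => (w.1.1 : Z)) :=
      continuous_subtype_val.comp continuous_subtype_val
    refine ⟨IsEmbedding.of_comp hcont hval hcomp.isEmbedding, ?_⟩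
    have : range (fun x : frontier ((Subtype.val : f ⁻¹' {m + 1} → Z) ⁻¹' U) =>
        (⟨⟨x.1.1, hfr x.2⟩, by
          have : f x.1.1 = m + 1 := x.1.2
          show f x.1.1 - 1 = m
          omega⟩ : (fun z : frontier U => f z - 1) ⁻¹' {m})) =
        (fun w : (fun z : frontier U => f z - 1) ⁻¹' {m} => (w.1.1 : Z)) ⁻¹'
          range ((Subtype.val : f ⁻¹' {m + 1} → Z) ∘
        (Subtype.val : frontier ((Subtype.val : f ⁻¹' {m + 1} → Z) ⁻¹' U) → f ⁻¹' {m + 1})) := by
      ext y
      constructor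
      · rintro ⟨x, rfl⟩
        exact ⟨x, rfl⟩
      · rintro ⟨x, hx⟩
        exact ⟨x, Subtype.ext (Subtype.ext hx)⟩
    rw [this]
    exact hcomp.isClosed_range.preimage hval

theorem not_TrIndLT_of_unb (α : Ordinal.{0}) {Z : Type} [MetricSpace Z] (f : Z → ℕ)
    (hf : Continuous f) (h : ∀ m, ¬ IndLT m (f ⁻¹' {m})) : ¬ TrIndLT α Z := by
  induction α using WellFoundedLT.induction generalizing Z with
  | ind α ih =>
    intro hα
    rw [TrIndLT] at hα
    rcases hα with hα | ⟨β, hβ, hα⟩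
    · refine h 0 (?_ : IsEmpty (f ⁻¹' {0}))
      exact ⟨fun z => hα.false z.1⟩
    · have key : ∀ m, ∃ A V : Set (f ⁻¹' {m + 1}), IsClosed A ∧ IsOpen V ∧ A ⊆ V ∧
          ∀ U : Set (f ⁻¹' {m + 1}), IsOpen U → A ⊆ U → U ⊆ V → ¬ IndLT m (frontier U) := by
        intro m
        by_contra hcon
        push Not at hcon
        exact h (m + 1) fun A V hA hV hAV => by
          obtain ⟨U, hU, h1, h2, h3⟩ := hcon A V hA hV hAV
          exact ⟨U, hU, h1, h2, h3⟩
      choose A V hA hV hAV hU using key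
      let A' : ∀ m, Set (f ⁻¹' {m}) := fun m => match m with
        | 0 => ∅
        | m + 1 => A m
      let V' : ∀ m, Set (f ⁻¹' {m}) := fun m => match m with
        | 0 => ∅
        | m + 1 => V m
      have hA' : ∀ m, IsClosed (A' m) := fun m => match m with
        | 0 => isClosed_empty
        | m + 1 => hA m
      have hV' : ∀ m, IsOpen (V' m) := fun m => match m with
        | 0 => isOpen_empty
        | m + 1 => hV m
      have hAV' : ∀ m, A' m ⊆ V' m := fun m => match m with
        | 0 => Subset.rfl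
        | m + 1 => hAV m
      obtain ⟨U, hUo, hAU, hUV, hfr⟩ := hα _ _ (TrUnb_isClosed f hf A' hA')
        (TrUnb_isOpen f hf V' hV') (iUnion_mono fun m => image_mono (hAV' m))
      refine ih β hβ (Z := frontier U) (fun z => f z - 1) ?_ ?_ hfr
      · exact (continuous_of_discreteTopology (f := fun n : ℕ => n - 1)).comp
          (hf.comp continuous_subtype_val)
      · intro m hm
        obtain ⟨g, hg⟩ := TrUnb_embedding f hf U m
        refine hU m _ (hUo.preimage continuous_subtype_val) ?_ ?_ (IndLT.of_isClosedEmbedding hg hm)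
        · intro z hz
          exact hAU ((TrUnb_mem f A' (m + 1) z).2 hz)
        · intro z hz
          exact (TrUnb_mem f V' (m + 1) z).1 (hUV hz)

end Pool.Agent.Gap
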