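import Pool.Agent.Gap.Defs

set_option autoImplicit false

open Set

namespace Pool.Agent.Gap

theorem tree_pre_length {K : Type} (ξ : ℕ → K) (m : ℕ) : (pre ξ m).length = m := by
  induction m with
  | zero => rfl
  | succ m ih => simp [pre, ih]

theorem tree_pre_add {K : Type} (ξ : ℕ → K) (n k : ℕ) : ∃ ρ, pre ξ (n + k) = ρ ++ pre ξ n := by
  induction k with
  | zero => exact ⟨[], rfl⟩
  | succ k ih =>
    obtain ⟨ρ, h⟩ := ih
    exact ⟨ξ (n + k) :: ρ, by rw [← Nat.add_assoc, pre, h]; rfl⟩

theorem tree_pre_eq {K : Type} (ξ ξ' : ℕ → K) (m : ℕ) (h : pre ξ m = pre ξ' m) :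
    ∀ j < m, ξ j = ξ' j := by
  induction m with
  | zero => intro j hj; omega
  | succ m ih =>
    simp only [pre, List.cons.injEq] at h
    intro j hj
    rcases Nat.lt_succ_iff_lt_or_eq.1 hj with h1 | h1
    · exact ih h.2 j h1
    · rw [h1]; exact h.1

/-- The node `σ` dies after less than countably many steps. -/
inductive TreeDie {K : Type} (small : ℕ → Set K → Prop) (T : List K → Prop) : List K → Prop
  | leaf (σ : List K) : ¬ T σ → TreeDie small T σ
  | node (σ : List K) (B : Set K) : small σ.length B → (∀ a, a ∉ B → TreeDie small T (a :: σ)) →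
      TreeDie small T σ

theorem tree_strategy {K : Type} (small : ℕ → Set K → Prop)
    (empty : ∀ t, small t ∅)
    (mono : ∀ t A B, A ⊆ B → small t B → small t A)
    (T : List K → Prop) (σ : List K) (h : TreeDie small T σ) :
    ∃ β : List K → Set K, (∀ τ, small τ.length (β τ)) ∧
      ∀ ξ : ℕ → K, pre ξ σ.length = σ → (∀ m, σ.length ≤ m → ξ m ∉ β (pre ξ m)) →
        ∃ m, ¬ T (pre ξ m) := by
  induction h with
  | leaf σ h =>
    refine ⟨fun _ => ∅, fun τ => empty _, fun ξ h1 _ => ⟨σ.length, ?_⟩⟩
    rw [h1]; exact h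
  | node σ B hB _ ih =>
    choose β hβ hβ' using ih
    classical
    refine ⟨fun τ => if τ = σ then B else
      {x | ∃ (a : K) (ρ : List K) (ha : a ∉ B), τ = ρ ++ a :: σ ∧ x ∈ β a ha τ}, ?_, ?_⟩
    · intro τ
      dsimp only
      split_ifs with h1
      · rw [h1]; exact hB
      · by_cases h2 : ∃ (a : K) (ρ : List K), a ∉ B ∧ τ = ρ ++ a :: σ
        · obtain ⟨a, ρ, ha, h3⟩ := h2
          refine mono _ _ _ ?_ (hβ a ha τ)
          rintro x ⟨a', ρ', ha', h4, hx⟩
          have h5 : ρ ++ a :: σ = ρ' ++ a' :: σ := h3.symm.trans h4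
          have h6 : ρ.length = ρ'.length := by
            have := congrArg List.length h5
            simpa using this
          have h7 := List.append_inj h5 h6
          have h8 : a = a' := by
            have := h7.2
            simp only [List.cons.injEq] at this
            exact this.1
          subst h8
          exact hx
        · refine mono _ _ _ ?_ (empty _)
          rintro x ⟨a, ρ, ha, h3, -⟩
          exact h2 ⟨a, ρ, ha, h3⟩
    · intro ξ h1 h2
      dsimp only at h2
      have h3 : ξ σ.length ∉ B := by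
        have := h2 σ.length le_rfl
        rw [h1, if_pos rfl] at this
        exact this
      refine hβ' _ h3 ξ ?_ ?_
      · simp only [List.length_cons, pre]
        rw [h1]
      · intro m hm hx
        simp only [List.length_cons] at hm
        obtain ⟨k, rfl⟩ := Nat.exists_eq_add_of_le hm
        obtain ⟨ρ, h4⟩ := tree_pre_add ξ (σ.length + 1) k
        have h5 : pre ξ (σ.length + 1) = ξ σ.length :: σ := by
          rw [pre, h1]
        rw [h5] at h4
        have h6 : pre ξ (σ.length + 1 + k) ≠ σ := by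
          intro h
          have := congrArg List.length h
          rw [tree_pre_length] at this
          omega
        have := h2 (σ.length + 1 + k) (by omega)
        rw [if_neg h6] at this
        exact this ⟨ξ σ.length, ρ, h3, h4, hx⟩

/-- A union of closed sets of label sequences, indexed by `Θ`, which is everything: one of the
sets contains all branches of a tree with non-small branching. -/
theorem exists_good {K Θ : Type} (small : ℕ → Set K → Prop)
    (empty : ∀ t, small t ∅)
    (mono : ∀ t A B, A ⊆ B → small t B → small t A)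
    (iU : ∀ t (A : Θ → Set K), (∀ θ, small t (A θ)) → small t (⋃ θ, A θ))
    (huniv : ∀ t, ¬ small t univ)
    (F : Θ → Set (ℕ → K))
    (closed : ∀ θ ξ, (∀ m, ∃ ξ' ∈ F θ, ∀ j < m, ξ' j = ξ j) → ξ ∈ F θ)
    (cover : ∀ ξ, ∃ θ, ξ ∈ F θ) :
    ∃ (θ : Θ) (G : List K → Prop), G [] ∧
      (∀ σ, G σ → ¬ small σ.length {a | G (a :: σ)}) ∧
      ∀ ξ, (∀ m, G (pre ξ m)) → ξ ∈ F θ := by
  let T : Θ → List K → Prop := fun θ σ => ∃ ξ' ∈ F θ, pre ξ' σ.length = σ
  by_cases hD : ∃ θ, ¬ TreeDie small (T θ) []
  · obtain ⟨θ, hθ⟩ := hD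
    refine ⟨θ, fun σ => ¬ TreeDie small (T θ) σ, hθ, ?_, ?_⟩
    · intro σ hσ hs
      refine hσ (TreeDie.node σ _ hs ?_)
      intro a ha
      exact not_not.1 ha
    · intro ξ hξ
      refine closed θ ξ fun m => ?_
      have h1 : T θ (pre ξ m) := by
        by_contra h
        exact hξ m (TreeDie.leaf _ h)
      obtain ⟨ξ', h2, h3⟩ := h1
      rw [tree_pre_length] at h3
      exact ⟨ξ', h2, tree_pre_eq ξ' ξ m h3⟩
  · exfalso
    push Not at hD
    choose β hβ hβ' using fun θ => tree_strategy small empty mono (T θ) [] (hD θ)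
    have hc : ∀ τ : List K, ∃ x : K, ∀ θ, x ∉ β θ τ := by
      intro τ
      by_contra h
      push Not at h
      refine huniv τ.length (mono _ _ _ ?_ (iU τ.length (fun θ => β θ τ) fun θ => hβ θ τ))
      intro x _
      obtain ⟨θ, hx⟩ := h x
      exact mem_iUnion.2 ⟨θ, hx⟩
    choose c hc' using hc
    let L : ℕ → List K := fun m => Nat.rec [] (fun _ τ => c τ :: τ) m
    let ξ : ℕ → K := fun m => c (L m)
    have hL : ∀ m, pre ξ m = L m := by
      intro m
      induction m with
      | zero => rfl
      | succ m ih =>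
        rw [pre, ih]
    obtain ⟨θ, hθ⟩ := cover ξ
    obtain ⟨m, hm⟩ := hβ' θ ξ rfl (fun m _ => by
      rw [hL]; exact hc' (L m) θ)
    refine hm ⟨ξ, hθ, ?_⟩
    rw [tree_pre_length]

end Pool.Agent.Gap
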