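import Pool.Agent.Gap.Basic
import Pool.Agent.Gap.ZeroDim

set_option autoImplicit false

open Set TopologicalSpace Topology

namespace Pool.Agent.Gap

variable {Y K : Type} [MetricSpace Y] (code : K → K → Code Y)

theorem pz_nondyadic (S : Set Y) (hS : PZ S) :
    PZ {p : Pt Y K code | p.y ∈ S ∧ ∀ t k : ℕ, p.x * 2 ^ t ≠ k} := by
  intro ε hε
  obtain ⟨M, hM⟩ := exists_pow_lt_of_lt_one (half_pos hε) (by norm_num : (1 / 2 : ℝ) < 1)
  obtain ⟨T, f, hf, hd⟩ := hS (ε / 2) (half_pos hε)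
  refine ⟨T × (Fin (M + 1) → Cell K),
    fun p => (f ⟨p.1.y, p.2.1⟩, fun t => p.1.cell t), ?_, ?_⟩
  · rintro ⟨s, c⟩
    have e : (fun p : {p : Pt Y K code | p.y ∈ S ∧ ∀ t k : ℕ, p.x * 2 ^ t ≠ k} =>
        ((f ⟨p.1.y, p.2.1⟩, fun t => p.1.cell t) : T × (Fin (M + 1) → Cell K))) ⁻¹' {(s, c)} =
        ((fun p => (⟨p.1.y, p.2.1⟩ : S)) ⁻¹' (f ⁻¹' {s})) ∩
          ⋂ t : Fin (M + 1), {p | p.1.cell t = c t} := by
      ext p
      simp only [mem_preimage, mem_singleton_iff, Prod.mk.injEq, mem_inter_iff, mem_iInter,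
        mem_ofPred_eq]
      constructor
      · rintro ⟨h1, h2⟩
        exact ⟨h1, fun t => congrFun h2 t⟩
      · rintro ⟨h1, h2⟩
        exact ⟨h1, funext h2⟩
    rw [e]
    refine IsOpen.inter ?_ (isOpen_iInter_of_finite fun t => ?_)
    · exact (hf s).preimage ((Pt.continuous_y.comp continuous_subtype_val).subtype_mk _)
    · rcases hc : c t with ⟨k, a⟩ | ⟨k, a, b⟩
      · have : {p : {p : Pt Y K code | p.y ∈ S ∧ ∀ t k : ℕ, p.x * 2 ^ t ≠ k} |
            p.1.cell t = .v k a} = ∅ := by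
          ext p
          simp only [mem_ofPred_eq, mem_empty_iff_false, iff_false]
          intro h
          exact p.2.2 t k (Pt.fits_v h)
        rw [this]
        exact isOpen_empty
      · have : {p : {p : Pt Y K code | p.y ∈ S ∧ ∀ t k : ℕ, p.x * 2 ^ t ≠ k} |
            p.1.cell t = .e k a b} =
            {p | 0 < p.1.wt t k a} ∩ {p | 0 < p.1.wt t (k + 1) b} := by
          ext p
          exact Pt.cell_eq_e_iff
        rw [this]
        exact (isOpen_lt continuous_const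
          ((Pt.continuous_wt t k a).comp continuous_subtype_val)).inter
          (isOpen_lt continuous_const ((Pt.continuous_wt t (k + 1) b).comp continuous_subtype_val))
  · intro p q hpq
    simp only [Prod.mk.injEq] at hpq
    obtain ⟨h1, h2⟩ := hpq
    have hc : ∀ t < M + 1, p.1.cell t = q.1.cell t := fun t ht => congrFun h2 ⟨t, ht⟩
    have hy : dist p.1.y q.1.y ≤ ε / 2 := hd _ _ h1
    have hx : |p.1.x - q.1.x| ≤ (1 / 2) ^ M := by
      have h3 := hc M (Nat.lt_succ_self M)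
      rcases hp : p.1.cell M with ⟨k, a⟩ | ⟨k, a, b⟩
      · exact absurd (Pt.fits_v hp) (p.2.2 M k)
      · have hq : q.1.cell M = .e k a b := h3 ▸ hp
        have f1 := Pt.fits_e hp
        have f2 := Pt.fits_e hq
        have h5 : (1 / 2 : ℝ) ^ M * 2 ^ M = 1 := by rw [← mul_pow]; norm_num
        have h6 : |p.1.x - q.1.x| * 2 ^ M ≤ 1 := by
          rw [← abs_of_nonneg (by positivity : (0 : ℝ) ≤ 2 ^ M), ← abs_mul, abs_le]
          constructor <;> rw [sub_mul] <;> linarith [f1.1, f1.2, f2.1, f2.2]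
        calc |p.1.x - q.1.x| = (1 / 2 : ℝ) ^ M * (|p.1.x - q.1.x| * 2 ^ M) := by
              rw [mul_comm (|p.1.x - q.1.x|), ← mul_assoc, h5, one_mul]
          _ ≤ (1 / 2 : ℝ) ^ M * 1 := mul_le_mul_of_nonneg_left h6 (by positivity)
          _ = (1 / 2) ^ M := mul_one _
    have h7 := Pt.dist_le_of_cells (M + 1) hc
    have h8 : (1 / 2 : ℝ) ^ (M + 1) ≤ (1 / 2) ^ M :=
      pow_le_pow_of_le_one (by norm_num) (by norm_num) (Nat.le_succ M)
    refine h7.trans (max_le ?_ ?_)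
    · linarith
    · linarith

end Pool.Agent.Gap
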